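import Pool.Agent.Work.MP_5532fa_co.Comb

/-!
# MP_5532fa_co : building the context, the general bound
-/

open Finset

namespace MP5532fa

variable {V : Type*} [Fintype V]

open Classical in
/-- the number of ordered edges -/
noncomputable def pE (G : SimpleGraph V) : ℝ :=
  (((univ : Finset (V × V)).filter (fun e => G.Adj e.1 e.2)).card : ℝ)

theorem pE_eq (G : SimpleGraph V) : pE G = 2 * (G.edgeSet.ncard : ℝ) := by
  classical
  unfold pE
  have h := SimpleGraph.two_mul_card_edgeFinset (G := G)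
  have h2 : G.edgeSet.ncard = G.edgeFinset.card := by
    rw [← SimpleGraph.coe_edgeFinset, Set.ncard_coe_finset]
  rw [h2]
  have h3 : ((univ : Finset (V × V)).filter (fun e => G.Adj e.1 e.2)).card
      = 2 * G.edgeFinset.card := by
    rw [h]
  rw [h3]
  push_cast
  ring

/-- `Σ_E (x_u x_v)²` and the spectral radius: data coming from the Perron vector. -/
theorem nik_data [Nonempty V] {q : ℕ} (G : SimpleGraph V) (free : G.CliqueFree (q + 2))
    {x : V → ℝ} (hx1 : ∑ v, x v ^ 2 = 1) :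
    ∃ c : V → Fin (q + 1),
      LW G (fun v => x v ^ 2) univ + IW G (fun v => x v ^ 2) c univ ≤ 1 - 1 / ((q : ℝ) + 1) := by
  classical
  obtain ⟨c, hc⟩ := ms_partition G (fun v => x v ^ 2) (fun v => sq_nonneg _) q univ
    (fun s _ => free s)
  refine ⟨c, ?_⟩
  rw [hx1] at hc
  simpa using hc

omit [Fintype V] in
theorem IW_nonneg [Fintype V] {G : SimpleGraph V} {y : V → ℝ} (hy : ∀ v, 0 ≤ y v) {r : ℕ} (c : V → Fin r)
    (W : Finset V) : 0 ≤ IW G y c W := by
  classical
  unfold IW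
  refine Finset.sum_nonneg fun u _ => Finset.sum_nonneg fun v _ => ?_
  split_ifs
  · exact mul_nonneg (hy u) (hy v)
  · exact le_rfl

/-- Nikiforov's bound. -/
theorem nikiforov [Nonempty V] {q : ℕ} (G : SimpleGraph V) (free : G.CliqueFree (q + 2)) :
    specRad G ^ 2 ≤ (1 - 1 / ((q : ℝ) + 1)) * pE G := by
  classical
  obtain ⟨x, hx0, hx1, heig, _⟩ := perron G
  obtain ⟨c, hc⟩ := nik_data G free hx1
  have hI := IW_nonneg (G := G) (y := fun v => x v ^ 2) (fun v => sq_nonneg _) c univ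
  have h1 : specRad G = ∑ e ∈ univ.filter (fun e : V × V => G.Adj e.1 e.2), x e.1 * x e.2 := by
    have := qf_eq_of_eig heig
    rw [hx1, mul_one] at this
    rw [← this]
    unfold qf
    rw [Finset.sum_filter, ← Finset.univ_product_univ, Finset.sum_product]
  have h2 : LW G (fun v => x v ^ 2) univ
      = ∑ e ∈ univ.filter (fun e : V × V => G.Adj e.1 e.2), (x e.1 * x e.2) ^ 2 := by
    unfold LW
    rw [Finset.sum_filter, ← Finset.univ_product_univ, Finset.sum_product]
    refine Finset.sum_congr rfl fun u _ => Finset.sum_congr rfl fun v _ => ?_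
    split_ifs
    · ring
    · rfl
  have h3 := sq_sum_le_card_mul_sum_sq (s := univ.filter (fun e : V × V => G.Adj e.1 e.2))
    (f := fun e => x e.1 * x e.2)
  rw [← h1, ← h2] at h3
  have h4 : (0:ℝ) ≤ ((univ.filter (fun e : V × V => G.Adj e.1 e.2)).card : ℝ) := by positivity
  unfold pE
  calc specRad G ^ 2 ≤ _ := h3
    _ ≤ ((univ.filter (fun e : V × V => G.Adj e.1 e.2)).card : ℝ) * (1 - 1 / ((q : ℝ) + 1)) :=
      mul_le_mul_of_nonneg_left (by linarith) h4
    _ = _ := by ring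

/-- size threshold -/
noncomputable def P0 (q : ℕ) (D0 : ℝ) : ℝ := Kc q D0 ^ 2 + 6 * D0

theorem Kc_one {q : ℕ} {D0 : ℝ} (hD0 : 1 ≤ D0) : 1 ≤ Kc q D0 := by
  unfold Kc
  have h1 : 1 ≤ D0 ^ 6 := one_le_pow₀ hD0
  have h2 : (1:ℝ) ≤ ((q : ℝ) + 1) ^ 2 := by
    have : (0:ℝ) ≤ q := by positivity
    nlinarith
  nlinarith [mul_le_mul h2 h1 (by norm_num) (by positivity)]

theorem lam_div_le {q : ℕ} {l p K : ℝ} (hK : 1 ≤ K) (hp : K ^ 2 ≤ p)
    (h : l ^ 2 ≤ (1 - 1 / ((q : ℝ) + 1)) * p) : K * (l / p) ≤ 1 := by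
  have hp0 : 0 < p := by nlinarith
  have hal : (1 - 1 / ((q : ℝ) + 1)) ≤ 1 := by
    have : (0:ℝ) ≤ 1 / ((q : ℝ) + 1) := by positivity
    linarith
  have h1 : l ^ 2 ≤ p := h.trans (by nlinarith)
  have h2 : (K * l) ^ 2 ≤ p ^ 2 := by
    have : (K * l) ^ 2 = K ^ 2 * l ^ 2 := by ring
    rw [this]
    nlinarith [mul_le_mul hp h1 (sq_nonneg l) hp0.le]
  have h3 : K * l ≤ p := le_of_sq_le_sq h2 hp0.le
  rw [← mul_div_assoc, div_le_one hp0]
  exact h3

theorem exists_ctx [Nonempty V] (G : SimpleGraph V) (q : ℕ) (hq : 2 ≤ q)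
    (free : G.CliqueFree (q + 2)) (D0 : ℝ) (hD0 : 1 ≤ D0) (hp : P0 q D0 ≤ pE G)
    (hD : (1 - 1 / ((q : ℝ) + 1)) * pE G - specRad G ^ 2 ≤ D0) :
    ∃ C : Ctx V, C.G = G ∧ C.q = q ∧ C.lam = specRad G ∧ C.D0 = D0 ∧ C.p = pE G ∧
      ∀ z : V → ℝ, qf G z ≤ C.lam * ∑ v, z v ^ 2 := by
  classical
  obtain ⟨x, hx0, hx1, heig, hmax⟩ := perron G
  obtain ⟨c, hc⟩ := nik_data G free hx1
  have hK := Kc_one (q := q) hD0
  have hn := nikiforov G free
  have h0 := specRad_nonneg G
  unfold P0 at hp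
  have hal : 2 / 3 ≤ 1 - 1 / ((q : ℝ) + 1) := by
    have h : (2:ℝ) ≤ q := by exact_mod_cast hq
    have : 1 / ((q : ℝ) + 1) ≤ 1 / 3 := by
      apply one_div_le_one_div_of_le <;> linarith
    linarith
  have h6 : 6 * D0 ≤ pE G := by nlinarith [sq_nonneg (Kc q D0)]
  have hpos : 0 < specRad G := by
    rcases h0.lt_or_eq with h | h
    · exact h
    · rw [← h] at hD
      have : 2 / 3 * (6 * D0) ≤ (1 - 1 / ((q : ℝ) + 1)) * pE G :=
        mul_le_mul hal h6 (by linarith) (by linarith)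
      nlinarith
  refine ⟨{ G := G, q := q, hq := hq, free := free, x := x, lam := specRad G, D0 := D0,
            hx0 := hx0, hx1 := hx1, heig := heig, hD0 := hD0, hlam := hpos, c := c, hc := hc,
            p := pE G, hp := rfl, hD := hD, hp6 := h6,
            hth := lam_div_le hK (by nlinarith) hn }, rfl, rfl, rfl, rfl, rfl, hmax⟩

/-- The general bound, in terms of the number of ordered edges. -/
theorem bound_main.{u} (q : ℕ) (hq : 2 ≤ q) : ∃ K : ℝ, 0 < K ∧
    ∀ {V : Type u} [Fintype V] (G : SimpleGraph V), G.CliqueFree (q + 2) → ¬ G.Colorable (q + 1) →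
      specRad G ^ 2 ≤ 2 * (1 - 1 / ((q : ℝ) + 1)) * ((G.edgeSet.ncard : ℝ) - (q + 2))
        + K / Real.sqrt (G.edgeSet.ncard) := by
  set D0 : ℝ := 2 * (q + 2) with hD0
  have hqr : (2:ℝ) ≤ q := by exact_mod_cast hq
  have hD01 : 1 ≤ D0 := by rw [hD0]; linarith
  have hP0 : 0 < P0 q D0 := by
    unfold P0
    have := sq_nonneg (Kc q D0)
    linarith
  set K : ℝ := D0 * Real.sqrt (P0 q D0) + 10 ^ 6 * ((q : ℝ) + 1) * D0 ^ 2 with hK
  have hKpos : 0 < K := by positivity
  refine ⟨K, hKpos, ?_⟩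
  intro V _ G free hcol
  classical
  have hne : Nonempty V := by
    by_contra h
    rw [not_nonempty_iff] at h
    exact hcol (SimpleGraph.Colorable.of_isEmpty _)
  set m : ℝ := (G.edgeSet.ncard : ℝ) with hm
  have hpm : pE G = 2 * m := pE_eq G
  set al : ℝ := 1 - 1 / ((q : ℝ) + 1) with hal
  have hal0 : 0 ≤ al := by
    have : 1 / ((q : ℝ) + 1) ≤ 1 := by
      rw [div_le_one (by linarith)]; linarith
    linarith
  have hal1 : al ≤ 1 := by
    have : (0:ℝ) ≤ 1 / ((q : ℝ) + 1) := by positivity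
    linarith
  have hn := nikiforov G free
  rw [← hal, hpm] at hn
  have hm0 : 0 ≤ m := by positivity
  have hsq0 : 0 ≤ Real.sqrt m := Real.sqrt_nonneg _
  have hKd : 0 ≤ K / Real.sqrt m := div_nonneg hKpos.le hsq0
  by_cases h1 : al * pE G - specRad G ^ 2 ≤ D0
  · by_cases h2 : P0 q D0 ≤ pE G
    · obtain ⟨C, rfl, rfl, hlam, hCD, hCp, _⟩ := exists_ctx G q hq free D0 hD01 h2 h1
      have hacc := C.account
      have hdef := Ctx.defects_ge (C := C) hcol
      have hdef' : (2 * ((C.q : ℝ) + 2)) ≤ (C.Mo.card : ℝ) + C.Qo.card := by exact_mod_cast hdef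
      have hCal : C.al = al := rfl
      rw [hCal, hCp, hlam, hCD] at hacc
      have ht : C.t ≤ 1 / Real.sqrt m := by
        have hpp := C.p_pos
        have e : C.t = C.lam / C.p := rfl
        rw [e, hlam, hCp, hpm]
        have hmpos : 0 < m := by rw [hCp, hpm] at hpp; linarith
        have hsm : 0 < Real.sqrt m := Real.sqrt_pos.mpr hmpos
        rw [div_le_div_iff₀ (by linarith) hsm, one_mul]
        have hs2 : Real.sqrt m * Real.sqrt m = m := Real.mul_self_sqrt hm0
        have : specRad C.G ≤ 2 * Real.sqrt m := by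
          apply le_of_sq_le_sq _ (by positivity)
          nlinarith
        nlinarith
      have h3 : al * (2 * ((C.q : ℝ) + 2)) ≤ al * ((C.Mo.card : ℝ) + C.Qo.card) :=
        mul_le_mul_of_nonneg_left hdef' hal0
      have h4 : 10 ^ 6 * ((C.q : ℝ) + 1) * D0 ^ 2 * C.t ≤ K / Real.sqrt m := by
        have e1 : 10 ^ 6 * ((C.q : ℝ) + 1) * D0 ^ 2 * C.t
            ≤ 10 ^ 6 * ((C.q : ℝ) + 1) * D0 ^ 2 * (1 / Real.sqrt m) :=
          mul_le_mul_of_nonneg_left ht (by positivity)
        have e2 : 10 ^ 6 * ((C.q : ℝ) + 1) * D0 ^ 2 * (1 / Real.sqrt m) ≤ K / Real.sqrt m := by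
          rw [mul_one_div]
          apply div_le_div_of_nonneg_right _ hsq0
          rw [hK]
          have : 0 ≤ D0 * Real.sqrt (P0 C.q D0) := by positivity
          linarith
        linarith
      rw [hpm] at hacc
      nlinarith
    · push Not at h2
      rw [hpm] at h2
      have h3 : D0 ≤ K / Real.sqrt m := by
        rcases hsq0.lt_or_eq with hs | hs
        · rw [le_div_iff₀ hs]
          have : Real.sqrt m ≤ Real.sqrt (P0 q D0) := Real.sqrt_le_sqrt (by linarith)
          have : D0 * Real.sqrt m ≤ D0 * Real.sqrt (P0 q D0) :=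
            mul_le_mul_of_nonneg_left this (by linarith)
          have : 0 ≤ 10 ^ 6 * ((q : ℝ) + 1) * D0 ^ 2 := by positivity
          rw [hK]; linarith
        · exfalso
          -- no edges: colourable
          have hm00 : m = 0 := by
            have := Real.sqrt_eq_zero hm0
            exact this.mp hs.symm
          have : G.edgeSet.ncard = 0 := by
            rw [hm] at hm00
            exact_mod_cast hm00
          rw [Set.ncard_eq_zero (Set.toFinite _)] at this
          have hbot : G = ⊥ := SimpleGraph.edgeSet_eq_empty.mp this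
          apply hcol
          rw [hbot]
          exact ⟨SimpleGraph.Coloring.mk (fun _ => 0) (fun h => absurd h (by simp))⟩
      have h4 : 2 * al * (m - (q + 2)) = al * (2 * m) - al * D0 := by rw [hD0]; ring
      rw [h4]
      nlinarith
  · push Not at h1
    rw [hpm] at h1
    have h4 : 2 * al * (m - (q + 2)) = al * (2 * m) - al * D0 := by rw [hD0]; ring
    rw [h4]
    nlinarith

end MP5532fa
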