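import Mathlib

/-!
# MP_5532fa_co : real inequalities for the comparison
-/

namespace MP5532fa

theorem cmp_rho {al I' ρ n B' e : ℝ} (hρ0 : 0 ≤ ρ) (hρge : al * I' ≤ ρ * (n + B'))
    (hB : 0 < B') (hBn : 2 * B' ≤ n) (hn0 : 0 < n) (hne : n * e = 1) (he0 : 0 < e) :
    al * I' * (1 - 2 * B' * e) * e ≤ ρ * ((n - B') / n) := by
  have b1 : al * I' * (n - 2 * B') ≤ ρ * (n * (n - B')) := by
    have h1 : al * I' * (n - 2 * B') ≤ ρ * (n + B') * (n - 2 * B') :=
      mul_le_mul_of_nonneg_right hρge (by linarith)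
    have b2 : (n + B') * (n - 2 * B') ≤ n * (n - B') := by nlinarith
    have b3 : ρ * ((n + B') * (n - 2 * B')) ≤ ρ * (n * (n - B')) :=
      mul_le_mul_of_nonneg_left b2 hρ0
    linarith
  have b4 : al * I' * (1 - 2 * B' * e) * e = (al * I' * (n - 2 * B')) * (e * e) := by
    have : n - 2 * B' = n * (1 - 2 * B' * e) := by
      have : n * (1 - 2 * B' * e) = n - 2 * B' * (n * e) := by ring
      rw [this, hne]; ring
    rw [this]
    have : al * I' * (n * (1 - 2 * B' * e)) * (e * e)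
        = al * I' * (1 - 2 * B' * e) * e * (n * e) := by ring
    rw [this, hne, mul_one]
  have he : e = 1 / n := by field_simp; linarith
  have b5 : ρ * ((n - B') / n) = (ρ * (n * (n - B'))) * (e * e) := by
    rw [he]; field_simp
  rw [b4, b5]
  exact mul_le_mul_of_nonneg_right b1 (by positivity)

theorem cmp_lamN {al I lam n e c A : ℝ} (hlam : al * n - (al * I + 2) / n - c / n ^ 2 ≤ lam)
    (hn0 : 0 < n) (hne : n * e = 1) (hc : 0 ≤ c) (he1 : e ≤ 1)
    (hA : al * I ≤ A) : al * n ^ 2 - (A + 2 + c) ≤ lam * n := by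
  have he : e = 1 / n := by field_simp; linarith
  have c1 : (al * n - (al * I + 2) / n - c / n ^ 2) * n ≤ lam * n :=
    mul_le_mul_of_nonneg_right hlam hn0.le
  have c2 : (al * n - (al * I + 2) / n - c / n ^ 2) * n
      = al * n ^ 2 - (al * I + 2) - c * e := by
    rw [he]; field_simp
  have c3 : c * e ≤ c := by nlinarith
  linarith

theorem cmp_tlow {al lam p n e k A q : ℝ} (hlamN : al * n ^ 2 - A ≤ lam * n)
    (hpn : p ≤ al * n ^ 2 + 2 * q) (hp0 : 0 < p) (hne : n * e = 1)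
    (he0 : 0 < e) (hq : 0 ≤ q) (hk : 0 ≤ k) (hk1 : k * e ≤ 1) (hal : 1 ≤ al * n)
    (hkA : 2 * q + A ≤ k) : e * (1 - k * e) ≤ lam / p := by
  rw [le_div_iff₀ hp0]
  have d1 : (1 - k * e) * p ≤ (1 - k * e) * (al * n ^ 2 + 2 * q) :=
    mul_le_mul_of_nonneg_left hpn (by linarith)
  have d2 : (1 - k * e) * (al * n ^ 2 + 2 * q) ≤ al * n ^ 2 + 2 * q - k * al * n := by
    have : (1 - k * e) * (al * n ^ 2 + 2 * q)
        = al * n ^ 2 + 2 * q - k * al * n * (n * e) - k * e * (2 * q) := by ring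
    rw [this, hne]
    have : 0 ≤ k * e * (2 * q) := by positivity
    linarith
  have d3 : 2 * q + A ≤ k * al * n := by
    have d5 : k * 1 ≤ k * (al * n) := mul_le_mul_of_nonneg_left hal hk
    nlinarith
  have d6 : e * (1 - k * e) * p ≤ e * (lam * n) := by
    have : (1 - k * e) * p ≤ lam * n := by linarith
    calc e * (1 - k * e) * p = e * ((1 - k * e) * p) := by ring
      _ ≤ _ := mul_le_mul_of_nonneg_left this he0.le
  have d7 : e * (lam * n) = lam := by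
    calc e * (lam * n) = lam * (n * e) := by ring
      _ = lam := by rw [hne, mul_one]
  linarith

theorem cmp_tup {al p t n e I : ℝ} (f1 : p * t ^ 2 ≤ al) (hal : 2 / 3 ≤ al) (hal1 : al ≤ 1)
    (hp : al * n ^ 2 - I ≤ p) (hI : 3 * I ≤ n) (hn : 1 ≤ n) (hne : n * e = 1) (he0 : 0 < e) :
    t ≤ 2 * e := by
  have f2 : n ^ 2 / 4 ≤ p := by nlinarith
  have f3 : (n ^ 2 / 4) * t ^ 2 ≤ 1 := by
    have := mul_le_mul_of_nonneg_right f2 (sq_nonneg t)
    linarith
  apply le_of_sq_le_sq _ (by positivity)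
  have f4 : t ^ 2 = ((n ^ 2 / 4) * t ^ 2) * (4 * (e * e)) := by
    calc t ^ 2 = t ^ 2 * ((n * e) * (n * e)) := by rw [hne]; ring
      _ = _ := by ring
  rw [f4]
  have : (2 * e) ^ 2 = 1 * (4 * (e * e)) := by ring
  rw [this]
  exact mul_le_mul_of_nonneg_right f3 (by positivity)

theorem cmp_M {M t e k K6 : ℝ} (hM : 0 ≤ M) (hlow : e * (1 - k * e) ≤ t) (hup : t ≤ 2 * e)
    (hK6 : 0 ≤ K6) (hK6t : K6 * t ≤ 1 / 10) (he0 : 0 < e) (hk : 0 ≤ k) (hk1 : k * e ≤ 1) :
    M * (e * (1 - (k + 2 * K6) * e)) ≤ M * (t * (1 - K6 * t)) := by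
  apply mul_le_mul_of_nonneg_left _ hM
  have g1 : e * (1 - k * e) * (1 - K6 * t) ≤ t * (1 - K6 * t) :=
    mul_le_mul_of_nonneg_right hlow (by linarith)
  have g2 : 1 - 2 * K6 * e ≤ 1 - K6 * t := by
    have := mul_le_mul_of_nonneg_left hup hK6
    linarith
  have g3 : e * (1 - k * e) * (1 - 2 * K6 * e) ≤ e * (1 - k * e) * (1 - K6 * t) :=
    mul_le_mul_of_nonneg_left g2 (mul_nonneg he0.le (by linarith))
  have g4 : e * (1 - (k + 2 * K6) * e) ≤ e * (1 - k * e) * (1 - 2 * K6 * e) := by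
    have : e * (1 - k * e) * (1 - 2 * K6 * e)
        = e * (1 - (k + 2 * K6) * e) + e * (k * e) * (2 * K6 * e) := by ring
    rw [this]
    have : 0 ≤ e * (k * e) * (2 * K6 * e) := by positivity
    linarith
  linarith

theorem cmp_fin {al n e I I' c M rt k K6 D0 t lam B' Bd : ℝ}
    (hlam : al * n - (al * I + 2) / n - c / n ^ 2 ≤ lam)
    (hup : lam ≤ al * n - rt - M * (t * (1 - K6 * t)) + 120384 * D0 ^ 2 * t ^ 2)
    (hrt : al * I' * (1 - 2 * B' * e) * e ≤ rt)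
    (hMt : M * (e * (1 - (k + 2 * K6) * e)) ≤ M * (t * (1 - K6 * t)))
    (ht0 : 0 ≤ t) (htup : t ≤ 2 * e) (hn0 : 0 < n) (hne : n * e = 1) (he0 : 0 < e)
    (hI'0 : 0 ≤ I') (hI'B : I' ≤ Bd) (hal1 : al ≤ 1) (hB' : 0 ≤ B') (hM : M ≤ 209 * D0)
    (hk : 0 ≤ k) (hK6 : 0 ≤ K6) :
    al * I' + M ≤ al * I + 2
      + (c + 2 * B' * Bd + (k + 2 * K6) * (209 * D0) + 481536 * D0 ^ 2) * e := by
  have he : e = 1 / n := by field_simp; linarith
  have hQterm : 120384 * D0 ^ 2 * t ^ 2 ≤ 481536 * D0 ^ 2 * (e * e) := by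
    have h1 : t ^ 2 ≤ (2 * e) ^ 2 := pow_le_pow_left₀ ht0 htup 2
    have h2 := mul_le_mul_of_nonneg_left h1 (show 0 ≤ 120384 * D0 ^ 2 by positivity)
    have h3 : 120384 * D0 ^ 2 * (2 * e) ^ 2 = 481536 * D0 ^ 2 * (e * e) := by ring
    linarith
  have hlam' : al * n - (al * I + 2) * e - c * (e * e) ≤ lam := by
    have : al * n - (al * I + 2) / n - c / n ^ 2
        = al * n - (al * I + 2) * e - c * (e * e) := by
      rw [he]; field_simp
    rw [← this]; exact hlam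
  have hcomb : (al * I' * (1 - 2 * B' * e) + M * (1 - (k + 2 * K6) * e)) * e
      ≤ ((al * I + 2) + (c + 481536 * D0 ^ 2) * e) * e := by
    have e1 : (al * I' * (1 - 2 * B' * e) + M * (1 - (k + 2 * K6) * e)) * e
        = al * I' * (1 - 2 * B' * e) * e + M * (e * (1 - (k + 2 * K6) * e)) := by ring
    have e2 : ((al * I + 2) + (c + 481536 * D0 ^ 2) * e) * e
        = (al * I + 2) * e + c * (e * e) + 481536 * D0 ^ 2 * (e * e) := by ring
    rw [e1, e2]
    linarith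
  have hcomb2 : al * I' * (1 - 2 * B' * e) + M * (1 - (k + 2 * K6) * e)
      ≤ (al * I + 2) + (c + 481536 * D0 ^ 2) * e :=
    le_of_mul_le_mul_right hcomb he0
  have j1 : al * I' * (2 * B') ≤ 2 * B' * Bd := by
    have h1 : al * I' ≤ Bd := by nlinarith
    nlinarith
  have j2 : M * (k + 2 * K6) ≤ (k + 2 * K6) * (209 * D0) := by
    rw [mul_comm]
    exact mul_le_mul_of_nonneg_left hM (by linarith)
  have j4 := mul_le_mul_of_nonneg_right j1 he0.le
  have j5 := mul_le_mul_of_nonneg_right j2 he0.le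
  nlinarith

theorem cmp_int {al q r I I' M Q K e n : ℝ} (hfin : al * I' + M ≤ al * I + 2 + K * e)
    (hr : r = q + 1) (hr0 : 0 < r) (halr : al * r = q) (hI' : I' = I + Q - M - 2 * q)
    (hKn : r * K < n) (hne : n * e = 1) (he0 : 0 < e) :
    q * Q + M < 2 * q * (q + 1) + 3 := by
  have hk5e : r * K * e < 1 := by
    calc r * K * e < n * e := mul_lt_mul_of_pos_right hKn he0
      _ = 1 := hne
  have k1 : r * (al * I' + M) ≤ r * (al * I + 2 + K * e) :=
    mul_le_mul_of_nonneg_left hfin hr0.le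
  have k2 : r * (al * I' + M) = q * I' + r * M := by
    rw [← halr]; ring
  have k3 : r * (al * I + 2 + K * e) = q * I + 2 * r + r * K * e := by
    rw [← halr]; ring
  rw [k2, k3, hI'] at k1
  subst hr
  nlinarith

theorem cmp_N {al n n' I I' Q M q W : ℝ} (h2 : al * (n ^ 2 - n' ^ 2) = I - I' + Q - M - 2 * q)
    (hW : I + I' + Q + M + 2 * q ≤ W) (hI : 0 ≤ I) (hI' : 0 ≤ I') (hQ : 0 ≤ Q) (hM : 0 ≤ M)
    (hq : 0 ≤ q) (hal : 2 / 3 ≤ al) (hn : 2 * W < n) (hn' : 0 ≤ n')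
    (hne : n' + 1 ≤ n ∨ n + 1 ≤ n') : False := by
  have hW0 : 0 ≤ W := by linarith
  rcases hne with h | h
  · have : n ≤ n ^ 2 - n' ^ 2 := by nlinarith
    nlinarith
  · have : n ≤ n' ^ 2 - n ^ 2 := by nlinarith
    nlinarith

end MP5532fa
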