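import Pool.Agent.Work.MP_5532fa_co.Struct3

/-!
# MP_5532fa_co : combinatorial part
-/

open Finset

namespace MP5532fa

namespace Ctx

variable {V : Type*} [Fintype V] (C : Ctx V)

/-- Two light vertices with many neighbours give many light edges. -/
theorem Qo_two {s1 s2 : V} (h1 : ¬ C.Heavy s1) (h2 : ¬ C.Heavy s2) (hne : s1 ≠ s2)
    {N1 N2 : Finset V} (hN1 : ∀ v ∈ N1, C.G.Adj s1 v) (hN2 : ∀ v ∈ N2, C.G.Adj s2 v)
    (c1 : C.q + 1 ≤ N1.card) (c2 : C.q + 1 ≤ N2.card) :
    4 * C.q + 2 ≤ C.Qo.card := by
  classical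
  set A := N1.image (fun v => (s1, v)) with hA
  set B := N2.image (fun v => (s2, v)) with hB
  set A' := (N1.erase s2).image (fun v => (v, s1)) with hA'
  set B' := (N2.erase s1).image (fun v => (v, s2)) with hB'
  have cA : A.card = N1.card := Finset.card_image_of_injective _ fun a b h => (Prod.mk.inj h).2
  have cB : B.card = N2.card := Finset.card_image_of_injective _ fun a b h => (Prod.mk.inj h).2
  have cA' : A'.card = (N1.erase s2).card :=
    Finset.card_image_of_injective _ fun a b h => (Prod.mk.inj h).1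
  have cB' : B'.card = (N2.erase s1).card :=
    Finset.card_image_of_injective _ fun a b h => (Prod.mk.inj h).1
  have e1 : N1.card - 1 ≤ (N1.erase s2).card := Finset.pred_card_le_card_erase
  have e2 : N2.card - 1 ≤ (N2.erase s1).card := Finset.pred_card_le_card_erase
  have dAB : Disjoint A B := by
    rw [Finset.disjoint_left]
    intro e he he'
    obtain ⟨a, _, rfl⟩ := Finset.mem_image.mp he
    obtain ⟨b, _, hb⟩ := Finset.mem_image.mp he'
    exact hne (Prod.mk.inj hb).1.symm
  have dAB' : Disjoint A' B' := by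
    rw [Finset.disjoint_left]
    intro e he he'
    obtain ⟨a, _, rfl⟩ := Finset.mem_image.mp he
    obtain ⟨b, _, hb⟩ := Finset.mem_image.mp he'
    exact hne (Prod.mk.inj hb).2.symm
  have fst1 : ∀ e ∈ A ∪ B, e.1 = s1 ∨ e.1 = s2 := by
    intro e he
    rcases Finset.mem_union.mp he with he | he
    · obtain ⟨a, _, rfl⟩ := Finset.mem_image.mp he; exact Or.inl rfl
    · obtain ⟨a, _, rfl⟩ := Finset.mem_image.mp he; exact Or.inr rfl
  have fst2 : ∀ e ∈ A' ∪ B', e.1 ≠ s1 ∧ e.1 ≠ s2 := by
    intro e he
    rcases Finset.mem_union.mp he with he | he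
    · obtain ⟨a, ha, rfl⟩ := Finset.mem_image.mp he
      have := Finset.mem_erase.mp ha
      exact ⟨(hN1 a this.2).ne', this.1⟩
    · obtain ⟨a, ha, rfl⟩ := Finset.mem_image.mp he
      have := Finset.mem_erase.mp ha
      exact ⟨this.1, (hN2 a this.2).ne'⟩
  have dd : Disjoint (A ∪ B) (A' ∪ B') := by
    rw [Finset.disjoint_left]
    intro e he he'
    have := fst2 e he'
    rcases fst1 e he with h | h
    · exact this.1 h
    · exact this.2 h
  have hsub : (A ∪ B) ∪ (A' ∪ B') ⊆ C.Qo := by
    intro e he
    rcases Finset.mem_union.mp he with he | he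
    · rcases Finset.mem_union.mp he with he | he
      · obtain ⟨a, ha, rfl⟩ := Finset.mem_image.mp he
        exact C.mem_Qo.mpr ⟨hN1 a ha, fun h => h1 h.1⟩
      · obtain ⟨a, ha, rfl⟩ := Finset.mem_image.mp he
        exact C.mem_Qo.mpr ⟨hN2 a ha, fun h => h2 h.1⟩
    · rcases Finset.mem_union.mp he with he | he
      · obtain ⟨a, ha, rfl⟩ := Finset.mem_image.mp he
        exact C.mem_Qo.mpr ⟨(hN1 a (Finset.mem_erase.mp ha).2).symm, fun h => h1 h.2⟩
      · obtain ⟨a, ha, rfl⟩ := Finset.mem_image.mp he
        exact C.mem_Qo.mpr ⟨(hN2 a (Finset.mem_erase.mp ha).2).symm, fun h => h2 h.2⟩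
  have hcard := Finset.card_le_card hsub
  rw [Finset.card_union_of_disjoint dd, Finset.card_union_of_disjoint dAB,
    Finset.card_union_of_disjoint dAB', cA, cB, cA', cB'] at hcard
  omega

/-- Extending the colouring of the heavy part to the light vertices. -/
theorem color_ext
    (hA : ∀ s, ¬ C.Heavy s → ∃ i, ∀ v, C.Heavy v → C.c v = i → ¬ C.G.Adj s v)
    (hQ : C.Qo.card < 4 * C.q + 2) :
    ∀ S : Finset V, (∀ s ∈ S, ¬ C.Heavy s) →
      ∃ f : V → Fin (C.q + 1), ∀ u v, (C.Heavy u ∨ u ∈ S) → (C.Heavy v ∨ v ∈ S) →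
        C.G.Adj u v → f u ≠ f v := by
  classical
  intro S
  induction S using Finset.strongInduction with
  | H S ih =>
    intro hS
    by_cases hlow : ∃ s ∈ S, (univ.filter (fun v => C.G.Adj s v ∧ (C.Heavy v ∨ v ∈ S))).card
        < C.q + 1
    · obtain ⟨s, hs, hcard⟩ := hlow
      obtain ⟨f, hf⟩ := ih (S.erase s) (Finset.erase_ssubset hs)
        (fun u hu => hS u (Finset.mem_of_mem_erase hu))
      -- a free colour
      have hfree : ∃ j : Fin (C.q + 1), ∀ v, C.G.Adj s v → (C.Heavy v ∨ v ∈ S) → f v ≠ j := by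
        by_contra hno
        push Not at hno
        choose g hg1 hg2 hg3 using hno
        have : (univ : Finset (Fin (C.q + 1))).card
            ≤ (univ.filter (fun v => C.G.Adj s v ∧ (C.Heavy v ∨ v ∈ S))).card := by
          refine Finset.card_le_card_of_injOn g ?_ ?_
          · intro j _
            exact Finset.mem_coe.mpr (Finset.mem_filter.mpr ⟨Finset.mem_univ _, hg1 j, hg2 j⟩)
          · intro a _ b _ h
            rw [← hg3 a, ← hg3 b, h]
        rw [Finset.card_univ, Fintype.card_fin] at this
        omega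
      obtain ⟨j, hj⟩ := hfree
      refine ⟨Function.update f s j, ?_⟩
      intro u v hu hv huv
      by_cases h1 : u = s
      · subst h1
        have hvu : v ≠ u := huv.ne'
        rw [Function.update_self, Function.update_of_ne hvu]
        exact (hj v huv hv).symm
      · by_cases h2 : v = s
        · subst h2
          rw [Function.update_self, Function.update_of_ne h1]
          exact hj u huv.symm hu
        · rw [Function.update_of_ne h1, Function.update_of_ne h2]
          refine hf u v ?_ ?_ huv
          · rcases hu with h | h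
            · exact Or.inl h
            · exact Or.inr (Finset.mem_erase.mpr ⟨h1, h⟩)
          · rcases hv with h | h
            · exact Or.inl h
            · exact Or.inr (Finset.mem_erase.mpr ⟨h2, h⟩)
    · push Not at hlow
      rcases Nat.lt_or_ge 1 S.card with hc | hc
      · exfalso
        obtain ⟨s1, hs1, s2, hs2, hne⟩ := Finset.one_lt_card.mp hc
        have := C.Qo_two (hS s1 hs1) (hS s2 hs2) hne
          (N1 := univ.filter (fun v => C.G.Adj s1 v ∧ (C.Heavy v ∨ v ∈ S)))
          (N2 := univ.filter (fun v => C.G.Adj s2 v ∧ (C.Heavy v ∨ v ∈ S)))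
          (fun v hv => (Finset.mem_filter.mp hv).2.1) (fun v hv => (Finset.mem_filter.mp hv).2.1)
          (hlow s1 hs1) (hlow s2 hs2)
        omega
      · have : Nonempty V := ⟨(C.Ty_nonempty 0).choose⟩
        rcases Finset.card_le_one_iff_subset_singleton.mp hc with ⟨s, hs⟩
        by_cases hmem : s ∈ S
        · obtain ⟨i, hi⟩ := hA s (hS s hmem)
          have hSs : S = {s} := le_antisymm hs (Finset.singleton_subset_iff.mpr hmem)
          have hsl := hS s hmem
          refine ⟨Function.update C.c s i, ?_⟩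
          intro u v hu hv huv
          rw [hSs, Finset.mem_singleton] at hu hv
          by_cases h1 : u = s
          · subst h1
            have hvu : v ≠ u := huv.ne'
            have hvH : C.Heavy v := hv.resolve_right hvu
            rw [Function.update_self, Function.update_of_ne hvu]
            exact fun h => hi v hvH h.symm huv
          · have huH : C.Heavy u := hu.resolve_right h1
            by_cases h2 : v = s
            · subst h2
              rw [Function.update_self, Function.update_of_ne h1]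
              exact fun h => hi u huH h huv.symm
            · have hvH : C.Heavy v := hv.resolve_right h2
              rw [Function.update_of_ne h1, Function.update_of_ne h2]
              exact fun h => C.indep huH hvH h huv
        · have hSe : S = ∅ := by
            rcases Finset.subset_singleton_iff.mp hs with h | h
            · exact h
            · exact absurd (h ▸ Finset.mem_singleton_self s) hmem
          refine ⟨C.c, ?_⟩
          intro u v hu hv huv
          rw [hSe] at hu hv
          have huH : C.Heavy u := hu.resolve_right (Finset.notMem_empty _)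
          have hvH : C.Heavy v := hv.resolve_right (Finset.notMem_empty _)
          exact fun h => C.indep huH hvH h huv

/-- The structure of a light vertex with neighbours in all the classes. -/
structure Gadget where
  s : V
  v : Fin (C.q + 1) → V
  a : Fin (C.q + 1)
  b : Fin (C.q + 1)
  hs : ¬ C.Heavy s
  hv : ∀ i, C.Heavy (v i)
  hvc : ∀ i, C.c (v i) = i
  hadj : ∀ i, C.G.Adj s (v i)
  hab : a ≠ b
  hmiss : ¬ C.G.Adj (v a) (v b)

theorem gadget_or (hcol : ¬ C.G.Colorable (C.q + 1)) :
    Nonempty C.Gadget ∨ 4 * C.q + 2 ≤ C.Qo.card := by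
  classical
  by_cases hQ : 4 * C.q + 2 ≤ C.Qo.card
  · exact Or.inr hQ
  · push Not at hQ
    left
    by_cases hA : ∀ s, ¬ C.Heavy s → ∃ i, ∀ v, C.Heavy v → C.c v = i → ¬ C.G.Adj s v
    · exfalso
      obtain ⟨f, hf⟩ := C.color_ext hA hQ (univ.filter (fun v => ¬ C.Heavy v))
        (fun s hs => (Finset.mem_filter.mp hs).2)
      have hall : ∀ u, C.Heavy u ∨ u ∈ univ.filter (fun v => ¬ C.Heavy v) := by
        intro u
        by_cases h : C.Heavy u
        · exact Or.inl h
        · exact Or.inr (Finset.mem_filter.mpr ⟨Finset.mem_univ _, h⟩)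
      exact hcol ⟨SimpleGraph.Coloring.mk f (fun {u v} huv => hf u v (hall u) (hall v) huv)⟩
    · push Not at hA
      obtain ⟨s, hs, hsv⟩ := hA
      choose v hv1 hv2 hv3 using hsv
      have hinj : Function.Injective v := fun i j h => by rw [← hv2 i, ← hv2 j, h]
      have hmiss : ∃ a b, a ≠ b ∧ ¬ C.G.Adj (v a) (v b) := by
        by_contra hno
        push Not at hno
        have hcl : C.G.IsNClique (C.q + 1) (univ.image v) := by
          rw [SimpleGraph.isNClique_iff, SimpleGraph.isClique_iff]
          constructor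
          · intro x hx y hy hxy
            obtain ⟨i, _, rfl⟩ := Finset.mem_image.mp (Finset.mem_coe.mp hx)
            obtain ⟨j, _, rfl⟩ := Finset.mem_image.mp (Finset.mem_coe.mp hy)
            exact hno i j (fun h => hxy (by rw [h]))
          · rw [Finset.card_image_of_injective _ hinj, Finset.card_univ, Fintype.card_fin]
        refine C.free (insert s (univ.image v)) (hcl.insert ?_)
        intro y hy
        obtain ⟨j, _, rfl⟩ := Finset.mem_image.mp hy
        exact hv3 j
      obtain ⟨a, b, hab, hm⟩ := hmiss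
      exact ⟨⟨s, v, a, b, hs, hv1, hv2, hv3, hab, hm⟩⟩

variable {C}

theorem Gadget.inj (g : C.Gadget) : Function.Injective g.v :=
  fun i j h => by rw [← g.hvc i, ← g.hvc j, h]

open Classical in
/-- the light edges of the gadget -/
noncomputable def Gadget.Qs (g : C.Gadget) : Finset (V × V) :=
  (univ.image (fun i => (g.s, g.v i))) ∪ (univ.image (fun i => (g.v i, g.s)))

theorem Gadget.Qs_sub (g : C.Gadget) : g.Qs ⊆ C.Qo := by
  classical
  intro e he
  unfold Gadget.Qs at he
  rcases Finset.mem_union.mp he with he | he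
  · obtain ⟨i, _, rfl⟩ := Finset.mem_image.mp he
    exact C.mem_Qo.mpr ⟨g.hadj i, fun h => g.hs h.1⟩
  · obtain ⟨i, _, rfl⟩ := Finset.mem_image.mp he
    exact C.mem_Qo.mpr ⟨(g.hadj i).symm, fun h => g.hs h.2⟩

theorem Gadget.card_Qs (g : C.Gadget) : g.Qs.card = 2 * (C.q + 1) := by
  classical
  unfold Gadget.Qs
  rw [Finset.card_union_of_disjoint, Finset.card_image_of_injective, Finset.card_image_of_injective,
    Finset.card_univ, Fintype.card_fin]
  · ring
  · intro i j h; exact g.inj (Prod.mk.inj h).1
  · intro i j h; exact g.inj (Prod.mk.inj h).2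
  · rw [Finset.disjoint_left]
    intro e he he'
    obtain ⟨i, _, rfl⟩ := Finset.mem_image.mp he
    obtain ⟨j, _, hj⟩ := Finset.mem_image.mp he'
    have := (Prod.mk.inj hj).1
    exact g.hs (this ▸ g.hv j)

open Classical in
noncomputable def Gadget.Ms (g : C.Gadget) : Finset (V × V) := {(g.v g.a, g.v g.b), (g.v g.b, g.v g.a)}

theorem Gadget.Ms_sub (g : C.Gadget) : g.Ms ⊆ C.Mo := by
  classical
  intro e he
  unfold Gadget.Ms at he
  have h0 : (g.v g.a, g.v g.b) ∈ C.Mo :=
    C.mem_Mo.mpr ⟨g.hv _, g.hv _, by rw [g.hvc, g.hvc]; exact g.hab, g.hmiss⟩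
  rcases Finset.mem_insert.mp he with rfl | he
  · exact h0
  · rw [Finset.mem_singleton] at he
    subst he
    exact C.Mo_symm h0

theorem Gadget.card_Ms (g : C.Gadget) : g.Ms.card = 2 := by
  classical
  unfold Gadget.Ms
  apply Finset.card_pair
  intro h
  have := (Prod.mk.inj h).1
  exact g.hab (g.inj this)

theorem Gadget.card_Qo_ge (g : C.Gadget) : 2 * (C.q + 1) ≤ C.Qo.card := by
  rw [← g.card_Qs]; exact Finset.card_le_card g.Qs_sub

theorem Gadget.card_Mo_ge (g : C.Gadget) : 2 ≤ C.Mo.card := by
  rw [← g.card_Ms]; exact Finset.card_le_card g.Ms_sub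

/-- the lower bound for the number of defects -/
theorem defects_ge (hcol : ¬ C.G.Colorable (C.q + 1)) :
    2 * (C.q + 2) ≤ C.Mo.card + C.Qo.card := by
  have hq := C.hq
  rcases C.gadget_or hcol with ⟨⟨g⟩⟩ | h
  · have := g.card_Qo_ge; have := g.card_Mo_ge; omega
  · omega

variable (C)

/-- The edge count. -/
theorem edge_count : C.E.card + C.Mo.card + ∑ i, (C.T i).card ^ 2
    = (∑ i, (C.T i).card) ^ 2 + C.Qo.card := by
  classical
  set H : Finset V := univ.filter (fun v => C.Heavy v) with hH
  have hHc : H.card = ∑ i, (C.T i).card := by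
    rw [Finset.card_eq_sum_card_fiberwise (f := C.c) (t := univ) (fun _ _ => Finset.mem_univ _)]
    refine Finset.sum_congr rfl fun i _ => ?_
    congr 1
    rw [hH, Finset.filter_filter]
    rfl
  -- H × H = same class ∪ Mo ∪ heavy edges
  have h1 : (H ×ˢ H).card = ((H ×ˢ H).filter (fun e => C.c e.1 = C.c e.2)).card
      + ((H ×ˢ H).filter (fun e => ¬ C.c e.1 = C.c e.2)).card :=
    (Finset.card_filter_add_card_filter_not _).symm
  have h2 : ((H ×ˢ H).filter (fun e => C.c e.1 = C.c e.2)).card = ∑ i, (C.T i).card ^ 2 := by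
    rw [Finset.card_eq_sum_card_fiberwise (f := fun e : V × V => C.c e.1) (t := univ)
      (fun _ _ => Finset.mem_univ _)]
    refine Finset.sum_congr rfl fun i _ => ?_
    rw [sq, ← Finset.card_product]
    congr 1
    ext e
    simp only [hH, Finset.mem_filter, Finset.mem_product, Finset.mem_univ, true_and, C.mem_T]
    constructor
    · rintro ⟨⟨⟨h1, h2⟩, h3⟩, h4⟩
      exact ⟨⟨h1, h4⟩, ⟨h2, by rw [← h3]; exact h4⟩⟩
    · rintro ⟨⟨h1, h2⟩, ⟨h3, h4⟩⟩
      exact ⟨⟨⟨h1, h3⟩, by rw [h2, h4]⟩, h2⟩
  have h3 : ((H ×ˢ H).filter (fun e => ¬ C.c e.1 = C.c e.2)).card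
      = C.Mo.card + (C.E.filter (fun e => C.Heavy e.1 ∧ C.Heavy e.2)).card := by
    rw [← Finset.card_union_of_disjoint]
    · congr 1
      ext e
      simp only [hH, Finset.mem_filter, Finset.mem_product, Finset.mem_univ, true_and,
        Finset.mem_union, C.mem_Mo, C.mem_E]
      constructor
      · rintro ⟨⟨h1, h2⟩, h3⟩
        by_cases h : C.G.Adj e.1 e.2
        · exact Or.inr ⟨h, h1, h2⟩
        · exact Or.inl ⟨h1, h2, h3, h⟩
      · rintro (⟨h1, h2, h3, h4⟩ | ⟨h1, h2, h3⟩)
        · exact ⟨⟨h1, h2⟩, h3⟩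
        · exact ⟨⟨h2, h3⟩, fun h => C.indep h2 h3 h h1⟩
    · rw [Finset.disjoint_left]
      intro e he he'
      exact (C.mem_Mo.mp he).2.2.2 (C.mem_E.mp (Finset.mem_filter.mp he').1)
  have h4 : C.E.card = (C.E.filter (fun e => C.Heavy e.1 ∧ C.Heavy e.2)).card + C.Qo.card := by
    rw [← Finset.card_filter_add_card_filter_not (s := C.E)
      (fun e : V × V => C.Heavy e.1 ∧ C.Heavy e.2)]
    congr 2
    ext e
    simp only [Finset.mem_filter, C.mem_E, C.mem_Qo]
  rw [Finset.card_product, hHc] at h1
  rw [h2, h3] at h1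
  have h5 : (∑ i, (C.T i).card) ^ 2 = (∑ i, (C.T i).card) * (∑ i, (C.T i).card) := sq _
  omega

end Ctx

end MP5532fa
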