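import Pool.Agent.Work.MP_5532fa_co.Upper
import Pool.Agent.Work.MP_5532fa_co.CmpReal

/-!
# MP_5532fa_co : comparison of the spectral radii
-/

open Finset

namespace MP5532fa

/-- constants -/
noncomputable def kB (q : ℕ) (D0 : ℝ) : ℝ := 4000 * ((q : ℝ) + 1) * D0
noncomputable def kW (q : ℕ) (D0 B : ℝ) : ℝ :=
  ((q : ℝ) + 1) * B ^ 2 + ((q : ℝ) + 1) * kB q D0 ^ 2 + 209 * D0 + 2 * q
noncomputable def k4 (q : ℕ) (B : ℝ) : ℝ := 2 * (((q : ℝ) + 1) * B ^ 2 + 2 + C1 (q + 1) B + 2 * q)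
noncomputable def k5 (q : ℕ) (D0 B : ℝ) : ℝ :=
  C1 (q + 1) B + 2 * kB q D0 * (((q : ℝ) + 1) * kB q D0 ^ 2)
    + (k4 q B + 2 * (1300 * ((q : ℝ) + 1) * D0)) * (209 * D0) + 481536 * D0 ^ 2
noncomputable def kN (q : ℕ) (D0 B : ℝ) : ℝ :=
  2 * kW q D0 B + 4 * kB q D0 + k4 q B + ((q : ℝ) + 1) * k5 q D0 B
    + 3 * (((q : ℝ) + 1) * B ^ 2) + 4

theorem kB_pos {q : ℕ} {D0 : ℝ} (hD : 1 ≤ D0) : 0 < kB q D0 := by
  unfold kB; positivity

theorem kW_nonneg {q : ℕ} {D0 B : ℝ} (hD : 1 ≤ D0) : 0 ≤ kW q D0 B := by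
  unfold kW; positivity

theorem k4_nonneg {q : ℕ} {B : ℝ} (hB : 0 ≤ B) : 0 ≤ k4 q B := by
  unfold k4
  have := C1_nonneg (r := q + 1) hB
  positivity

theorem k5_nonneg {q : ℕ} {D0 B : ℝ} (hB : 0 ≤ B) (hD : 1 ≤ D0) : 0 ≤ k5 q D0 B := by
  unfold k5
  have h1 := C1_nonneg (r := q + 1) hB
  have h2 := k4_nonneg (q := q) hB
  have h3 := kB_pos (q := q) hD
  positivity

/-- consequences of `kN < n` -/
theorem kN_facts {q : ℕ} {D0 B n : ℝ} (hB : 0 ≤ B) (hD : 1 ≤ D0) (h : kN q D0 B < n) :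
    2 * kW q D0 B < n ∧ 2 * kB q D0 ≤ n ∧ k4 q B ≤ n ∧ ((q : ℝ) + 1) * k5 q D0 B < n ∧
      3 * (((q : ℝ) + 1) * B ^ 2) ≤ n ∧ 4 < n := by
  have h1 := kB_pos (q := q) hD
  have h2 := kW_nonneg (q := q) (B := B) hD
  have h3 := k4_nonneg (q := q) hB
  have h4 : 0 ≤ ((q : ℝ) + 1) * k5 q D0 B := mul_nonneg (by positivity) (k5_nonneg hB hD)
  have h5 : 0 ≤ 3 * (((q : ℝ) + 1) * B ^ 2) := by positivity
  unfold kN at h
  refine ⟨?_, ?_, ?_, ?_, ?_, ?_⟩ <;> linarith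

namespace Ctx

variable {V : Type*} [Fintype V] (C : Ctx V)

theorem edge_count_real : C.p + C.Mo.card + ∑ i, C.nT i ^ 2
    = (∑ i, C.nT i) ^ 2 + C.Qo.card := by
  have h := C.edge_count
  have h2 : ((C.E.card + C.Mo.card + ∑ i, (C.T i).card ^ 2 : ℕ) : ℝ)
      = (((∑ i, (C.T i).card) ^ 2 + C.Qo.card : ℕ) : ℝ) := by rw [h]
  push_cast at h2
  rw [C.card_E] at h2
  exact h2

theorem nT_dv (i : Fin (C.q + 1)) : |dv C.nT i| ≤ kB C.q C.D0 :=
  dv_le_real (by omega) (fun i j => C.nT_dev i j) i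

theorem imb_nT_le : imb C.nT ≤ ((C.q : ℝ) + 1) * kB C.q C.D0 ^ 2 := by
  have := imb_le C.nT_dv
  push_cast at this
  exact this

theorem sum_nT : ∑ i, C.nT i = ((∑ i, (C.T i).card : ℕ) : ℝ) := by
  unfold nT; push_cast; rfl

theorem p_eq : C.p = C.al * (∑ i, C.nT i) ^ 2 - imb C.nT + C.Qo.card - C.Mo.card := by
  have hec := C.edge_count_real
  have himb := imb_eq (n := C.nT) (by omega)
  push_cast at himb
  have hsq : ∑ i, C.nT i ^ 2 = imb C.nT + (∑ i, C.nT i) ^ 2 / ((C.q : ℝ) + 1) := by linarith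
  rw [hsq] at hec
  have : (∑ i, C.nT i) ^ 2 / ((C.q : ℝ) + 1)
      = (1 / ((C.q : ℝ) + 1)) * (∑ i, C.nT i) ^ 2 := by ring
  rw [this] at hec
  have halr : C.al = 1 - 1 / ((C.q : ℝ) + 1) := rfl
  rw [halr]
  linarith

theorem size_eq {N : ℕ} {I B : ℝ} (hI0 : 0 ≤ I) (hIB : I ≤ ((C.q : ℝ) + 1) * B ^ 2)
    (hp : C.p = C.al * (N : ℝ) ^ 2 - I + 2 * C.q)
    (hN : 2 * kW C.q C.D0 B < (N : ℝ)) :
    ∑ i, (C.T i).card = N := by
  by_contra hne
  have hMo := C.card_Mo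
  have hQo := C.card_Qo
  have hMQ := C.card_MQ
  have hI' := C.imb_nT_le
  have h1 := C.p_eq
  have h2 : C.al * ((N : ℝ) ^ 2 - (∑ i, C.nT i) ^ 2)
      = I - imb C.nT + C.Qo.card - C.Mo.card - 2 * C.q := by linarith
  refine cmp_N (W := kW C.q C.D0 B) h2 ?_ hI0 imb_nonneg (Nat.cast_nonneg _) (Nat.cast_nonneg _)
    (Nat.cast_nonneg _) C.al_ge hN (by rw [C.sum_nT]; exact Nat.cast_nonneg _) ?_
  · unfold kW; linarith
  · rw [C.sum_nT]
    rcases Nat.lt_or_gt_of_ne hne with hlt | hgt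
    · left; exact_mod_cast hlt
    · right; exact_mod_cast hgt

theorem key {N : ℕ} {I B : ℝ} (hI0 : 0 ≤ I) (hIB : I ≤ ((C.q : ℝ) + 1) * B ^ 2) (hB0 : 0 ≤ B)
    (hp : C.p = C.al * (N : ℝ) ^ 2 - I + 2 * C.q)
    (hlam : C.al * (N : ℝ) - (C.al * I + 2) / (N : ℝ) - C1 (C.q + 1) B / (N : ℝ) ^ 2 ≤ C.lam)
    (hN : kN C.q C.D0 B < (N : ℝ)) :
    (∑ i, (C.T i).card = N) ∧ imb C.nT = I + C.Qo.card - C.Mo.card - 2 * C.q ∧
      C.q * C.Qo.card + C.Mo.card < 2 * C.q * (C.q + 1) + 3 := by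
  have hD := C.hD0
  have hq := C.q_real
  have ht := C.t_pos
  have hal := C.al_ge
  have hal1 := C.al_lt
  have hr1 : 1 ≤ C.q + 1 := by omega
  obtain ⟨n1, n2, n3, n4, n5, n6⟩ := kN_facts hB0 hD hN
  have hNN := C.size_eq hI0 hIB hp n1
  have hsum : ∑ i, C.nT i = (N : ℝ) := by rw [C.sum_nT, hNN]
  have hI' := C.imb_nT_le
  have hI'0 : 0 ≤ imb C.nT := imb_nonneg
  have hpe := C.p_eq
  rw [hsum] at hpe
  have himbeq : imb C.nT = I + C.Qo.card - C.Mo.card - 2 * C.q := by linarith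
  refine ⟨hNN, himbeq, ?_⟩
  have hB' := kB_pos (q := C.q) hD
  generalize hn : (N : ℝ) = n at *
  have hn0 : 0 < n := by linarith
  have he0 : 0 < 1 / n := by positivity
  have hne : n * (1 / n) = 1 := by field_simp
  generalize he : 1 / n = e at *
  have he1 : e ≤ 1 := by nlinarith
  have hBN : kB C.q C.D0 < n := by linarith
  have hρ0 : 0 ≤ rho C.nT := rho_nonneg hr1 hsum C.nT_dv hBN
  have hρle := rho_le hr1 hsum C.nT_dv hBN
  have hρge := rho_ge hr1 hsum C.nT_dv hBN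
  rw [← C.al_eq] at hρle hρge
  have hI'W : imb C.nT ≤ kW C.q C.D0 B := by
    unfold kW
    have : 0 ≤ ((C.q : ℝ) + 1) * B ^ 2 := by positivity
    linarith
  have hμ : 0 ≤ C.al * n - rho C.nT * ((n - kB C.q C.D0) / n) := by
    have a1 : rho C.nT ≤ imb C.nT := by
      have h1 : rho C.nT * 1 ≤ rho C.nT * (n - kB C.q C.D0) :=
        mul_le_mul_of_nonneg_left (by linarith) hρ0
      have h2 : C.al * imb C.nT ≤ 1 * imb C.nT := mul_le_mul_of_nonneg_right hal1.le hI'0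
      linarith
    have a2 : (n - kB C.q C.D0) / n ≤ 1 := by rw [div_le_one hn0]; linarith
    have a3 : rho C.nT * ((n - kB C.q C.D0) / n) ≤ rho C.nT * 1 :=
      mul_le_mul_of_nonneg_left a2 hρ0
    have a4 : 2 / 3 * n ≤ C.al * n := mul_le_mul_of_nonneg_right hal hn0.le
    linarith
  have hup := C.upper hsum C.nT_dv hBN hB'.le hμ
  have hrt := cmp_rho hρ0 hρge hB' n2 hn0 hne he0
  have hC1 : 0 ≤ C1 (C.q + 1) B := C1_nonneg hB0
  have hrB : 0 ≤ ((C.q : ℝ) + 1) * B ^ 2 := by positivity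
  have halI : C.al * I ≤ ((C.q : ℝ) + 1) * B ^ 2 := by
    have : C.al * I ≤ 1 * I := mul_le_mul_of_nonneg_right hal1.le hI0
    linarith
  have hlamN := cmp_lamN hlam hn0 hne hC1 he1 halI
  have hk4 := k4_nonneg (q := C.q) hB0
  have hk4e : k4 C.q B * e ≤ 1 := by
    calc k4 C.q B * e ≤ n * e := mul_le_mul_of_nonneg_right n3 he0.le
      _ = 1 := hne
  have hnal : 1 ≤ C.al * n := by
    have : 2 / 3 * n ≤ C.al * n := mul_le_mul_of_nonneg_right hal hn0.le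
    linarith
  have htlow : e * (1 - k4 C.q B * e) ≤ C.t := by
    refine cmp_tlow hlamN (q := (C.q : ℝ)) (by linarith) C.p_pos hne he0 (Nat.cast_nonneg _) hk4 hk4e
      hnal ?_
    unfold k4; linarith
  have htup : C.t ≤ 2 * e := by
    refine cmp_tup (I := I) C.pt2_le hal hal1.le ?_ ?_ (by linarith) hne he0
    · linarith
    · linarith
  have hK60 : 0 ≤ C.K6 := by unfold K6; positivity
  have hMo := C.card_Mo
  have hQo := C.card_Qo
  have hMt := cmp_M (M := (C.Mo.card : ℝ)) (Nat.cast_nonneg _) htlow htup hK60 C.K6_t he0 hk4 hk4e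
  have hfin := cmp_fin hlam hup hrt hMt ht.le htup hn0 hne he0 hI'0 hI' hal1.le hB'.le
    (by linarith) hk4 hK60
  have halq : C.al * ((C.q : ℝ) + 1) = C.q := by
    have halr : C.al = 1 - 1 / ((C.q : ℝ) + 1) := rfl
    rw [halr]; field_simp; ring
  have hint := cmp_int (q := (C.q : ℝ)) (r := (C.q : ℝ) + 1) (K := k5 C.q C.D0 B)
    (Q := (C.Qo.card : ℝ)) (M := (C.Mo.card : ℝ)) (I := I) (I' := imb C.nT) (n := n) (e := e)
    hfin rfl (by linarith) halq himbeq n4 hne he0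
  exact_mod_cast hint

end Ctx

end MP5532fa
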