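import Pool.Agent.Work.MP_5532fa_co.Build

/-!
# MP_5532fa_co : the defect graphs
-/

open Finset

namespace MP5532fa

/-- The complete multipartite graph with classes `c` on `U`, without the edge `v a, v b`, together
with a new vertex `none` joined to the vertices `v i`. -/
def DG {U : Type*} {r : ℕ} (c : U → Fin r) (v : Fin r → U) (a b : Fin r) :
    SimpleGraph (Option U) where
  Adj x y := match x, y with
    | some u, some w => c u ≠ c w ∧ ¬ (u = v a ∧ w = v b) ∧ ¬ (u = v b ∧ w = v a)
    | none, some w => ∃ i, v i = w
    | some u, none => ∃ i, v i = u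
    | none, none => False
  symm := ⟨by
    intro x y h
    match x, y, h with
    | some u, some w, h => exact ⟨fun h' => h.1 h'.symm, fun h' => h.2.2 ⟨h'.2, h'.1⟩,
        fun h' => h.2.1 ⟨h'.2, h'.1⟩⟩
    | none, some w, h => exact h
    | some u, none, h => exact h⟩
  loopless := ⟨by
    intro x h
    match x, h with
    | some u, h => exact h.1 rfl⟩

section

variable {U : Type*} {r : ℕ} {c : U → Fin r} {v : Fin r → U} {a b : Fin r}

@[simp] theorem DG_some_some {u w : U} : (DG c v a b).Adj (some u) (some w) ↔
    c u ≠ c w ∧ ¬ (u = v a ∧ w = v b) ∧ ¬ (u = v b ∧ w = v a) := Iff.rfl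

@[simp] theorem DG_none_some {w : U} : (DG c v a b).Adj none (some w) ↔ ∃ i, v i = w := Iff.rfl

@[simp] theorem DG_some_none {w : U} : (DG c v a b).Adj (some w) none ↔ ∃ i, v i = w := Iff.rfl

theorem v_inj (hv : ∀ i, c (v i) = i) : Function.Injective v := fun i j h => by
  rw [← hv i, ← hv j, h]

theorem DG_comm : DG c v a b = DG c v b a := by
  ext x y
  match x, y with
  | some u, some w =>
    simp only [DG_some_some]
    tauto
  | none, some w => rfl
  | some u, none => rfl
  | none, none => rfl

variable [Fintype U]

open Classical in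
/-- class sums -/
noncomputable def cs (c : U → Fin r) (x : U → ℝ) (i : Fin r) : ℝ :=
  ∑ u ∈ univ.filter (fun u => c u = i), x u

theorem sum_cs (c : U → Fin r) (x : U → ℝ) : ∑ i, cs c x i = ∑ u, x u := by
  classical
  unfold cs
  exact Finset.sum_fiberwise univ c x

open Classical in
theorem row_some (hv : ∀ i, c (v i) = i) (hab : a ≠ b) (x : Option U → ℝ) (u : U) :
    (∑ y, if (DG c v a b).Adj (some u) y then x y else 0)
      = (∑ w, x (some w)) - cs c (fun w => x (some w)) (c u)
        - (if u = v a then x (some (v b)) else 0) - (if u = v b then x (some (v a)) else 0)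
        + (if u = v (c u) then x none else 0) := by
  rw [Fintype.sum_option]
  have h0 : (if (DG c v a b).Adj (some u) none then x none else 0)
      = (if u = v (c u) then x none else 0) := by
    by_cases h : u = v (c u)
    · rw [if_pos h, if_pos]
      rw [DG_some_none]
      exact ⟨c u, h.symm⟩
    · rw [if_neg h, if_neg]
      rw [DG_some_none]
      rintro ⟨i, hi⟩
      apply h
      rw [← hi, hv i]
  rw [h0]
  have h1 : (∑ w, if (DG c v a b).Adj (some u) (some w) then x (some w) else 0)
      = (∑ w, x (some w)) - cs c (fun w => x (some w)) (c u)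
        - (if u = v a then x (some (v b)) else 0) - (if u = v b then x (some (v a)) else 0) := by
    have e1 : cs c (fun w => x (some w)) (c u) = ∑ w, if c w = c u then x (some w) else 0 := by
      unfold cs
      rw [Finset.sum_filter]
    have e2 : (if u = v a then x (some (v b)) else 0)
        = ∑ w, if (u = v a ∧ w = v b) then x (some w) else 0 := by
      by_cases h : u = v a
      · simp [h]
      · simp [h]
    have e3 : (if u = v b then x (some (v a)) else 0)
        = ∑ w, if (u = v b ∧ w = v a) then x (some w) else 0 := by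
      by_cases h : u = v b
      · simp [h]
      · simp [h]
    rw [e1, e2, e3, ← Finset.sum_sub_distrib, ← Finset.sum_sub_distrib, ← Finset.sum_sub_distrib]
    refine Finset.sum_congr rfl fun w _ => ?_
    have hne : v a ≠ v b := fun h => hab (v_inj hv h)
    by_cases h1 : c w = c u
    · have h2 : ¬ (u = v a ∧ w = v b) := by
        rintro ⟨rfl, rfl⟩
        rw [hv, hv] at h1
        exact hab h1.symm
      have h3 : ¬ (u = v b ∧ w = v a) := by
        rintro ⟨rfl, rfl⟩
        rw [hv, hv] at h1
        exact hab h1
      have h4 : ¬ (DG c v a b).Adj (some u) (some w) := fun h => h.1 h1.symm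
      rw [if_neg h4, if_pos h1, if_neg h2, if_neg h3]
      ring
    · by_cases h2 : u = v a ∧ w = v b
      · have h3 : ¬ (u = v b ∧ w = v a) := by
          rintro ⟨h, _⟩
          exact hne (h2.1.symm.trans h)
        have h4 : ¬ (DG c v a b).Adj (some u) (some w) := fun h => h.2.1 h2
        rw [if_neg h4, if_neg h1, if_pos h2, if_neg h3]
        ring
      · by_cases h3 : u = v b ∧ w = v a
        · have h4 : ¬ (DG c v a b).Adj (some u) (some w) := fun h => h.2.2 h3
          rw [if_neg h4, if_neg h1, if_neg h2, if_pos h3]
          ring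
        · have h4 : (DG c v a b).Adj (some u) (some w) := ⟨fun h => h1 h.symm, h2, h3⟩
          rw [if_pos h4, if_neg h1, if_neg h2, if_neg h3]
          ring
  rw [h1]
  ring

open Classical in
theorem sum_special (hv : ∀ i, c (v i) = i) (x : U → ℝ) :
    (∑ u, if u = v (c u) then x u else 0) = ∑ i, x (v i) := by
  rw [← Finset.sum_filter]
  symm
  have : univ.filter (fun u => u = v (c u)) = univ.image v := by
    ext u
    simp only [Finset.mem_filter, Finset.mem_univ, true_and, Finset.mem_image]
    constructor
    · intro h; exact ⟨c u, h.symm⟩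
    · rintro ⟨i, rfl⟩; rw [hv]
  rw [this, Finset.sum_image (fun i _ j _ h => v_inj hv h)]

open Classical in
theorem row_none (hv : ∀ i, c (v i) = i) (x : Option U → ℝ) :
    (∑ y, if (DG c v a b).Adj none y then x y else 0) = ∑ i, x (some (v i)) := by
  rw [Fintype.sum_option]
  have h0 : ¬ (DG c v a b).Adj none none := (DG c v a b).loopless.irrefl none
  rw [if_neg h0, zero_add, ← sum_special hv (fun u => x (some u))]
  refine Finset.sum_congr rfl fun u _ => ?_
  by_cases h : u = v (c u)
  · rw [if_pos h, if_pos]
    exact ⟨c u, h.symm⟩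
  · rw [if_neg h, if_neg]
    rintro ⟨i, hi⟩
    apply h
    rw [← hi, hv i]

theorem qf_DG (hv : ∀ i, c (v i) = i) (hab : a ≠ b) (x : Option U → ℝ) :
    qf (DG c v a b) x = (∑ w, x (some w)) ^ 2 - ∑ i, cs c (fun w => x (some w)) i ^ 2
      - 2 * (x (some (v a)) * x (some (v b))) + 2 * (x none * ∑ i, x (some (v i))) := by
  classical
  have h0 : qf (DG c v a b) x = ∑ y, x y * (∑ y', if (DG c v a b).Adj y y' then x y' else 0) := by
    unfold qf
    refine Finset.sum_congr rfl fun y _ => ?_
    rw [Finset.mul_sum]
    refine Finset.sum_congr rfl fun y' _ => ?_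
    split_ifs <;> simp
  rw [h0, Fintype.sum_option, row_none hv]
  simp only [row_some hv hab]
  have e1 : ∑ u, x (some u) * ((∑ w, x (some w)) - cs c (fun w => x (some w)) (c u)
        - (if u = v a then x (some (v b)) else 0) - (if u = v b then x (some (v a)) else 0)
        + (if u = v (c u) then x none else 0))
      = (∑ u, x (some u) * (∑ w, x (some w)))
        - (∑ u, x (some u) * cs c (fun w => x (some w)) (c u))
        - (∑ u, if u = v a then x (some u) * x (some (v b)) else 0)
        - (∑ u, if u = v b then x (some u) * x (some (v a)) else 0)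
        + x none * (∑ u, if u = v (c u) then x (some u) else 0) := by
    rw [Finset.mul_sum, ← Finset.sum_sub_distrib, ← Finset.sum_sub_distrib,
      ← Finset.sum_sub_distrib, ← Finset.sum_add_distrib]
    refine Finset.sum_congr rfl fun u _ => ?_
    split_ifs <;> ring
  rw [e1, ← Finset.sum_mul, sum_special hv (fun u => x (some u)), Finset.sum_ite_eq',
    Finset.sum_ite_eq']
  have e2 : ∑ u, x (some u) * cs c (fun w => x (some w)) (c u)
      = ∑ i, cs c (fun w => x (some w)) i ^ 2 := by
    rw [← Finset.sum_fiberwise univ c]
    refine Finset.sum_congr rfl fun i _ => ?_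
    rw [sq]
    nth_rewrite 2 [cs]
    rw [Finset.mul_sum]
    refine Finset.sum_congr rfl fun u hu => ?_
    rw [(Finset.mem_filter.mp hu).2, mul_comm]
  rw [e2]
  simp only [Finset.mem_univ, if_true]
  ring

/-- class sizes -/
noncomputable def sz (c : U → Fin r) (i : Fin r) : ℕ := Nat.card {u // c u = i}

theorem sz_eq (c : U → Fin r) (i : Fin r) :
    sz c i = (open Classical in univ.filter (fun u => c u = i)).card := by
  classical
  unfold sz
  rw [Nat.card_eq_fintype_card, Fintype.card_subtype]

theorem cs_const (c : U → Fin r) (f : Fin r → ℝ) (i : Fin r) :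
    cs c (fun u => f (c u)) i = sz c i * f i := by
  classical
  unfold cs
  rw [sz_eq]
  have : ∑ u ∈ univ.filter (fun u => c u = i), f (c u)
      = ∑ u ∈ univ.filter (fun u => c u = i), f i :=
    Finset.sum_congr rfl fun u hu => by rw [(Finset.mem_filter.mp hu).2]
  rw [this, Finset.sum_const, nsmul_eq_mul]

theorem sum_sz (c : U → Fin r) : ∑ i, sz c i = Fintype.card U := by
  classical
  simp only [sz_eq]
  rw [← Finset.card_univ]
  exact (Finset.card_eq_sum_card_fiberwise (fun _ _ => Finset.mem_univ _)).symm

theorem pE_qf {V : Type*} [Fintype V] (G : SimpleGraph V) : pE G = qf G (fun _ => 1) := by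
  classical
  unfold pE qf
  rw [Finset.card_filter]
  push_cast
  rw [← Finset.univ_product_univ, Finset.sum_product]
  simp

theorem pE_DG (hv : ∀ i, c (v i) = i) (hab : a ≠ b) :
    pE (DG c v a b) = (Fintype.card U : ℝ) ^ 2 - ∑ i, (sz c i : ℝ) ^ 2 + 2 * r - 2 := by
  rw [pE_qf, qf_DG hv hab]
  have h1 : ∀ i, cs c (fun _ => (1:ℝ)) i = sz c i := fun i => by
    have := cs_const c (fun _ => 1) i
    rw [mul_one] at this
    exact this
  simp only [h1, Finset.sum_const, Finset.card_univ, Fintype.card_fin, nsmul_eq_mul, mul_one]
  ring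

end

theorem DG_cliqueFree {U : Type*} {r : ℕ} {c : U → Fin r} {v : Fin r → U} {a b : Fin r}
    (hv : ∀ i, c (v i) = i) (hab : a ≠ b) : (DG c v a b).CliqueFree (r + 1) := by
  classical
  intro s hs
  obtain ⟨hcl, hcard⟩ := (SimpleGraph.isNClique_iff _).mp hs
  by_cases hnone : none ∈ s
  · -- all other vertices are special
    have h1 : ∀ i, some (v i) ∈ s := by
      have hcard' : (s.erase none).card = r := by
        rw [Finset.card_erase_of_mem hnone, hcard]; rfl
      have hsub : s.erase none ⊆ univ.image (fun i => some (v i)) := by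
        intro y hy
        obtain ⟨hy1, hy2⟩ := Finset.mem_erase.mp hy
        match y, hy1, hy2 with
        | some w, hy1, hy2 =>
          have := hcl (Finset.mem_coe.mpr hnone) (Finset.mem_coe.mpr hy2) (by simp)
          obtain ⟨i, hi⟩ := this
          exact Finset.mem_image.mpr ⟨i, Finset.mem_univ _, by rw [hi]⟩
      have hle : (univ.image (fun i => some (v i))).card ≤ r := by
        refine Finset.card_image_le.trans ?_
        rw [Finset.card_univ, Fintype.card_fin]
      have heq := Finset.eq_of_subset_of_card_le hsub (by rw [hcard']; exact hle)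
      intro i
      have : some (v i) ∈ s.erase none := by
        rw [heq]
        exact Finset.mem_image.mpr ⟨i, Finset.mem_univ _, rfl⟩
      exact Finset.mem_of_mem_erase this
    have h2 : v a ≠ v b := fun h => hab (v_inj hv h)
    have := hcl (Finset.mem_coe.mpr (h1 a)) (Finset.mem_coe.mpr (h1 b))
      (fun h => h2 (Option.some_injective _ h))
    exact this.2.1 ⟨rfl, rfl⟩
  · -- colours are distinct
    have hsome : ∀ y ∈ s, ∃ u, y = some u := by
      intro y hy
      match y, hy with
      | none, hy => exact absurd hy hnone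
      | some u, _ => exact ⟨u, rfl⟩
    have h1 : s.card ≤ (univ : Finset (Option (Fin r))).card - 1 := by
      have : s.card ≤ ((univ : Finset (Option (Fin r))).erase none).card := by
        refine Finset.card_le_card_of_injOn (fun y => y.map c) ?_ ?_
        · intro y hy
          obtain ⟨u, rfl⟩ := hsome y (Finset.mem_coe.mp hy)
          simp
        · intro y hy y' hy' h
          obtain ⟨u, rfl⟩ := hsome y (Finset.mem_coe.mp hy)
          obtain ⟨u', rfl⟩ := hsome y' (Finset.mem_coe.mp hy')
          by_contra hne
          have hadj := hcl hy hy' hne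
          apply hadj.1
          simpa using h
      rw [Finset.card_erase_of_mem (Finset.mem_univ _)] at this
      exact this
    rw [Finset.card_univ, Fintype.card_option, Fintype.card_fin, hcard] at h1
    omega

/-- Two `r`-cliques sharing `r - 1` vertices. -/
theorem color_swap {V : Type*} {G : SimpleGraph V} {r : ℕ} {f : V → Fin r}
    (hf : ∀ {x y}, G.Adj x y → f x ≠ f y) {g g' : Fin r → V} {a : Fin r}
    (hg : ∀ i j, i ≠ j → G.Adj (g i) (g j)) (hg' : ∀ i j, i ≠ j → G.Adj (g' i) (g' j))
    (h : ∀ i, i ≠ a → g i = g' i) : f (g a) = f (g' a) := by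
  have hinj : Function.Injective (fun i => f (g i)) := by
    intro i j hij
    by_contra hne
    exact hf (hg i j hne) hij
  have hsurj : Function.Surjective (fun i => f (g i)) := Finite.surjective_of_injective hinj
  obtain ⟨j, hj⟩ := hsurj (f (g' a))
  have hj' : f (g j) = f (g' a) := hj
  by_cases hja : j = a
  · rw [← hja] at hj' ⊢; exact hj'
  · exfalso
    rw [h j hja] at hj'
    exact hf (hg' j a hja) hj'

theorem DG_not_colorable {U : Type*} {r : ℕ} {c : U → Fin r} {v : Fin r → U} {a b : Fin r}
    (hv : ∀ i, c (v i) = i) (hab : a ≠ b) {wa wb : U} (hwa : c wa = a) (hwb : c wb = b)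
    (hwa' : wa ≠ v a) (hwb' : wb ≠ v b) : ¬ (DG c v a b).Colorable r := by
  classical
  rintro ⟨f⟩
  have hf : ∀ {x y}, (DG c v a b).Adj x y → f x ≠ f y := fun h => f.valid h
  -- the special vertices
  have hne : v a ≠ v b := fun h => hab (v_inj hv h)
  -- general adjacency
  have hadj : ∀ u w : U, c u ≠ c w → u ≠ v a → u ≠ v b → (DG c v a b).Adj (some u) (some w) :=
    fun u w h1 h2 h3 => ⟨h1, fun h => h2 h.1, fun h => h3 h.1⟩
  have hwav : wa ≠ v b := fun h => hab (by rw [← hwa, h, hv])
  have hwbv : wb ≠ v a := fun h => hab (by rw [← hwb, h, hv])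
  -- first : f (v a) = f (v b)
  have h1 : f (some (v a)) = f (some (v b)) := by
    by_contra hab'
    have hinj : Function.Injective (fun i => f (some (v i))) := by
      intro i j hij
      by_contra hij'
      by_cases h : (DG c v a b).Adj (some (v i)) (some (v j))
      · exact hf h hij
      · rw [DG_some_some] at h
        have hcc : c (v i) ≠ c (v j) := by rw [hv, hv]; exact hij'
        have h' : (v i = v a ∧ v j = v b) ∨ (v i = v b ∧ v j = v a) := by tauto
        rcases h' with ⟨h1, h2⟩ | ⟨h1, h2⟩
        · apply hab'; rw [← h1, ← h2]; exact hij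
        · apply hab'; rw [← h1, ← h2]; exact hij.symm
    obtain ⟨i, hi⟩ := Finite.surjective_of_injective hinj (f none)
    have : (DG c v a b).Adj none (some (v i)) := ⟨i, rfl⟩
    exact hf this hi.symm
  -- the cliques
  set g : Fin r → Option U := fun i => some (if i = a then wa else if i = b then wb else v i)
    with hg
  set g' : Fin r → Option U := fun i => some (if i = a then v a else if i = b then wb else v i)
    with hg'
  have hcg : ∀ i, c (if i = a then wa else if i = b then wb else v i) = i := by
    intro i
    by_cases h : i = a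
    · simp [h, hwa]
    · by_cases h' : i = b
      · simp [h', hwb, hab.symm]
      · simp [h, h', hv]
  have hcg' : ∀ i, c (if i = a then v a else if i = b then wb else v i) = i := by
    intro i
    by_cases h : i = a
    · simp [h, hv]
    · by_cases h' : i = b
      · simp [h', hwb, hab.symm]
      · simp [h, h', hv]
  have key : ∀ (i : Fin r), (if i = a then wa else if i = b then wb else v i) ≠ v a ∧
      (if i = a then wa else if i = b then wb else v i) ≠ v b := by
    intro i
    by_cases h : i = a
    · rw [if_pos h]; exact ⟨hwa', hwav⟩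
    · rw [if_neg h]
      by_cases h' : i = b
      · rw [if_pos h']; exact ⟨hwbv, hwb'⟩
      · rw [if_neg h']
        exact ⟨fun h'' => h (v_inj hv h''), fun h'' => h' (v_inj hv h'')⟩
  have key' : ∀ (i : Fin r), (if i = a then v a else if i = b then wb else v i) ≠ v b := by
    intro i
    by_cases h : i = a
    · rw [if_pos h]; exact hne
    · rw [if_neg h]
      by_cases h' : i = b
      · rw [if_pos h']; exact hwb'
      · rw [if_neg h']
        exact fun h'' => h' (v_inj hv h'')
  have hgadj : ∀ i j, i ≠ j → (DG c v a b).Adj (g i) (g j) := by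
    intro i j hij
    refine hadj _ _ ?_ (key i).1 (key i).2
    rw [hcg, hcg]; exact hij
  have hgadj' : ∀ i j, i ≠ j → (DG c v a b).Adj (g' i) (g' j) := by
    intro i j hij
    refine ⟨?_, fun h => key' j h.2, fun h => key' i h.1⟩
    rw [hcg', hcg']; exact hij
  have h2 : f (g a) = f (g' a) := by
    refine color_swap hf hgadj hgadj' ?_
    intro i hi
    simp only [hg, hg', hi, if_false]
  have h3 : g a = some wa := by simp [hg]
  have h4 : g' a = some (v a) := by simp [hg']
  rw [h3, h4, h1] at h2
  have : (DG c v a b).Adj (some wa) (some (v b)) :=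
    hadj _ _ (by rw [hwa, hv]; exact hab) hwa' hwav
  exact hf this h2

end MP5532fa
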