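import Pool.Agent.Work.MP_5532fa_co.Turan

/-!
# MP_5532fa_co : final assembly
-/

open Finset

namespace MP5532fa

/-- the size deviations are controlled by the sum of squares -/
theorem dev_of_imb {U : Type*} [Fintype U] {r : ℕ} {c : U → Fin r} {B : ℕ}
    (h : imb (rsz c) ≤ r * (B : ℝ) ^ 2) : ∀ i, |dv (rsz c) i| ≤ ((r * B : ℕ) : ℝ) := by
  intro i
  have h1 : dv (rsz c) i ^ 2 ≤ imb (rsz c) :=
    Finset.single_le_sum (f := fun i => dv (rsz c) i ^ 2) (fun i _ => sq_nonneg _)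
      (Finset.mem_univ i)
  have hr : 1 ≤ r := Nat.succ_le_of_lt (lt_of_le_of_lt (Nat.zero_le _) i.2)
  have hrr : (1:ℝ) ≤ r := by exact_mod_cast hr
  apply abs_le_of_sq_le_sq _ (Nat.cast_nonneg _)
  push_cast
  have h2 : (r : ℝ) * (B : ℝ) ^ 2 ≤ ((r : ℝ) * B) ^ 2 := by
    have : ((r : ℝ) * B) ^ 2 = r * (r * (B : ℝ) ^ 2) := by ring
    rw [this]
    have h3 : 0 ≤ (r : ℝ) * (B : ℝ) ^ 2 := by positivity
    nlinarith
  linarith

theorem sz_diff {U : Type*} [Fintype U] {r : ℕ} {c : U → Fin r} {D : ℕ}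
    (h : ∀ i, |dv (rsz c) i| ≤ (D : ℝ)) : ∀ i j, sz c i ≤ sz c j + 2 * D := by
  intro i j
  have h1 := (abs_le.mp (h i)).2
  have h2 := (abs_le.mp (h j)).1
  unfold dv rsz at h1 h2
  have : (sz c i : ℝ) ≤ (sz c j : ℝ) + 2 * D := by linarith
  exact_mod_cast this

theorem imb_congr {N r : ℕ} (hr : 1 ≤ r) {c c' : Fin N → Fin r}
    (h : ∑ i, sz c' i ^ 2 = ∑ i, sz c i ^ 2) : imb (rsz c') = imb (rsz c) := by
  rw [imb_eq hr, imb_eq hr, sum_rsz, sum_rsz]
  have : ∑ i, rsz c' i ^ 2 = ∑ i, rsz c i ^ 2 := by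
    unfold rsz
    exact_mod_cast h
  rw [this]

theorem sz_large {N r : ℕ} (hr : 1 ≤ r) {c : Fin N → Fin r} {D : ℕ}
    (h : ∀ i, |dv (rsz c) i| ≤ (D : ℝ)) (hN : r * (D + 2) ≤ N) (i : Fin r) : 2 ≤ sz c i := by
  have h1 := (abs_le.mp (h i)).1
  unfold dv at h1
  rw [sum_rsz, Fintype.card_fin] at h1
  have hr0 : (0:ℝ) < r := by exact_mod_cast hr
  have h2 : (D : ℝ) + 2 ≤ (N : ℝ) / r := by
    rw [le_div_iff₀ hr0]
    have : ((r * (D + 2) : ℕ) : ℝ) ≤ (N : ℝ) := by exact_mod_cast hN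
    push_cast at this
    linarith
  have h3 : (2 : ℝ) ≤ (sz c i : ℝ) := by
    have : rsz c i = (sz c i : ℝ) := rfl
    linarith
  exact_mod_cast h3

theorem exists_rep {U : Type*} [Fintype U] {r : ℕ} {c : U → Fin r} (h : ∀ i, 1 ≤ sz c i) :
    ∃ v : Fin r → U, ∀ i, c (v i) = i := by
  classical
  have h1 : ∀ i, ∃ u, c u = i := by
    intro i
    have := h i
    rw [sz_eq] at this
    obtain ⟨u, hu⟩ := Finset.card_pos.mp this
    exact ⟨u, (Finset.mem_filter.mp hu).2⟩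
  choose v hv using h1
  exact ⟨v, hv⟩

theorem exists_other {U : Type*} [Fintype U] {r : ℕ} {c : U → Fin r} {i : Fin r}
    (h : 2 ≤ sz c i) (u : U) : ∃ w, c w = i ∧ w ≠ u := by
  classical
  rw [sz_eq] at h
  by_contra hno
  push Not at hno
  have : (univ.filter (fun w => c w = i)) ⊆ {u} := by
    intro w hw
    rw [Finset.mem_singleton]
    exact hno w (Finset.mem_filter.mp hw).2
  have := Finset.card_le_card this
  rw [Finset.card_singleton] at this
  omega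

theorem DG_not_col {U : Type*} [Fintype U] {r : ℕ} {c : U → Fin r} {v : Fin r → U}
    {a b : Fin r} (hv : ∀ i, c (v i) = i) (hab : a ≠ b) (h : ∀ i, 2 ≤ sz c i) :
    ¬ (DG c v a b).Colorable r := by
  obtain ⟨wa, h1, h2⟩ := exists_other (h a) (v a)
  obtain ⟨wb, h3, h4⟩ := exists_other (h b) (v b)
  exact DG_not_colorable hv hab h1 h3 h2 h4

theorem sq_sum_of_bal {N r : ℕ} (hr : 0 < r) {c : Fin N → Fin r}
    (h : ∀ i j, sz c i ≤ sz c j + 1) :
    ∑ i, sz c i ^ 2 = ∑ i, sz (cT r N hr) i ^ 2 := by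
  classical
  have key : ∀ (d : Fin N → Fin r), (∀ i j, sz d i ≤ sz d j + 1) →
      ∑ i, ((sz d i : ℤ)) ^ 2 = (2 * (N / r : ℕ) + 1) * N - r * ((N / r : ℕ) * ((N / r : ℕ) + 1)) := by
    intro d hd
    have hne : (univ : Finset (Fin r)).Nonempty := ⟨⟨0, hr⟩, Finset.mem_univ _⟩
    obtain ⟨i0, _, hmin⟩ := Finset.exists_min_image univ (fun i => sz d i) hne
    set k := sz d i0 with hk
    have hval : ∀ i, sz d i = k ∨ sz d i = k + 1 := by
      intro i
      have h1 := hmin i (Finset.mem_univ _)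
      have h2 := hd i i0
      omega
    have hsum : ∑ i, sz d i = N := by rw [sum_sz, Fintype.card_fin]
    have hlow : r * k ≤ N := by
      rw [← hsum]
      have : ∑ i : Fin r, k ≤ ∑ i, sz d i := Finset.sum_le_sum fun i _ => hmin i (Finset.mem_univ _)
      simpa using this
    have hup : N < r * (k + 1) := by
      rw [← hsum]
      have : ∑ i, sz d i < ∑ i : Fin r, (k + 1) := by
        refine Finset.sum_lt_sum (fun i _ => ?_) ⟨i0, Finset.mem_univ _, ?_⟩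
        · rcases hval i with h | h <;> omega
        · omega
      simpa using this
    have hNr : N / r = k := by
      apply Nat.div_eq_of_lt_le
      · rw [mul_comm]; exact hlow
      · rw [mul_comm]; exact hup
    rw [hNr]
    have e : ∀ i, ((sz d i : ℤ)) ^ 2 = (2 * k + 1) * sz d i - k * (k + 1) := by
      intro i
      rcases hval i with h | h
      · rw [h]; ring
      · rw [h]; push_cast; ring
    simp only [e, Finset.sum_sub_distrib, ← Finset.mul_sum]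
    have e1 : ∑ i, (sz d i : ℤ) = N := by exact_mod_cast hsum
    rw [e1]
    simp
    ring
  have h1 := key c h
  have h2 := key (cT r N hr) (cT_bal hr)
  have h3 : ∑ i, (sz c i : ℤ) ^ 2 = ∑ i, (sz (cT r N hr) i : ℤ) ^ 2 := by rw [h1, h2]
  exact_mod_cast h3

theorem final_thm.{u} (r : ℕ) (hr : 3 ≤ r) (B : ℕ) : ∃ N0 : ℕ, ∀ N ≥ N0,
    ∀ c : Fin N → Fin r, (∀ i j, sz c i ≤ sz c j + B) →
    ∀ {V : Type u} [Fintype V] (G : SimpleGraph V), G.CliqueFree (r + 1) → ¬ G.Colorable r →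
      pE G = (N : ℝ) ^ 2 - ∑ i, (sz c i : ℝ) ^ 2 + 2 * r - 2 →
      ∃ (c' : Fin N → Fin r) (v : Fin r → Fin N) (a b : Fin r),
        (∀ i, c' (v i) = i) ∧ a ≠ b ∧ TopPair c' a b ∧
        (∑ i, sz c' i ^ 2 = ∑ i, sz c i ^ 2) ∧ (∀ i, 2 ≤ sz c' i) ∧
        pE (DG c' v a b) = pE G ∧
        specRad G ≤ specRad (DG c' v a b) ∧
        (specRad G = specRad (DG c' v a b) ↔ UpToIsolated G (DG c' v a b)) := by
  classical
  obtain ⟨q, rfl⟩ : ∃ q, r = q + 1 := ⟨r - 1, by omega⟩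
  have hq : 2 ≤ q := by omega
  obtain ⟨N1, hN1⟩ := structure_thm.{u} q hq B
  set D := (q + 1) * B with hD
  obtain ⟨N2, hN2⟩ := exists_nat_gt (kS (q + 1) (2 * D))
  refine ⟨N1 + N2 + (q + 1) * (D + 2), ?_⟩
  intro N hN c hB V _ G hfree hcol hedge
  have hNa : N ≥ N1 := by omega
  have hNb : kS (q + 1) (2 * D) ≤ (Fintype.card (Fin N) : ℝ) := by
    rw [Fintype.card_fin]
    have : (N2 : ℝ) ≤ (N : ℝ) := by
      have : N2 ≤ N := by omega
      exact_mod_cast this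
    linarith
  have hNc : (q + 1) * (D + 2) ≤ N := by omega
  have hr1 : 1 ≤ q + 1 := by omega
  have hdv0 : ∀ j, |dv (rsz c) j| ≤ (B : ℝ) := fun j => dv_le hr1 hB j
  have himb : imb (rsz c) ≤ ((q + 1 : ℕ) : ℝ) * (B : ℝ) ^ 2 := imb_le hdv0
  -- facts for all `c'` with the same sum of squares
  have hall : ∀ c' : Fin N → Fin (q + 1), (∑ i, sz c' i ^ 2 = ∑ i, sz c i ^ 2) →
      (∀ i j, sz c' i ≤ sz c' j + 2 * D) ∧ (∀ i, 2 ≤ sz c' i) := by
    intro c' hc'
    have h1 : imb (rsz c') ≤ ((q + 1 : ℕ) : ℝ) * (B : ℝ) ^ 2 := by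
      rw [imb_congr hr1 hc']; exact himb
    have h2 := dev_of_imb h1
    exact ⟨sz_diff h2, sz_large hr1 h2 hNc⟩
  have hpE : ∀ (c' : Fin N → Fin (q + 1)), (∑ i, sz c' i ^ 2 = ∑ i, sz c i ^ 2) →
      ∀ (v : Fin (q + 1) → Fin N) (a b : Fin (q + 1)), (∀ i, c' (v i) = i) → a ≠ b →
      pE (DG c' v a b) = pE G := by
    intro c' hc' v a b hv hab
    rw [pE_DG hv hab, hedge, Fintype.card_fin]
    have : ∑ i, (sz c' i : ℝ) ^ 2 = ∑ i, (sz c i : ℝ) ^ 2 := by exact_mod_cast hc'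
    rw [this]
  have : Nonempty (Option (Fin N)) := ⟨none⟩
  -- a reference graph
  obtain ⟨hcd, hc2⟩ := hall c rfl
  obtain ⟨v, hv⟩ := exists_rep (c := c) (fun i => by have := hc2 i; omega)
  have h01 : (⟨0, by omega⟩ : Fin (q + 1)) ≠ ⟨1, by omega⟩ := by
    intro h
    have := congrArg Fin.val h
    simp at this
  obtain ⟨a, b, hab, htop⟩ : ∃ a b : Fin (q + 1), a ≠ b ∧ TopPair c a b := by
    rcases exists_top hr hv h01 hcd hNb with h | ⟨a, b, h1, h2, _⟩
    · exact ⟨_, _, h01, h⟩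
    · exact ⟨a, b, h1, h2⟩
  by_cases hcase : specRad (DG c v a b) ≤ specRad G
  · obtain ⟨c1, v1, a1, b1, hv1, hab1, hsq1, hup1⟩ := hN1 N hNa c v a b hv hab hB G hfree hcol
      (hpE c rfl v a b hv hab).symm hcase
    have heq := specRad_of_upTo hup1
    obtain ⟨hd1, hs1⟩ := hall c1 hsq1
    rcases exists_top hr hv1 hab1 hd1 hNb with h | ⟨a2, b2, hab2, htop2, hlt⟩
    · exact ⟨c1, v1, a1, b1, hv1, hab1, h, hsq1, hs1, hpE c1 hsq1 v1 a1 b1 hv1 hab1, heq.le,
        ⟨fun _ => hup1, fun _ => heq⟩⟩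
    · refine ⟨c1, v1, a2, b2, hv1, hab2, htop2, hsq1, hs1, hpE c1 hsq1 v1 a2 b2 hv1 hab2, ?_, ?_⟩
      · rw [heq]; exact hlt.le
      · constructor
        · intro h; rw [heq] at h; exact absurd h hlt.ne
        · intro h; exact specRad_of_upTo h
  · push Not at hcase
    refine ⟨c, v, a, b, hv, hab, htop, rfl, hc2, hpE c rfl v a b hv hab, hcase.le, ?_⟩
    constructor
    · intro h; exact absurd h hcase.ne
    · intro h; exact specRad_of_upTo h

/-- in the balanced case all top defect graphs are isomorphic -/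
theorem balanced_iso {N r : ℕ} (hr : 3 ≤ r) (hNr : r ≤ N) {c c' : Fin N → Fin r}
    (hbal : ∀ i j, sz c i ≤ sz c j + 1) (hsq : ∑ i, sz c' i ^ 2 = ∑ i, sz c i ^ 2)
    {v : Fin r → Fin N} {a b : Fin r} (hv : ∀ i, c' (v i) = i) (hab : a ≠ b)
    (htop : TopPair c' a b) :
    Nonempty (DG c' v a b ≃g DG (cT r N (by omega)) (vT r N hNr) ⟨0, by omega⟩ ⟨1, by omega⟩) := by
  have hr0 : 0 < r := by omega
  obtain ⟨π, hπ⟩ := balanced_of_sq hr0 (fun i => sz c' i)
    (by rw [sum_sz, Fintype.card_fin]) (by rw [hsq, sq_sum_of_bal hr0 hbal])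
  refine DG_iso_top (cT_vT hr0 hNr) hv ?_ hab (cT_top hr0 _ _ rfl rfl) htop π hπ
  intro h
  have := congrArg Fin.val h
  simp at this

/-- sharpness of the bound -/
theorem sharp_thm {r k : ℕ} (hr : 3 ≤ r) (hk : 2 ≤ k) (hN : r ≤ r * k) :
    pE (DG (cT r (r * k) (by omega)) (vT r (r * k) hN) ⟨0, by omega⟩ ⟨1, by omega⟩)
        = 2 * ((r.choose 2 : ℝ) * (k : ℝ) ^ 2 + (r - 1)) ∧
      2 * (1 - 1 / (r : ℝ)) * (((r.choose 2 : ℝ) * (k : ℝ) ^ 2 + (r - 1)) - (r + 1))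
        ≤ specRad (DG (cT r (r * k) (by omega)) (vT r (r * k) hN) ⟨0, by omega⟩ ⟨1, by omega⟩) ^ 2
      := by
  classical
  have hr0 : 0 < r := by omega
  have h01 : (⟨0, by omega⟩ : Fin r) ≠ ⟨1, by omega⟩ := by
    intro h
    have := congrArg Fin.val h
    simp at this
  have hv := cT_vT hr0 hN
  have hsz : ∀ i, sz (cT r (r * k) hr0) i = k := by
    intro i
    rw [sz_cT, Nat.mul_mod_right, Nat.mul_div_cancel_left _ hr0]
    simp
  have hrr : (3:ℝ) ≤ r := by exact_mod_cast hr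
  have hkk : (2:ℝ) ≤ k := by exact_mod_cast hk
  have hch : (r.choose 2 : ℝ) = r * (r - 1) / 2 := by
    rw [Nat.cast_choose_two]
  constructor
  · rw [pE_DG hv h01, Fintype.card_fin]
    simp only [hsz, Finset.sum_const, Finset.card_univ, Fintype.card_fin, nsmul_eq_mul]
    rw [hch]
    push_cast
    ring
  · set G := DG (cT r (r * k) hr0) (vT r (r * k) hN) ⟨0, by omega⟩ ⟨1, by omega⟩ with hG
    have : Nonempty (Option (Fin (r * k))) := ⟨none⟩
    set z : Option (Fin (r * k)) → ℝ := fun y => match y with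
      | none => 0
      | some _ => 1 with hz
    have hq := qf_DG (c := cT r (r * k) hr0) (v := vT r (r * k) hN) hv h01 z
    have e0 : ∀ w, z (some w) = 1 := fun w => rfl
    have e00 : z none = 0 := rfl
    have hcs : ∀ i, cs (cT r (r * k) hr0) (fun _ => (1:ℝ)) i = k := by
      intro i
      have := cs_const (cT r (r * k) hr0) (fun _ => 1) i
      rw [hsz, mul_one] at this
      exact this
    simp only [e0, e00, hcs, Finset.sum_const, Finset.card_univ, Fintype.card_fin,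
      nsmul_eq_mul, mul_one] at hq
    have hray := qf_le G z
    rw [Fintype.sum_option] at hray
    simp only [e0, e00, Finset.sum_const, Finset.card_univ, Fintype.card_fin, nsmul_eq_mul] at hray
    have hq' : qf G z = (r : ℝ) * k * ((r - 1) * k) - 2 := by
      rw [hG, hq]; push_cast; ring
    rw [hq'] at hray
    push_cast at hray
    set lam := specRad G with hlam
    have hlam0 : 0 ≤ lam := specRad_nonneg G
    have h1 : (r : ℝ) * k * ((r - 1) * k) - 2 ≤ lam * (r * k) := by linarith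
    have hrk : 0 < (r : ℝ) * k := by positivity
    have hpos : 0 ≤ (r : ℝ) * k * ((r - 1) * k) - 2 := by nlinarith
    have h2 : ((r : ℝ) * k * ((r - 1) * k) - 2) ^ 2 ≤ (lam * (r * k)) ^ 2 :=
      pow_le_pow_left₀ hpos h1 2
    have h3 : 2 * (1 - 1 / (r : ℝ)) * (((r.choose 2 : ℝ) * (k : ℝ) ^ 2 + (r - 1)) - (r + 1))
        * (r * k) ^ 2 ≤ ((r : ℝ) * k * ((r - 1) * k) - 2) ^ 2 := by
      rw [hch]
      have e : 2 * (1 - 1 / (r : ℝ)) * (((r : ℝ) * (r - 1) / 2 * (k : ℝ) ^ 2 + (r - 1)) - (r + 1))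
          * (r * k) ^ 2 = ((r : ℝ) * k * ((r - 1) * k)) ^ 2 - 4 * ((r : ℝ) * k * ((r - 1) * k)) := by
        field_simp
        ring
      rw [e]
      nlinarith
    have h4 : (lam * (r * k)) ^ 2 = lam ^ 2 * (r * k) ^ 2 := by ring
    rw [h4] at h2
    have h5 : 0 < ((r : ℝ) * k) ^ 2 := by positivity
    exact le_of_mul_le_mul_right (h3.trans h2) h5

end MP5532fa
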