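import Pool.Agent.Work.MP_5532fa_co.DG

/-!
# MP_5532fa_co : graphs up to isolated vertices, isomorphisms of the defect graphs
-/

open Finset

namespace MP5532fa

/-- `G` is isomorphic to `D` together with isolated vertices. -/
def UpToIsolated {V W : Type*} (G : SimpleGraph V) (D : SimpleGraph W) : Prop :=
  ∃ f : D ↪g G, ∀ v, v ∉ Set.range f → ∀ w, ¬ G.Adj v w

theorem UpToIsolated.trans_iso {V W W' : Type*} {G : SimpleGraph V} {D : SimpleGraph W}
    {D' : SimpleGraph W'} (h : UpToIsolated G D) (e : D' ≃g D) : UpToIsolated G D' := by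
  obtain ⟨f, hf⟩ := h
  refine ⟨e.toEmbedding.trans f, ?_⟩
  intro v hv w
  apply hf v
  rintro ⟨u, rfl⟩
  apply hv
  exact ⟨e.symm u, by simp⟩

theorem specRad_of_upTo {V W : Type*} [Fintype V] [Fintype W] [Nonempty W]
    {G : SimpleGraph V} {D : SimpleGraph W} (h : UpToIsolated G D) : specRad G = specRad D := by
  classical
  obtain ⟨f, hf⟩ := h
  have hinj : Function.Injective f := f.injective
  have : Nonempty V := ⟨f (Classical.arbitrary W)⟩
  have hadj : ∀ a b, G.Adj (f a) (f b) ↔ D.Adj a b := fun a b => f.map_adj_iff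
  -- transfer of the form
  have hqf : ∀ x : V → ℝ, qf G x = qf D (fun w => x (f w)) := by
    intro x
    unfold qf
    have h1 : ∀ u, (∑ v, if G.Adj u v then x u * x v else 0)
        = ∑ w, if G.Adj u (f w) then x u * x (f w) else 0 := by
      intro u
      rw [← Finset.sum_image (f := fun v => if G.Adj u v then x u * x v else 0) (g := f)
        (s := univ) (fun a _ b _ h => hinj h)]
      symm
      refine Finset.sum_subset (Finset.subset_univ _) ?_
      intro v _ hv
      have : v ∉ Set.range f := by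
        rintro ⟨w, rfl⟩
        exact hv (Finset.mem_image.mpr ⟨w, Finset.mem_univ _, rfl⟩)
      rw [if_neg (fun h => hf v this u h.symm)]
    simp only [h1]
    rw [← Finset.sum_subset (Finset.subset_univ (univ.image f))]
    · rw [Finset.sum_image (fun a _ b _ h => hinj h)]
      simp only [hadj]
    · intro v _ hv
      have : v ∉ Set.range f := by
        rintro ⟨w, rfl⟩
        exact hv (Finset.mem_image.mpr ⟨w, Finset.mem_univ _, rfl⟩)
      refine Finset.sum_eq_zero fun w _ => ?_
      rw [if_neg (hf v this _)]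
  apply le_antisymm
  · obtain ⟨x, hx0, hx1, heig, _⟩ := perron G
    have h1 : qf G x = specRad G := by rw [qf_eq_of_eig heig, hx1, mul_one]
    rw [← h1, hqf]
    have h2 := qf_le D (fun w => x (f w))
    have h3 : ∑ w, x (f w) ^ 2 ≤ 1 := by
      rw [← hx1, ← Finset.sum_image (f := fun v => x v ^ 2) (g := f) (s := univ)
        (fun a _ b _ h => hinj h)]
      exact Finset.sum_le_sum_of_subset_of_nonneg (Finset.subset_univ _) fun u _ _ => sq_nonneg _
    have h4 := specRad_nonneg D
    nlinarith
  · obtain ⟨y, hy0, hy1, heig, _⟩ := perron D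
    have h1 : qf D y = specRad D := by rw [qf_eq_of_eig heig, hy1, mul_one]
    set x : V → ℝ := fun v => if h : ∃ w, f w = v then y h.choose else 0 with hx
    have hxf : ∀ w, x (f w) = y w := by
      intro w
      have h : ∃ w', f w' = f w := ⟨w, rfl⟩
      rw [hx]
      simp only [h, dif_pos]
      congr 1
      exact hinj h.choose_spec
    have h2 : qf G x = qf D y := by
      rw [hqf]; congr 1; funext w; exact hxf w
    have h3 : ∑ v, x v ^ 2 = 1 := by
      rw [← hy1, ← Finset.sum_subset (Finset.subset_univ (univ.image f))]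
      · rw [Finset.sum_image (fun a _ b _ h => hinj h)]
        exact Finset.sum_congr rfl fun w _ => by rw [hxf]
      · intro v _ hv
        have : ¬ ∃ w, f w = v := by
          rintro ⟨w, rfl⟩
          exact hv (Finset.mem_image.mpr ⟨w, Finset.mem_univ _, rfl⟩)
        rw [hx]
        simp only [this, dif_neg, not_false_eq_true]
        norm_num
    rw [← h1, ← h2]
    have := qf_le G x
    rw [h3, mul_one] at this
    exact this

theorem pE_of_upTo {V W : Type*} [Fintype V] [Fintype W]
    {G : SimpleGraph V} {D : SimpleGraph W} (h : UpToIsolated G D) : pE G = pE D := by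
  classical
  obtain ⟨f, hf⟩ := h
  have hinj : Function.Injective f := f.injective
  unfold pE
  congr 1
  symm
  refine Finset.card_bij (fun e _ => (f e.1, f e.2)) ?_ ?_ ?_
  · intro e he
    rw [Finset.mem_filter] at he ⊢
    exact ⟨Finset.mem_univ _, f.map_adj_iff.mpr he.2⟩
  · intro a _ b _ h
    have h1 := (Prod.mk.inj h).1
    have h2 := (Prod.mk.inj h).2
    exact Prod.ext (hinj h1) (hinj h2)
  · intro e he
    have hadj := (Finset.mem_filter.mp he).2
    have h1 : e.1 ∈ Set.range f := by
      by_contra h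
      exact hf _ h _ hadj
    have h2 : e.2 ∈ Set.range f := by
      by_contra h
      exact hf _ h _ hadj.symm
    obtain ⟨a, ha⟩ := h1
    obtain ⟨b, hb⟩ := h2
    refine ⟨(a, b), ?_, ?_⟩
    · rw [Finset.mem_filter]
      refine ⟨Finset.mem_univ _, ?_⟩
      rw [← ha, ← hb] at hadj
      exact f.map_adj_iff.mp hadj
    · exact Prod.ext ha hb

/-- An equivalence compatible with the classes and the special vertices gives an isomorphism. -/
def DG_iso_of {U U' : Type*} {r : ℕ} {c : U → Fin r} {c' : U' → Fin r} {v : Fin r → U}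
    {v' : Fin r → U'} (π : Fin r ≃ Fin r) (e : U' ≃ U) (hc : ∀ u, c (e u) = π (c' u))
    (hev : ∀ i, e (v' i) = v (π i)) (a b : Fin r) :
    DG c' v' a b ≃g DG c v (π a) (π b) where
  toEquiv := Equiv.optionCongr e
  map_rel_iff' := by
    intro x y
    match x, y with
    | some u, some w =>
      simp only [Equiv.optionCongr_apply, Option.map_some, DG_some_some, hc, ← hev,
        EmbeddingLike.apply_eq_iff_eq, ne_eq]
    | none, some w =>
      simp only [Equiv.optionCongr_apply, Option.map_some, Option.map_none, DG_none_some]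
      constructor
      · rintro ⟨i, hi⟩
        refine ⟨π.symm i, ?_⟩
        apply e.injective
        rw [hev, Equiv.apply_symm_apply, hi]
      · rintro ⟨i, hi⟩
        exact ⟨π i, by rw [← hev, hi]⟩
    | some w, none =>
      simp only [Equiv.optionCongr_apply, Option.map_some, Option.map_none, DG_some_none]
      constructor
      · rintro ⟨i, hi⟩
        refine ⟨π.symm i, ?_⟩
        apply e.injective
        rw [hev, Equiv.apply_symm_apply, hi]
      · rintro ⟨i, hi⟩
        exact ⟨π i, by rw [← hev, hi]⟩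
    | none, none =>
      simp only [Equiv.optionCongr_apply, Option.map_none]
      exact Iff.rfl

theorem DG_iso_sz {U U' : Type*} [Fintype U] [Fintype U'] {r : ℕ} {c : U → Fin r}
    {c' : U' → Fin r} {v : Fin r → U} {v' : Fin r → U'} (hv : ∀ i, c (v i) = i)
    (hv' : ∀ i, c' (v' i) = i) (π : Fin r ≃ Fin r) (hsz : ∀ i, sz c' i = sz c (π i))
    (a b : Fin r) : Nonempty (DG c' v' a b ≃g DG c v (π a) (π b)) := by
  classical
  have hex : ∀ i, ∃ e : {u // c' u = i} ≃ {u // c u = π i}, e ⟨v' i, hv' i⟩ = ⟨v (π i), hv _⟩ := by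
    intro i
    have h : Fintype.card {u // c' u = i} = Fintype.card {u // c u = π i} := by
      have := hsz i
      unfold sz at this
      rwa [Nat.card_eq_fintype_card, Nat.card_eq_fintype_card] at this
    obtain ⟨e0⟩ := Fintype.card_eq.mp h
    refine ⟨e0.trans (Equiv.swap (e0 ⟨v' i, hv' i⟩) ⟨v (π i), hv _⟩), ?_⟩
    simp
  choose e he using hex
  set E : U' ≃ U := (Equiv.sigmaFiberEquiv c').symm.trans
    ((Equiv.sigmaCongr π e).trans (Equiv.sigmaFiberEquiv c)) with hE
  have hEu : ∀ u, E u = (e (c' u) ⟨u, rfl⟩ : U) := fun u => rfl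
  refine ⟨DG_iso_of π E ?_ ?_ a b⟩
  · intro u
    rw [hEu]
    exact (e (c' u) ⟨u, rfl⟩).2
  · intro i
    rw [hEu]
    have h1 : ∀ (j : Fin r) (hj : c' (v' i) = j), (e j ⟨v' i, hj⟩ : U) = v (π j) → 
        (e (c' (v' i)) ⟨v' i, rfl⟩ : U) = v (π j) := by
      intro j hj h
      subst hj
      exact h
    exact h1 i (hv' i) (by rw [he i])

/-- the two classes `a`, `b` are the largest ones -/
def TopPair {U : Type*} {r : ℕ} (c : U → Fin r) (a b : Fin r) : Prop :=
  ∀ i, i ≠ a → i ≠ b → sz c i ≤ sz c a ∧ sz c i ≤ sz c b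

theorem TopPair.symm {U : Type*} {r : ℕ} {c : U → Fin r} {a b : Fin r} (h : TopPair c a b) :
    TopPair c b a := fun k h1 h2 => ⟨(h k h2 h1).2, (h k h2 h1).1⟩

theorem swap_val {r : ℕ} {g : Fin r → ℕ} {x y : Fin r} (h : g x = g y) (i : Fin r) :
    g (Equiv.swap x y i) = g i := by
  by_cases h1 : i = x
  · subst h1; rw [Equiv.swap_apply_left]; exact h.symm
  · by_cases h2 : i = y
    · subst h2; rw [Equiv.swap_apply_right]; exact h
    · rw [Equiv.swap_apply_of_ne_of_ne h1 h2]

theorem perm_top {r : ℕ} {f g : Fin r → ℕ} {a b z o : Fin r} (hab : a ≠ b) (hzo : z ≠ o)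
    (π0 : Fin r ≃ Fin r) (h0 : ∀ i, f i = g (π0 i))
    (hf : ∀ i, i ≠ a → i ≠ b → f i ≤ f b) (hfab : f b ≤ f a)
    (hg : ∀ i, i ≠ z → i ≠ o → g i ≤ g o) (hgzo : g o ≤ g z) :
    ∃ π : Fin r ≃ Fin r, (∀ i, f i = g (π i)) ∧ π a = z ∧ π b = o := by
  have hfa : ∀ i, f i ≤ f a := by
    intro i
    by_cases h1 : i = a
    · rw [h1]
    · by_cases h2 : i = b
      · rw [h2]; exact hfab
      · exact (hf i h1 h2).trans hfab
  have hgz : ∀ i, g i ≤ g z := by
    intro i
    by_cases h1 : i = z
    · rw [h1]
    · by_cases h2 : i = o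
      · rw [h2]; exact hgzo
      · exact (hg i h1 h2).trans hgzo
  have e1 : g (π0 a) = g z := by
    apply le_antisymm (hgz _)
    have := hfa (π0.symm z)
    rw [h0, h0 a, Equiv.apply_symm_apply] at this
    exact this
  set π1 : Fin r ≃ Fin r := π0.trans (Equiv.swap (π0 a) z) with hπ1
  have h1 : ∀ i, f i = g (π1 i) := by
    intro i
    rw [hπ1, Equiv.trans_apply, swap_val e1, h0]
  have h1a : π1 a = z := by rw [hπ1, Equiv.trans_apply, Equiv.swap_apply_left]
  have h1b : π1 b ≠ z := by
    intro h
    exact hab (π1.injective (h1a.trans h.symm))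
  have e2 : g (π1 b) = g o := by
    apply le_antisymm
    · by_cases h : π1 b = o
      · rw [h]
      · exact hg _ h1b h
    · have hne : π1.symm o ≠ a := by
        intro h
        apply hzo
        rw [← h1a, ← h, Equiv.apply_symm_apply]
      have : f (π1.symm o) ≤ f b := by
        by_cases h : π1.symm o = b
        · rw [h]
        · exact hf _ hne h
      rw [h1, h1 b, Equiv.apply_symm_apply] at this
      exact this
  refine ⟨π1.trans (Equiv.swap (π1 b) o), ?_, ?_, ?_⟩
  · intro i
    rw [Equiv.trans_apply, swap_val e2, h1]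
  · rw [Equiv.trans_apply, h1a, Equiv.swap_apply_of_ne_of_ne (Ne.symm h1b) hzo]
  · rw [Equiv.trans_apply, Equiv.swap_apply_left]

/-- the defect graphs with equinumerous classes and top pairs are isomorphic -/
theorem DG_iso_top {U U' : Type*} [Fintype U] [Fintype U'] {r : ℕ} {c : U → Fin r}
    {c' : U' → Fin r} {v : Fin r → U} {v' : Fin r → U'} {a b a' b' : Fin r}
    (hv : ∀ i, c (v i) = i) (hv' : ∀ i, c' (v' i) = i) (hab : a ≠ b) (hab' : a' ≠ b')
    (ht : TopPair c a b) (ht' : TopPair c' a' b') (π0 : Fin r ≃ Fin r)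
    (h0 : ∀ i, sz c' i = sz c (π0 i)) : Nonempty (DG c' v' a' b' ≃g DG c v a b) := by
  -- reduce to ordered pairs
  have main : ∀ {a b a' b' : Fin r}, a ≠ b → a' ≠ b' → TopPair c a b → TopPair c' a' b' →
      sz c b ≤ sz c a → sz c' b' ≤ sz c' a' → Nonempty (DG c' v' a' b' ≃g DG c v a b) := by
    intro a b a' b' hab hab' ht ht' h1 h2
    obtain ⟨π, hπ, ha, hb⟩ := perm_top (f := fun i => sz c' i) (g := fun i => sz c i) hab' hab π0 h0
      (fun i h h' => (ht' i h h').2) h2 (fun i h h' => (ht i h h').2) h1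
    have := DG_iso_sz (v := v) (v' := v') hv hv' π hπ a' b'
    rw [ha, hb] at this
    exact this
  rcases le_total (sz c b) (sz c a) with h1 | h1
  · rcases le_total (sz c' b') (sz c' a') with h2 | h2
    · exact main hab hab' ht ht' h1 h2
    · rw [DG_comm (c := c')]
      exact main hab hab'.symm ht ht'.symm h1 h2
  · rw [DG_comm (c := c)]
    rcases le_total (sz c' b') (sz c' a') with h2 | h2
    · exact main hab.symm hab' ht.symm ht' h1 h2
    · rw [DG_comm (c := c')]
      exact main hab.symm hab'.symm ht.symm ht'.symm h1 h2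

end MP5532fa
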