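import Pool.Agent.Work.MP_5532fa_co.DG

/-!
# MP_5532fa_co : lower bound for the spectral radius of the defect graphs
-/

open Finset

namespace MP5532fa

/-- `α = 1 - 1/r` -/
noncomputable def alp (r : ℕ) : ℝ := 1 - 1 / (r : ℝ)

/-- deviations from the mean -/
noncomputable def dv {r : ℕ} (n : Fin r → ℝ) (i : Fin r) : ℝ := n i - (∑ j, n j) / r

/-- sum of the squared deviations -/
noncomputable def imb {r : ℕ} (n : Fin r → ℝ) : ℝ := ∑ i, dv n i ^ 2

/-- the approximate Perron vector -/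
noncomputable def zz {r : ℕ} (n : Fin r → ℝ) (i : Fin r) : ℝ := (∑ j, n j) / ((∑ j, n j) + dv n i)

/-- the correction -/
noncomputable def rho {r : ℕ} (n : Fin r → ℝ) : ℝ :=
  alp r * ∑ j, dv n j ^ 2 / ((∑ j, n j) + dv n j)

section

variable {r : ℕ} (hr : 1 ≤ r) {n : Fin r → ℝ} {N B : ℝ} (hN : ∑ j, n j = N)
  (hB : ∀ i, |dv n i| ≤ B) (hBN : B < N)

include hr in
theorem alp_nonneg : 0 ≤ alp r := by
  unfold alp
  have : (1:ℝ) ≤ r := by exact_mod_cast hr
  have : 1 / (r : ℝ) ≤ 1 := by rw [div_le_one (by linarith)]; exact this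
  linarith

theorem alp_le : alp r ≤ 1 := by
  unfold alp
  have : (0:ℝ) ≤ 1 / (r : ℝ) := by positivity
  linarith

include hr in
theorem sum_dv : ∑ i, dv n i = 0 := by
  unfold dv
  rw [Finset.sum_sub_distrib]
  simp only [Finset.sum_const, Finset.card_univ, Fintype.card_fin, nsmul_eq_mul]
  have : (r : ℝ) ≠ 0 := by positivity
  field_simp
  ring

include hr in
theorem imb_eq : imb n = ∑ i, n i ^ 2 - (∑ j, n j) ^ 2 / r := by
  have hr0 : (r : ℝ) ≠ 0 := by positivity
  have e : ∀ i, dv n i ^ 2 = n i ^ 2 - 2 * ((∑ j, n j) / r) * n i + ((∑ j, n j) / r) ^ 2 := by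
    intro i; unfold dv; ring
  unfold imb
  simp only [e, Finset.sum_add_distrib, Finset.sum_sub_distrib, ← Finset.mul_sum]
  simp only [Finset.sum_const, Finset.card_univ, Fintype.card_fin, nsmul_eq_mul]
  field_simp
  ring

theorem imb_nonneg : 0 ≤ imb n := Finset.sum_nonneg fun _ _ => sq_nonneg _

include hB in
theorem imb_le : imb n ≤ r * B ^ 2 := by
  unfold imb
  have : ∑ i : Fin r, dv n i ^ 2 ≤ ∑ i : Fin r, B ^ 2 := by
    refine Finset.sum_le_sum fun i _ => ?_
    rw [← sq_abs]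
    exact pow_le_pow_left₀ (abs_nonneg _) (hB i) 2
  simpa using this

include hN hB hBN in
theorem nd_pos (i : Fin r) : 0 < N + dv n i := by
  have := (abs_le.mp (hB i)).1
  linarith

include hr hN hB hBN in
theorem n_zz (i : Fin r) : n i * zz n i = N - alp r * N * zz n i := by
  have h := nd_pos hN hB hBN i
  have hr0 : (r : ℝ) ≠ 0 := by positivity
  have e : n i = (N + dv n i) - alp r * N := by
    unfold dv alp
    rw [hN]
    field_simp
    ring
  unfold zz
  rw [hN]
  have h' : N + dv n i ≠ 0 := h.ne'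
  calc n i * (N / (N + dv n i)) = ((N + dv n i) - alp r * N) * (N / (N + dv n i)) := by rw [← e]
    _ = N - alp r * N * (N / (N + dv n i)) := by
      field_simp

include hN hB hBN in
theorem zz_pos (i : Fin r) (hN0 : 0 < N) : 0 < zz n i := by
  unfold zz
  rw [hN]
  exact div_pos hN0 (nd_pos hN hB hBN i)

include hr hN hB hBN in
theorem sum_zz (hN0 : 0 < N) : alp r * N * ∑ i, zz n i = alp r * r * N + rho n := by
  have e : ∀ i, N * zz n i = N - dv n i + dv n i ^ 2 / (N + dv n i) := by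
    intro i
    have h := nd_pos hN hB hBN i
    unfold zz
    rw [hN]
    field_simp
    ring
  have h1 : N * ∑ i, zz n i = r * N + ∑ j, dv n j ^ 2 / (N + dv n j) := by
    rw [Finset.mul_sum]
    simp only [e, Finset.sum_add_distrib, Finset.sum_sub_distrib, sum_dv hr]
    simp
  unfold rho
  rw [hN, mul_assoc, h1]
  ring

include hr hN hB hBN in
theorem sum_n_zz (hN0 : 0 < N) : ∑ i, n i * zz n i = N - rho n := by
  simp only [n_zz hr hN hB hBN, Finset.sum_sub_distrib, ← Finset.mul_sum]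
  rw [sum_zz hr hN hB hBN hN0]
  simp only [Finset.sum_const, Finset.card_univ, Fintype.card_fin, nsmul_eq_mul]
  have hr0 : (r : ℝ) ≠ 0 := by positivity
  unfold alp
  field_simp
  ring

include hr hN hB hBN in
theorem rho_nonneg : 0 ≤ rho n := by
  unfold rho
  rw [hN]
  refine mul_nonneg (alp_nonneg hr) (Finset.sum_nonneg fun j _ => ?_)
  exact div_nonneg (sq_nonneg _) (nd_pos hN hB hBN j).le

include hr hN hB hBN in
theorem rho_le : rho n * (N - B) ≤ alp r * imb n := by
  unfold rho imb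
  rw [hN, mul_assoc, Finset.sum_mul]
  refine mul_le_mul_of_nonneg_left (Finset.sum_le_sum fun j _ => ?_) (alp_nonneg hr)
  have h := nd_pos hN hB hBN j
  have h2 := (abs_le.mp (hB j)).1
  rw [div_mul_eq_mul_div, div_le_iff₀ h]
  exact mul_le_mul_of_nonneg_left (by linarith) (sq_nonneg _)

include hr hN hB hBN in
theorem rho_ge : alp r * imb n ≤ rho n * (N + B) := by
  unfold rho imb
  rw [hN, mul_assoc, Finset.sum_mul]
  refine mul_le_mul_of_nonneg_left (Finset.sum_le_sum fun j _ => ?_) (alp_nonneg hr)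
  have h := nd_pos hN hB hBN j
  have h2 := (abs_le.mp (hB j)).2
  rw [div_mul_eq_mul_div, le_div_iff₀ h]
  exact mul_le_mul_of_nonneg_left (by linarith) (sq_nonneg _)

end

/-- real class sizes -/
noncomputable def rsz {U : Type*} [Fintype U] {r : ℕ} (c : U → Fin r) (i : Fin r) : ℝ := sz c i

theorem sum_rsz {U : Type*} [Fintype U] {r : ℕ} (c : U → Fin r) :
    ∑ i, rsz c i = Fintype.card U := by
  unfold rsz
  rw [← sum_sz c]
  push_cast
  rfl

theorem dv_le {U : Type*} [Fintype U] {r : ℕ} (hr : 1 ≤ r) {c : U → Fin r} {B : ℕ}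
    (h : ∀ i j, sz c i ≤ sz c j + B) (i : Fin r) : |dv (rsz c) i| ≤ B := by
  have hr0 : (0 : ℝ) < (r : ℝ) := by positivity
  have e : (r : ℝ) * dv (rsz c) i = ∑ j, (rsz c i - rsz c j) := by
    unfold dv
    rw [Finset.sum_sub_distrib]
    simp only [Finset.sum_const, Finset.card_univ, Fintype.card_fin, nsmul_eq_mul]
    field_simp
  have h1 : |(r : ℝ) * dv (rsz c) i| ≤ r * B := by
    rw [e]
    refine (Finset.abs_sum_le_sum_abs _ _).trans ?_
    have : ∑ j : Fin r, |rsz c i - rsz c j| ≤ ∑ j : Fin r, (B : ℝ) := by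
      refine Finset.sum_le_sum fun j _ => ?_
      have h1 : rsz c i ≤ rsz c j + B := by unfold rsz; exact_mod_cast h i j
      have h2 : rsz c j ≤ rsz c i + B := by unfold rsz; exact_mod_cast h j i
      rw [abs_le]
      constructor <;> linarith
    simpa using this
  rw [abs_mul, abs_of_pos hr0] at h1
  exact le_of_mul_le_mul_left h1 hr0

theorem one_add_mul_le {a b u w e : ℝ} (ha : a ≤ 1 + u * e) (hb : b ≤ 1 + w * e) (hb0 : 0 ≤ b)
    (hu : 0 ≤ u) (hw : 0 ≤ w) (he : 0 ≤ e) (he1 : e ≤ 1) :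
    a * b ≤ 1 + (u + w + u * w) * e := by
  have h1 : a * b ≤ (1 + u * e) * (1 + w * e) := mul_le_mul ha hb hb0 (by positivity)
  have h2 : u * w * (e * e) ≤ u * w * e := by
    apply mul_le_mul_of_nonneg_left _ (by positivity)
    nlinarith
  nlinarith

/-- the constant in the lower bound -/
noncomputable def C1 (r : ℕ) (B : ℝ) : ℝ :=
  (r * B ^ 2 + 2) * ((4 * B + 4 * B ^ 2) + 4 * (r * B ^ 2) + (4 * B + 4 * B ^ 2) * (4 * (r * B ^ 2)))

theorem C1_nonneg {r : ℕ} {B : ℝ} (hB : 0 ≤ B) : 0 ≤ C1 r B := by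
  unfold C1; positivity

/-- Lower bound for the spectral radius of a defect graph. -/
theorem specRad_DG_ge {U : Type*} [Fintype U] {r : ℕ} (hr : 2 ≤ r) {c : U → Fin r}
    {v : Fin r → U} {a b : Fin r} (hv : ∀ i, c (v i) = i) (hab : a ≠ b) {B : ℝ} (hB0 : 0 ≤ B)
    (hB : ∀ i, |dv (rsz c) i| ≤ B)
    (hbig : 2 * B + 4 * (r * B ^ 2) + 2 ≤ (Fintype.card U : ℝ)) :
    alp r * (Fintype.card U : ℝ) - (alp r * imb (rsz c) + 2) / (Fintype.card U : ℝ)
      - C1 r B / (Fintype.card U : ℝ) ^ 2 ≤ specRad (DG c v a b) := by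
  classical
  set N : ℝ := (Fintype.card U : ℝ) with hNdef
  have hN : ∑ j, rsz c j = N := sum_rsz c
  have hr1 : 1 ≤ r := by omega
  have hrB : 0 ≤ r * B ^ 2 := by positivity
  have hN0 : 0 < N := by linarith
  have hN1 : 1 ≤ N := by linarith
  have hBN : B < N := by linarith
  set al := alp r with hal
  have hal0 : 0 ≤ al := alp_nonneg hr1
  have hal1 : al ≤ 1 := alp_le
  set I := imb (rsz c) with hI
  have hI0 : 0 ≤ I := imb_nonneg
  have hIle : I ≤ r * B ^ 2 := imb_le hB
  set ρ := rho (rsz c) with hρ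
  have hρ0 : 0 ≤ ρ := rho_nonneg hr1 hN hB hBN
  have hρ1 : ρ * (N - B) ≤ al * I := rho_le hr1 hN hB hBN
  set zt : Option U → ℝ := fun y => match y with
    | none => 0
    | some u => zz (rsz c) (c u) with hzt
  have hq := qf_DG (c := c) (v := v) (a := a) (b := b) hv hab zt
  have e0 : ∀ w, zt (some w) = zz (rsz c) (c w) := fun w => rfl
  have e00 : zt none = 0 := rfl
  simp only [e0, e00] at hq
  have e1 : ∀ i, cs c (fun w => zz (rsz c) (c w)) i = rsz c i * zz (rsz c) i :=
    fun i => cs_const c (zz (rsz c)) i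
  have e2 : ∑ w, zz (rsz c) (c w) = N - ρ := by
    rw [← sum_cs c (fun w => zz (rsz c) (c w))]
    simp only [e1]
    exact sum_n_zz hr1 hN hB hBN hN0
  set Z2 : ℝ := ∑ w, zz (rsz c) (c w) ^ 2 with hZ2
  have e3 : Z2 = ∑ i, rsz c i * zz (rsz c) i ^ 2 := by
    rw [hZ2, ← sum_cs c (fun w => zz (rsz c) (c w) ^ 2)]
    exact Finset.sum_congr rfl fun i _ => cs_const c (fun i => zz (rsz c) i ^ 2) i
  have e4 : ∑ i, (rsz c i * zz (rsz c) i) ^ 2 = N * (N - ρ) - al * N * Z2 := by
    have : ∀ i, (rsz c i * zz (rsz c) i) ^ 2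
        = N * (rsz c i * zz (rsz c) i) - al * N * (rsz c i * zz (rsz c) i ^ 2) := by
      intro i
      have h := n_zz hr1 hN hB hBN i
      calc (rsz c i * zz (rsz c) i) ^ 2
          = (rsz c i * zz (rsz c) i) * (rsz c i * zz (rsz c) i) := by ring
        _ = (rsz c i * zz (rsz c) i) * (N - alp r * N * zz (rsz c) i) := by rw [← h]
        _ = _ := by rw [hal]; ring
    simp only [this, Finset.sum_sub_distrib, ← Finset.mul_sum]
    rw [sum_n_zz hr1 hN hB hBN hN0, ← e3]
  simp only [e1, e4] at hq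
  rw [e2] at hq
  rw [hv, hv] at hq
  set za := zz (rsz c) a
  set zb := zz (rsz c) b
  -- Rayleigh
  have : Nonempty (Option U) := ⟨none⟩
  have hray := qf_le (DG c v a b) zt
  rw [Fintype.sum_option] at hray
  simp only [e0, e00] at hray
  rw [hq] at hray
  set lam := specRad (DG c v a b) with hlam
  have hray' : (al * N - lam) * Z2 ≤ ρ * N + 2 * (za * zb) := by
    have e5 : (N - ρ) ^ 2 - (N * (N - ρ) - al * N * Z2) - 2 * (za * zb)
        + 2 * (0 * ∑ i, zz (rsz c) (c (v i))) = al * N * Z2 - ρ * (N - ρ) - 2 * (za * zb) := by ring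
    have e6 : lam * (0 ^ 2 + Z2) = lam * Z2 := by ring
    rw [e5] at hray
    rw [e6] at hray
    have : ρ * (N - ρ) ≤ ρ * N := by nlinarith
    nlinarith
  -- bounds
  have hZ2N : N - 2 * ρ ≤ Z2 := by
    have h := sq_sum_le_card_mul_sum_sq (s := (univ : Finset U))
      (f := fun w => zz (rsz c) (c w))
    rw [e2, Finset.card_univ, ← hNdef] at h
    have h' : (N - ρ) ^ 2 ≤ N * Z2 := h
    have h2 : N * (N - 2 * ρ) ≤ N * Z2 := by nlinarith [sq_nonneg ρ]
    exact le_of_mul_le_mul_left h2 hN0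
  set h : ℝ := N / (N - B) with hh
  have hNB : 0 < N - B := by linarith
  have hh0 : 0 ≤ h := by positivity
  have hza : za ≤ h := by
    show zz (rsz c) a ≤ h
    unfold zz
    rw [hN, hh]
    have := (abs_le.mp (hB a)).1
    exact div_le_div_of_nonneg_left hN0.le hNB (by linarith)
  have hzb : zb ≤ h := by
    show zz (rsz c) b ≤ h
    unfold zz
    rw [hN, hh]
    have := (abs_le.mp (hB b)).1
    exact div_le_div_of_nonneg_left hN0.le hNB (by linarith)
  have hza0 : 0 < za := zz_pos hN hB hBN a hN0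
  have hzb0 : 0 < zb := zz_pos hN hB hBN b hN0
  have hzab : za * zb ≤ h ^ 2 := by
    rw [sq]; exact mul_le_mul hza hzb hzb0.le hh0
  set e : ℝ := 1 / N with he
  have he0 : 0 < e := by positivity
  have he1 : e ≤ 1 := by rw [he, div_le_one hN0]; exact hN1
  have hNe : N * e = 1 := by rw [he]; field_simp
  have hhle : h ≤ 1 + 2 * B * e := by
    rw [hh, div_le_iff₀ hNB]
    have h3 : (1 + 2 * B * e) * (N - B) = N - B + 2 * B * (N * e) - 2 * B * B * e := by ring
    rw [h3, hNe]
    have : 2 * B * B * e ≤ B := by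
      have : 2 * B * e ≤ 1 := by
        calc 2 * B * e ≤ N * e := mul_le_mul_of_nonneg_right (by linarith) he0.le
          _ = 1 := hNe
      nlinarith
    linarith
  have hh2 : h ^ 2 ≤ 1 + (4 * B + 4 * B ^ 2) * e := by
    have := one_add_mul_le (a := h) (b := h) hhle hhle hh0 (by positivity) (by positivity)
      he0.le he1
    calc h ^ 2 = h * h := sq h
      _ ≤ _ := this
      _ = _ := by ring
  have hρI : ρ ≤ I := by
    have : ρ * 1 ≤ ρ * (N - B) := mul_le_mul_of_nonneg_left (by linarith) hρ0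
    nlinarith
  have hρN : ρ * N ≤ al * I * h := by
    rw [hh, mul_div_assoc', le_div_iff₀ hNB]
    calc ρ * N * (N - B) = (ρ * (N - B)) * N := by ring
      _ ≤ (al * I) * N := mul_le_mul_of_nonneg_right hρ1 hN0.le
  have hD : 0 < N - 2 * ρ := by linarith
  set g : ℝ := N / (N - 2 * ρ) with hg
  have hg0 : 0 ≤ g := by positivity
  have hgle : g ≤ 1 + 4 * I * e := by
    rw [hg, div_le_iff₀ hD]
    have h3 : (1 + 4 * I * e) * (N - 2 * ρ) = N - 2 * ρ + 4 * I * (N * e) - 8 * I * ρ * e := by ring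
    rw [h3, hNe]
    have h4 : 8 * I * ρ * e ≤ 2 * I := by
      have : 4 * ρ * e ≤ 1 := by
        calc 4 * ρ * e ≤ N * e := mul_le_mul_of_nonneg_right (by linarith) he0.le
          _ = 1 := hNe
      nlinarith
    linarith
  -- conclusion
  by_cases hcase : al * N ≤ lam
  · have h1 : 0 ≤ (al * I + 2) / N := by positivity
    have h2 : 0 ≤ C1 r B / N ^ 2 := div_nonneg (C1_nonneg hB0) (by positivity)
    linarith
  · push Not at hcase
    have hd0 : 0 < al * N - lam := by linarith
    have h1 : (al * N - lam) * (N - 2 * ρ) ≤ al * I * h + 2 * h ^ 2 := by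
      have : (al * N - lam) * (N - 2 * ρ) ≤ (al * N - lam) * Z2 :=
        mul_le_mul_of_nonneg_left hZ2N hd0.le
      linarith
    have hh1 : 1 ≤ h := by
      rw [hh, le_div_iff₀ hNB]; linarith
    have h2 : al * I * h + 2 * h ^ 2 ≤ (al * I + 2) * h ^ 2 := by
      have : al * I * h ≤ al * I * h ^ 2 :=
        mul_le_mul_of_nonneg_left (by nlinarith) (by positivity)
      linarith
    have h3 : (al * N - lam) * N ≤ (al * I + 2) * (h ^ 2 * g) := by
      have : (al * N - lam) * N = ((al * N - lam) * (N - 2 * ρ)) * g := by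
        rw [hg]; field_simp
      rw [this]
      calc ((al * N - lam) * (N - 2 * ρ)) * g ≤ ((al * I + 2) * h ^ 2) * g :=
            mul_le_mul_of_nonneg_right (by linarith) hg0
        _ = _ := by ring
    have h4 : h ^ 2 * g ≤ 1 + ((4 * B + 4 * B ^ 2) + 4 * I + (4 * B + 4 * B ^ 2) * (4 * I)) * e :=
      one_add_mul_le hh2 hgle hg0 (by positivity) (by positivity) he0.le he1
    set cc := (4 * B + 4 * B ^ 2) + 4 * I + (4 * B + 4 * B ^ 2) * (4 * I) with hcc
    have hcc0 : 0 ≤ cc := by positivity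
    have h5 : (al * N - lam) * N ≤ (al * I + 2) + C1 r B * e := by
      have h6 : (al * N - lam) * N ≤ (al * I + 2) * (1 + cc * e) :=
        h3.trans (mul_le_mul_of_nonneg_left h4 (by positivity))
      have h7 : (al * I + 2) * cc ≤ C1 r B := by
        unfold C1
        have a1 : al * I + 2 ≤ r * B ^ 2 + 2 := by nlinarith
        have a2 : cc ≤ (4 * B + 4 * B ^ 2) + 4 * (r * B ^ 2)
            + (4 * B + 4 * B ^ 2) * (4 * (r * B ^ 2)) := by
          rw [hcc]
          have : (4 * B + 4 * B ^ 2) * (4 * I) ≤ (4 * B + 4 * B ^ 2) * (4 * (r * B ^ 2)) :=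
            mul_le_mul_of_nonneg_left (by linarith) (by positivity)
          linarith
        exact mul_le_mul a1 a2 hcc0 (by positivity)
      have h8 : (al * I + 2) * (1 + cc * e) = (al * I + 2) + ((al * I + 2) * cc) * e := by ring
      rw [h8] at h6
      have := mul_le_mul_of_nonneg_right h7 he0.le
      linarith
    have h6 : al * N - lam ≤ ((al * I + 2) + C1 r B * e) / N := by
      rw [le_div_iff₀ hN0]; exact h5
    have h7 : ((al * I + 2) + C1 r B * e) / N = (al * I + 2) / N + C1 r B / N ^ 2 := by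
      rw [he]; field_simp
    rw [h7] at h6
    linarith

end MP5532fa
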