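import Mathlib

/-!
# MP_5532fa_co : Motzkin-Straus inequality with an explicit partition (Füredi's argument)
-/

open Finset

namespace MP5532fa

variable {V : Type*}

open Classical in
/-- weight of the ordered adjacent pairs inside `W` -/
noncomputable def LW (G : SimpleGraph V) (y : V → ℝ) (W : Finset V) : ℝ :=
  ∑ u ∈ W, ∑ v ∈ W, if G.Adj u v then y u * y v else 0

open Classical in
/-- weight of the ordered adjacent monochromatic pairs inside `W` -/
noncomputable def IW (G : SimpleGraph V) (y : V → ℝ) {r : ℕ} (c : V → Fin r) (W : Finset V) : ℝ :=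
  ∑ u ∈ W, ∑ v ∈ W, if G.Adj u v ∧ c u = c v then y u * y v else 0

theorem LW_nonneg {G : SimpleGraph V} {y : V → ℝ} (hy : ∀ v, 0 ≤ y v) (W : Finset V) :
    0 ≤ LW G y W := by
  classical
  unfold LW
  refine Finset.sum_nonneg fun u _ => Finset.sum_nonneg fun v _ => ?_
  split_ifs
  · exact mul_nonneg (hy u) (hy v)
  · exact le_rfl

theorem ms_partition (G : SimpleGraph V) (y : V → ℝ) (hy : ∀ v, 0 ≤ y v) :
    ∀ (r : ℕ) (W : Finset V), (∀ s ⊆ W, ¬ G.IsNClique (r + 2) s) →
      ∃ c : V → Fin (r + 1), LW G y W + IW G y c W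
        ≤ (1 - 1 / ((r : ℝ) + 1)) * (∑ v ∈ W, y v) ^ 2 := by
  classical
  intro r
  induction r with
  | zero =>
    intro W hW
    have hno : ∀ u ∈ W, ∀ v ∈ W, ¬ G.Adj u v := by
      intro u hu v hv h
      refine hW {u, v} ?_ ?_
      · intro z hz
        simp only [Finset.mem_insert, Finset.mem_singleton] at hz
        rcases hz with rfl | rfl <;> assumption
      · rw [SimpleGraph.isNClique_iff, SimpleGraph.isClique_iff]
        refine ⟨?_, Finset.card_pair h.ne⟩
        intro a ha b hb hab
        simp only [Finset.coe_insert, Finset.coe_singleton, Set.mem_insert_iff,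
          Set.mem_singleton_iff] at ha hb
        rcases ha with rfl | rfl <;> rcases hb with rfl | rfl
        · exact absurd rfl hab
        · exact h
        · exact h.symm
        · exact absurd rfl hab
    refine ⟨fun _ => 0, ?_⟩
    have h1 : LW G y W = 0 := by
      unfold LW
      refine Finset.sum_eq_zero fun u hu => Finset.sum_eq_zero fun v hv => ?_
      rw [if_neg (hno u hu v hv)]
    have h2 : IW G y (fun _ => (0 : Fin 1)) W = 0 := by
      unfold IW
      refine Finset.sum_eq_zero fun u hu => Finset.sum_eq_zero fun v hv => ?_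
      rw [if_neg (fun h => hno u hu v hv h.1)]
    have h3 : IW G y (fun _ => (0 : Fin (0 + 1))) W = 0 := h2
    rw [h1, h3]
    simp
  | succ r ih =>
    intro W hW
    by_cases hWe : W = ∅
    · subst hWe
      refine ⟨fun _ => 0, ?_⟩
      simp [LW, IW]
    · have hWne : W.Nonempty := Finset.nonempty_iff_ne_empty.mpr hWe
      -- weighted degree
      set d : V → ℝ := fun u => ∑ w ∈ W, if G.Adj u w then y w else 0 with hd
      obtain ⟨v, hv, hmax⟩ := Finset.exists_max_image W d hWne
      set N : Finset V := W.filter (fun w => G.Adj v w) with hN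
      set R : Finset V := W.filter (fun w => ¬ G.Adj v w) with hR
      have hNW : N ⊆ W := Finset.filter_subset _ _
      have hRW : R ⊆ W := Finset.filter_subset _ _
      have hNR : Disjoint N R := Finset.disjoint_filter_filter_not W W (fun w => G.Adj v w)
      have hNRu : N ∪ R = W := Finset.filter_union_filter_not_eq (fun w => G.Adj v w) W
      have hcl : ∀ s ⊆ N, ¬ G.IsNClique (r + 2) s := by
        intro s hs hcl
        refine hW (insert v s) ?_ ?_
        · intro z hz
          rcases Finset.mem_insert.mp hz with rfl | hz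
          · exact hv
          · exact hNW (hs hz)
        · exact hcl.insert (fun b hb => (Finset.mem_filter.mp (hs hb)).2)
      obtain ⟨c', hc'⟩ := ih N hcl
      set c : V → Fin (r + 1 + 1) := fun u => if u ∈ N then (c' u).castSucc else Fin.last _ with hc
      refine ⟨c, ?_⟩
      have hsumN : ∑ w ∈ N, y w = d v := by
        rw [hd, hN, Finset.sum_filter]
      set Y := ∑ w ∈ W, y w with hY
      set M := d v with hM
      have hsumR : ∑ w ∈ R, y w = Y - M := by
        have : ∑ w ∈ N, y w + ∑ w ∈ R, y w = Y := by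
          rw [← Finset.sum_union hNR, hNRu]
        linarith
      -- split a double sum over W
      have split : ∀ f : V → V → ℝ, ∑ u ∈ W, ∑ w ∈ W, f u w
          = (∑ u ∈ N, ∑ w ∈ N, f u w) + (∑ u ∈ N, ∑ w ∈ R, f u w)
            + ((∑ u ∈ R, ∑ w ∈ N, f u w) + ∑ u ∈ R, ∑ w ∈ R, f u w) := by
        intro f
        rw [← hNRu, Finset.sum_union hNR]
        simp only [Finset.sum_union hNR, Finset.sum_add_distrib]
      have hL : LW G y W = LW G y N + 2 * (∑ u ∈ R, y u * d u) - LW G y R := by
        have h1 : LW G y W = (∑ u ∈ N, ∑ w ∈ N, if G.Adj u w then y u * y w else 0)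
            + (∑ u ∈ N, ∑ w ∈ R, if G.Adj u w then y u * y w else 0)
            + ((∑ u ∈ R, ∑ w ∈ N, if G.Adj u w then y u * y w else 0)
              + ∑ u ∈ R, ∑ w ∈ R, if G.Adj u w then y u * y w else 0) := split _
        have h2 : (∑ u ∈ N, ∑ w ∈ R, if G.Adj u w then y u * y w else 0)
            = ∑ u ∈ R, ∑ w ∈ N, if G.Adj u w then y u * y w else 0 := by
          rw [Finset.sum_comm]
          refine Finset.sum_congr rfl fun a _ => Finset.sum_congr rfl fun b _ => ?_
          have hsym := G.adj_comm a b
          by_cases h : G.Adj a b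
          · rw [if_pos h, if_pos (hsym.mp h), mul_comm]
          · rw [if_neg h, if_neg (mt hsym.mpr h)]
        have h3 : (∑ u ∈ R, y u * d u)
            = (∑ u ∈ R, ∑ w ∈ N, if G.Adj u w then y u * y w else 0)
              + ∑ u ∈ R, ∑ w ∈ R, if G.Adj u w then y u * y w else 0 := by
          rw [← Finset.sum_add_distrib]
          refine Finset.sum_congr rfl fun u _ => ?_
          rw [hd]
          simp only
          rw [← hNRu, Finset.sum_union hNR, mul_add, Finset.mul_sum, Finset.mul_sum]
          congr 1
          · refine Finset.sum_congr rfl fun w _ => ?_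
            split_ifs <;> ring
          · refine Finset.sum_congr rfl fun w _ => ?_
            split_ifs <;> ring
        rw [h1, h2, h3]
        unfold LW
        ring
      have hI : IW G y c W = IW G y c' N + LW G y R := by
        have h1 : IW G y c W = (∑ u ∈ N, ∑ w ∈ N, if G.Adj u w ∧ c u = c w then y u * y w else 0)
            + (∑ u ∈ N, ∑ w ∈ R, if G.Adj u w ∧ c u = c w then y u * y w else 0)
            + ((∑ u ∈ R, ∑ w ∈ N, if G.Adj u w ∧ c u = c w then y u * y w else 0)
              + ∑ u ∈ R, ∑ w ∈ R, if G.Adj u w ∧ c u = c w then y u * y w else 0) := split _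
        have hRN : ∀ u ∈ R, u ∉ N := fun u hu hn => (Finset.disjoint_left.mp hNR hn) hu
        have hcN : ∀ u ∈ N, c u = (c' u).castSucc := fun u hu => by simp [hc, hu]
        have hcR : ∀ u ∈ R, c u = Fin.last _ := fun u hu => by simp [hc, hRN u hu]
        have h2 : (∑ u ∈ N, ∑ w ∈ R, if G.Adj u w ∧ c u = c w then y u * y w else 0) = 0 := by
          refine Finset.sum_eq_zero fun u hu => Finset.sum_eq_zero fun w hw => ?_
          rw [if_neg]
          rintro ⟨_, h⟩
          rw [hcN u hu, hcR w hw] at h
          exact (Fin.castSucc_lt_last (c' u)).ne h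
        have h3 : (∑ u ∈ R, ∑ w ∈ N, if G.Adj u w ∧ c u = c w then y u * y w else 0) = 0 := by
          refine Finset.sum_eq_zero fun u hu => Finset.sum_eq_zero fun w hw => ?_
          rw [if_neg]
          rintro ⟨_, h⟩
          rw [hcR u hu, hcN w hw] at h
          exact (Fin.castSucc_lt_last (c' w)).ne h.symm
        have h4 : (∑ u ∈ R, ∑ w ∈ R, if G.Adj u w ∧ c u = c w then y u * y w else 0)
            = LW G y R := by
          unfold LW
          refine Finset.sum_congr rfl fun u hu => Finset.sum_congr rfl fun w hw => ?_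
          have : c u = c w := by rw [hcR u hu, hcR w hw]
          simp [this]
        have h5 : (∑ u ∈ N, ∑ w ∈ N, if G.Adj u w ∧ c u = c w then y u * y w else 0)
            = IW G y c' N := by
          unfold IW
          refine Finset.sum_congr rfl fun u hu => Finset.sum_congr rfl fun w hw => ?_
          have : (c u = c w) ↔ (c' u = c' w) := by
            rw [hcN u hu, hcN w hw]
            exact Fin.castSucc_inj
          simp only [this]
        rw [h1, h2, h3, h4, h5]; ring
      have hb : ∑ u ∈ R, y u * d u ≤ M * (Y - M) := by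
        calc ∑ u ∈ R, y u * d u ≤ ∑ u ∈ R, y u * M :=
              Finset.sum_le_sum fun u hu => mul_le_mul_of_nonneg_left (hmax u (hRW hu)) (hy u)
          _ = M * (Y - M) := by rw [← Finset.sum_mul, hsumR]; ring
      rw [hsumN] at hc'
      rw [hL, hI]
      have hr : (0 : ℝ) < (r : ℝ) + 1 := by positivity
      have hr2 : (0 : ℝ) < (r : ℝ) + 1 + 1 := by positivity
      have key : (1 - 1 / ((r : ℝ) + 1)) * M ^ 2 + 2 * (M * (Y - M))
          ≤ (1 - 1 / ((r : ℝ) + 1 + 1)) * Y ^ 2 := by
        have e : (1 - 1 / ((r : ℝ) + 1 + 1)) * Y ^ 2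
            - ((1 - 1 / ((r : ℝ) + 1)) * M ^ 2 + 2 * (M * (Y - M)))
            = ((r : ℝ) + 1 + 1) / ((r : ℝ) + 1)
              * (M - ((r : ℝ) + 1) / ((r : ℝ) + 1 + 1) * Y) ^ 2 := by
          field_simp
          ring
        have : 0 ≤ ((r : ℝ) + 1 + 1) / ((r : ℝ) + 1)
              * (M - ((r : ℝ) + 1) / ((r : ℝ) + 1 + 1) * Y) ^ 2 := by positivity
        linarith
      push_cast
      linarith

end MP5532fa
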