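import Mathlib

/-!
# MP_5532fa_co : real inequalities for moving the missing edge
-/

namespace MP5532fa

/-- bounds for the entries -/
theorem sw_ui {l X P ui xs : ℝ} (hl : 1 ≤ l) (h : l * ui = P + xs) (hP : P ≤ X)
    (hxs : l * xs ≤ X) (hX : 0 ≤ X) : l * ui ≤ 2 * X := by
  have h1 : xs ≤ X := by
    by_cases h0 : 0 ≤ xs
    · nlinarith
    · push Not at h0; linarith
  linarith

/-- `P (l + n - 1) = l (X - u)` -/
theorem sw_P {l X Xi u n : ℝ} (h : l * (Xi - u) = (n - 1) * (X - Xi)) :
    (X - Xi) * (l + n - 1) = l * (X - u) := by linarith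

/-- the entry `u_b` -/
theorem sw_ub {l X Xb ub ua xs n : ℝ} (hl : 0 < l) (h : l * (Xb - ub) = (n - 1) * (X - Xb))
    (h2 : l * ub = X - Xb - ua + xs) :
    l * (ub * (l + n)) = l * X + (xs - ua) * (l + n - 1) := by
  have h1 := sw_P h
  have h3 : (X - Xb) * (l + n - 1) = (l * ub + ua - xs) * (l + n - 1) := by rw [h2]; ring
  rw [h1] at h3
  linarith

theorem sw_ub_bounds {l X ub ua xs n : ℝ} (hl : 1 ≤ l) (hn : 1 ≤ n) (hnl : n ≤ l)
    (h : l * (ub * (l + n)) = l * X + (xs - ua) * (l + n - 1))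
    (hua0 : 0 ≤ ua) (hxs0 : 0 ≤ xs) (hua : l * ua ≤ 2 * X) (hxs : l * xs ≤ X) (hX : 0 ≤ X) :
    l * X - 4 * X ≤ l * (ub * (l + n)) ∧ l * (ub * (l + n)) ≤ l * X + 4 * X := by
  have h1 : l + n - 1 ≤ 2 * l := by linarith
  have h0 : 0 ≤ l + n - 1 := by linarith
  have h2 : ua * (l + n - 1) ≤ 4 * X := by
    calc ua * (l + n - 1) ≤ ua * (2 * l) := mul_le_mul_of_nonneg_left h1 hua0
      _ = 2 * (l * ua) := by ring
      _ ≤ 4 * X := by linarith
  have h3 : xs * (l + n - 1) ≤ 4 * X := by
    calc xs * (l + n - 1) ≤ xs * (2 * l) := mul_le_mul_of_nonneg_left h1 hxs0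
      _ = 2 * (l * xs) := by ring
      _ ≤ 4 * X := by linarith
  have h4 : 0 ≤ ua * (l + n - 1) := mul_nonneg hua0 h0
  have h5 : 0 ≤ xs * (l + n - 1) := mul_nonneg hxs0 h0
  constructor <;> nlinarith

/-- the equation for `e = u_i - u_a` -/
theorem sw_e {l X Xa Xi ua ui ub xs na ni : ℝ}
    (hYa : l * (Xa - ua) = (na - 1) * (X - Xa)) (hYi : l * (Xi - ui) = (ni - 1) * (X - Xi))
    (hi : l * ui = X - Xi + xs) (ha : l * ua = X - Xa - ub + xs) :
    (ui - ua) * (l * (l + (na - 1) + 1)) = ub * (l + (na - 1)) - (ni - na) * (X - Xi) := by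
  -- (λ+1) e = ub - w ; w (λ+ν) = d P - ν e
  have h1 : (l + 1) * (ui - ua) = ub - ((Xi - ui) - (Xa - ua)) := by linarith
  have h2 : ((Xi - ui) - (Xa - ua)) * l
      = (ni - na) * (X - Xi) - (na - 1) * (((Xi - ui) - (Xa - ua)) + (ui - ua)) := by
    have : ((Xi - ui) - (Xa - ua)) * l = l * (Xi - ui) - l * (Xa - ua) := by ring
    rw [this, hYa, hYi]; ring
  generalize hw : (Xi - ui) - (Xa - ua) = w at h1 h2
  generalize he : ui - ua = e at h1 h2 ⊢
  have h3 : w = ub - (l + 1) * e := by linarith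
  subst h3
  linarith

theorem sw_w {l X Xa Xi ua ui ub xs na ni : ℝ}
    (hYa : l * (Xa - ua) = (na - 1) * (X - Xa)) (hYi : l * (Xi - ui) = (ni - 1) * (X - Xi))
    (hi : l * ui = X - Xi + xs) (ha : l * ua = X - Xa - ub + xs) :
    ((Xi - ui) - (Xa - ua)) * (l * (l + (na - 1) + 1))
      = (l + 1) * ((ni - na) * (X - Xi)) - (na - 1) * ub := by
  have h1 : (l + 1) * (ui - ua) = ub - ((Xi - ui) - (Xa - ua)) := by linarith
  have h2 := sw_e hYa hYi hi ha
  have h3 : ((Xi - ui) - (Xa - ua)) = ub - (l + 1) * (ui - ua) := by linarith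
  rw [h3]
  have h4 : (ub - (l + 1) * (ui - ua)) * (l * (l + (na - 1) + 1))
      = ub * (l * (l + (na - 1) + 1)) - (l + 1) * ((ui - ua) * (l * (l + (na - 1) + 1))) := by ring
  rw [h4, h2]
  ring

/-- the signs, difference one -/
theorem sw_sign1 {l X Xa Xi ua ui ub xs na ni nb B : ℝ}
    (hl : 40 ≤ l) (hB : 0 ≤ B) (hX : 0 < X)
    (hYa : l * (Xa - ua) = (na - 1) * (X - Xa)) (hYi : l * (Xi - ui) = (ni - 1) * (X - Xi))
    (hi : l * ui = X - Xi + xs) (ha : l * ua = X - Xa - ub + xs)
    (hub : l * X - 4 * X ≤ l * (ub * (l + nb)) ∧ l * (ub * (l + nb)) ≤ l * X + 4 * X)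
    (hui0 : 0 ≤ ui) (hui : l * ui ≤ 2 * X) (hub0 : 0 ≤ ub)
    (hna : 18 + B < na - 1) (hnal : na ≤ l) (hnb1 : 1 ≤ nb)
    (hnb : nb ≤ na + B) (hni : ni = na + 1) :
    0 < ui - ua ∧ 0 < (Xi - ui) - (Xa - ua) := by
  have he := sw_e hYa hYi hi ha
  have hw := sw_w hYa hYi hi ha
  have hP := sw_P hYi
  subst hni
  have hd : na + 1 - na = 1 := by ring
  rw [hd, one_mul] at he hw
  generalize hPd : X - Xi = P at *
  generalize hν : na - 1 = ν at *
  have hnaν : na = ν + 1 := by linarith
  subst hnaν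
  have hν0 : 0 < ν := by linarith
  have hl0 : 0 < l := by linarith
  have hden : 0 < l * (l + ν + 1) := by positivity
  have hP' : P * (l + ν + 1) = l * (X - ui) := by
    have : l + (ν + 1 + 1) - 1 = l + ν + 1 := by ring
    rw [this] at hP; exact hP
  have hPX : P * (l + ν + 1) ≤ l * X := by rw [hP']; nlinarith
  have hPX2 : (l - 2) * X ≤ P * (l + ν + 1) := by rw [hP']; nlinarith
  have hsum : 0 < l + nb := by linarith
  constructor
  · -- N1 : ub (l + ν) > P
    have key : P < ub * (l + ν) := by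
      -- multiply by l (l+nb) (l+ν+1)
      by_contra hcon
      push Not at hcon
      have h1 : (l * (ub * (l + nb))) * (l + ν) = (ub * (l + ν)) * (l * (l + nb)) := by ring
      have h2 : (l * X - 4 * X) * (l + ν) ≤ P * (l * (l + nb)) := by
        calc (l * X - 4 * X) * (l + ν) ≤ (l * (ub * (l + nb))) * (l + ν) :=
              mul_le_mul_of_nonneg_right hub.1 (by linarith)
          _ = (ub * (l + ν)) * (l * (l + nb)) := h1
          _ ≤ P * (l * (l + nb)) := mul_le_mul_of_nonneg_right hcon (by positivity)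
      have h3 : (l * X - 4 * X) * (l + ν) * (l + ν + 1) ≤ (l * X) * (l * (l + nb)) := by
        calc (l * X - 4 * X) * (l + ν) * (l + ν + 1)
            ≤ P * (l * (l + nb)) * (l + ν + 1) := mul_le_mul_of_nonneg_right h2 (by linarith)
          _ = (P * (l + ν + 1)) * (l * (l + nb)) := by ring
          _ ≤ (l * X) * (l * (l + nb)) := mul_le_mul_of_nonneg_right hPX (by positivity)
      have h4 : X * ((l - 4) * (l + ν) * (l + ν + 1)) ≤ X * (l * l * (l + nb)) := by
        nlinarith
      have h5 := le_of_mul_le_mul_left h4 hX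
      have h6 : l * l * (l + nb) ≤ l * l * (l + ν + 1 + B) :=
        mul_le_mul_of_nonneg_left (by linarith) (by positivity)
      have h7 : l * l * (l + ν + 18 + B - 1) < (l - 4) * (l + ν) * (l + ν + 1) := by
        have e1 : (l - 4) * (l + ν) * (l + ν + 1) - l * l * (l + ν + 18 + B - 1)
            = l * l * (ν + 1 - 17 - B) + l * ν * (ν + 1) - 4 * (l + ν) * (l + ν + 1) := by ring
        have e2 : 4 * (l + ν) * (l + ν + 1) ≤ 4 * (l + ν) * (l + l) := by
          apply mul_le_mul_of_nonneg_left _ (by positivity); linarith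
        have e3 : 0 < l * l * (ν + 1 - 17 - B - 1) := by
          apply mul_pos (by positivity); linarith
        have e4 : 19 * (l * ν) ≤ l * ν * (ν + 1) := by
          have : 0 ≤ l * ν := by positivity
          have : 18 ≤ ν := by linarith
          nlinarith
        have e5 : 4 * (l + ν) * (l + l) = 8 * (l * l) + 8 * (l * ν) := by ring
        nlinarith [mul_pos hl0 hν0, mul_pos hl0 hl0]
      nlinarith [mul_pos hl0 hl0]
    have : 0 < (ui - ua) * (l * (l + ν + 1)) := by rw [he]; linarith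
    exact (mul_pos_iff_of_pos_right hden).mp this
  · -- N2
    have key : ν * ub < (l + 1) * P := by
      by_contra hcon
      push Not at hcon
      have h1 : (l + 1) * ((l - 2) * X) * (l * (l + nb)) ≤ ν * (l * X + 4 * X) * (l + ν + 1) := by
        calc (l + 1) * ((l - 2) * X) * (l * (l + nb))
            ≤ (l + 1) * (P * (l + ν + 1)) * (l * (l + nb)) := by
              apply mul_le_mul_of_nonneg_right _ (by positivity)
              exact mul_le_mul_of_nonneg_left hPX2 (by linarith)
          _ = ((l + 1) * P) * ((l + ν + 1) * (l * (l + nb))) := by ring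
          _ ≤ (ν * ub) * ((l + ν + 1) * (l * (l + nb))) :=
              mul_le_mul_of_nonneg_right hcon (by positivity)
          _ = ν * (l * (ub * (l + nb))) * (l + ν + 1) := by ring
          _ ≤ ν * (l * X + 4 * X) * (l + ν + 1) := by
              apply mul_le_mul_of_nonneg_right _ (by positivity)
              exact mul_le_mul_of_nonneg_left hub.2 hν0.le
      have h2 : X * ((l + 1) * (l - 2) * (l * (l + nb))) ≤ X * (ν * (l + 4) * (l + ν + 1)) := by
        nlinarith
      have h3 := le_of_mul_le_mul_left h2 hX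
      have h4 : ν * (l + 4) * (l + ν + 1) ≤ l * (2 * l) * (2 * l) := by
        have a1 : ν * (l + 4) ≤ l * (2 * l) := mul_le_mul (by linarith) (by linarith)
          (by linarith) hl0.le
        exact mul_le_mul a1 (by linarith) (by linarith) (by positivity)
      have h5 : l * (30 * (l * l)) ≤ (l + 1) * (l - 2) * (l * (l + nb)) := by
        have a1 : l * 30 ≤ (l + 1) * (l - 2) := by nlinarith
        have a2 : l * l ≤ l * (l + nb) := by nlinarith
        have := mul_le_mul a1 a2 (by positivity) (by nlinarith)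
        nlinarith
      nlinarith [mul_pos (mul_pos hl0 hl0) hl0]
    have : 0 < (Xi - ui - (Xa - ua)) * (l * (l + ν + 1)) := by rw [hw]; linarith
    exact (mul_pos_iff_of_pos_right hden).mp this

/-- the sign, difference at least two -/
theorem sw_sign2 {l X Xa Xi ua ui ub xs na ni nb B : ℝ}
    (hl : 40 + 20 * B ≤ l) (hB : 0 ≤ B) (hX : 0 < X)
    (hYa : l * (Xa - ua) = (na - 1) * (X - Xa)) (hYi : l * (Xi - ui) = (ni - 1) * (X - Xi))
    (hi : l * ui = X - Xi + xs) (ha : l * ua = X - Xa - ub + xs)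
    (hub : l * X - 4 * X ≤ l * (ub * (l + nb)) ∧ l * (ub * (l + nb)) ≤ l * X + 4 * X)
    (hui0 : 0 ≤ ui) (hui : l * ui ≤ 2 * X) (hub0 : 0 ≤ ub)
    (hna : 0 < na - 1) (hnal : na - 1 ≤ 3 / 5 * l)
    (hnb : na ≤ nb + B) (hnb1 : 1 ≤ nb) (hni : na + 2 ≤ ni) (hniB : ni ≤ na + B) :
    ui - ua < 0 := by
  have he := sw_e hYa hYi hi ha
  have hP := sw_P hYi
  generalize hPd : X - Xi = P at *
  generalize hν : na - 1 = ν at *
  have hnaν : na = ν + 1 := by linarith
  subst hnaν
  have hl0 : 0 < l := by linarith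
  have hden : 0 < l * (l + ν + 1) := by positivity
  obtain ⟨d, hd⟩ : ∃ d, ni = ν + 1 + d := ⟨ni - (ν + 1), by ring⟩
  subst hd
  have hd2 : 2 ≤ d := by linarith
  have hdB : d ≤ B := by linarith
  have hsum : 0 < l + nb := by linarith
  have hP' : P * (l + ν + d) = l * (X - ui) := by
    have : l + (ν + 1 + d) - 1 = l + ν + d := by ring
    rw [this] at hP; exact hP
  have hPX2 : (l - 2) * X ≤ P * (l + ν + d) := by rw [hP']; nlinarith
  have hsd : 0 < l + ν + d := by linarith
  have hP0 : 0 < P := by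
    have : 0 < P * (l + ν + d) := lt_of_lt_of_le (mul_pos (by linarith) hX) hPX2
    exact (mul_pos_iff_of_pos_right hsd).mp this
  have key : ub * (l + ν) < d * P := by
    have key2 : ub * (l + ν) < 2 * P := by
      by_contra hcon
      push Not at hcon
      have h1 : 2 * ((l - 2) * X) * (l * (l + nb)) ≤ (l * X + 4 * X) * ((l + ν) * (l + ν + d)) := by
        calc 2 * ((l - 2) * X) * (l * (l + nb))
            ≤ 2 * (P * (l + ν + d)) * (l * (l + nb)) := by
              apply mul_le_mul_of_nonneg_right _ (by positivity)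
              linarith
          _ = (2 * P) * ((l + ν + d) * (l * (l + nb))) := by ring
          _ ≤ (ub * (l + ν)) * ((l + ν + d) * (l * (l + nb))) :=
              mul_le_mul_of_nonneg_right hcon (by positivity)
          _ = (l * (ub * (l + nb))) * ((l + ν) * (l + ν + d)) := by ring
          _ ≤ (l * X + 4 * X) * ((l + ν) * (l + ν + d)) :=
              mul_le_mul_of_nonneg_right hub.2 (by positivity)
      have h2 : X * (2 * (l - 2) * (l * (l + nb))) ≤ X * ((l + 4) * ((l + ν) * (l + ν + d))) := by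
        nlinarith
      have h3 := le_of_mul_le_mul_left h2 hX
      -- l (l + nb) ≥ l (l + ν + 1 - B)
      have h4 : 2 * (l - 2) * (l * (l + ν + 1 - B)) ≤ 2 * (l - 2) * (l * (l + nb)) := by
        apply mul_le_mul_of_nonneg_left _ (by linarith)
        exact mul_le_mul_of_nonneg_left (by linarith) hl0.le
      have h5 : (l + 4) * ((l + ν) * (l + ν + d)) ≤ (l + 4) * ((8 / 5 * l) * (l + ν + B)) := by
        apply mul_le_mul_of_nonneg_left _ (by linarith)
        exact mul_le_mul (by linarith) (by linarith) (by linarith) (by linarith)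
      -- compare
      have h6 : (l + 4) * ((8 / 5 * l) * (l + ν + B)) < 2 * (l - 2) * (l * (l + ν + 1 - B)) := by
        have a1 : (l + 4) * ((8 / 5) * (l + ν + B)) < 2 * (l - 2) * (l + ν + 1 - B) := by
          -- difference = (2/5) l (l+ν) - ...
          have b1 : 2 * (l - 2) * (l + ν + 1 - B) - (l + 4) * ((8 / 5) * (l + ν + B))
              = (2 / 5) * l * (l + ν) - (4 + 32 / 5) * (l + ν) + 2 * (l - 2) - 2 * (l - 2) * B
                - (8 / 5) * (l + 4) * B := by ring
          have b2 : (20 * B + 40) * (l + ν) ≤ l * (l + ν) :=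
            mul_le_mul_of_nonneg_right (by linarith) (by linarith)
          have b3 : 0 ≤ B * ν := mul_nonneg hB hna.le
          have b4 : 0 ≤ B * l := mul_nonneg hB hl0.le
          nlinarith
        have := mul_lt_mul_of_pos_left a1 hl0
        nlinarith
      linarith
    nlinarith
  have h7 : (ui - ua) * (l * (l + ν + 1)) < 0 := by
    rw [he]
    have : ν + 1 + d - (ν + 1) = d := by ring
    rw [this]; linarith
  exact neg_of_mul_neg_left h7 hden.le

end MP5532fa
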