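import Pool.Agent.Work.MP_5532fa_co.Lower
import Pool.Agent.Work.MP_5532fa_co.SwapReal

/-!
# MP_5532fa_co : moving the missing edge to larger classes
-/

open Finset

namespace MP5532fa

section

variable {U : Type*} [Fintype U] {r : ℕ} {c : U → Fin r} {v : Fin r → U} {a b : Fin r}

/-- class sum of the entries -/
noncomputable def xc (c : U → Fin r) (x : Option U → ℝ) (j : Fin r) : ℝ :=
  cs c (fun w => x (some w)) j

/-- total sum -/
noncomputable def xt (x : Option U → ℝ) : ℝ := ∑ w, x (some w)

open Classical in
/-- An eigenvector of the defect graph. -/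
def IsEig (c : U → Fin r) (v : Fin r → U) (a b : Fin r) (x : Option U → ℝ) (l : ℝ) : Prop :=
  ∀ u, (∑ y, if (DG c v a b).Adj u y then x y else 0) = l * x u

variable {x : Option U → ℝ} {l : ℝ}

theorem eig_typ (hv : ∀ i, c (v i) = i) (hab : a ≠ b) (h : IsEig c v a b x l) {u : U}
    (hu : u ≠ v (c u)) : l * x (some u) = xt x - xc c x (c u) := by
  classical
  have h1 := h (some u)
  rw [row_some hv hab] at h1
  have h2 : u ≠ v a := by
    intro h'
    apply hu
    rw [h', hv]
  have h3 : u ≠ v b := by
    intro h'
    apply hu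
    rw [h', hv]
  rw [if_neg h2, if_neg h3, if_neg hu] at h1
  unfold xt xc
  linarith

theorem eig_v (hv : ∀ i, c (v i) = i) (hab : a ≠ b) (h : IsEig c v a b x l) {j : Fin r}
    (hja : j ≠ a) (hjb : j ≠ b) : l * x (some (v j)) = xt x - xc c x j + x none := by
  classical
  have h1 := h (some (v j))
  rw [row_some hv hab] at h1
  have h2 : v j ≠ v a := fun h' => hja (v_inj hv h')
  have h3 : v j ≠ v b := fun h' => hjb (v_inj hv h')
  rw [if_neg h2, if_neg h3, hv, if_pos rfl] at h1
  unfold xt xc
  linarith

theorem eig_a (hv : ∀ i, c (v i) = i) (hab : a ≠ b) (h : IsEig c v a b x l) :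
    l * x (some (v a)) = xt x - xc c x a - x (some (v b)) + x none := by
  classical
  have h1 := h (some (v a))
  rw [row_some hv hab] at h1
  have h3 : v a ≠ v b := fun h' => hab (v_inj hv h')
  rw [if_pos rfl, if_neg h3, hv, if_pos rfl] at h1
  unfold xt xc
  linarith

theorem eig_b (hv : ∀ i, c (v i) = i) (hab : a ≠ b) (h : IsEig c v a b x l) :
    l * x (some (v b)) = xt x - xc c x b - x (some (v a)) + x none := by
  classical
  have h1 := h (some (v b))
  rw [row_some hv hab] at h1
  have h3 : v b ≠ v a := fun h' => hab (v_inj hv h').symm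
  rw [if_neg h3, if_pos rfl, hv, if_pos rfl] at h1
  unfold xt xc
  linarith

theorem eig_none (hv : ∀ i, c (v i) = i) (h : IsEig c v a b x l) :
    l * x none = ∑ i, x (some (v i)) := by
  classical
  have h1 := h none
  rw [row_none hv] at h1
  linarith

theorem eig_cls (hv : ∀ i, c (v i) = i) (hab : a ≠ b) (h : IsEig c v a b x l) (j : Fin r) :
    l * (xc c x j - x (some (v j))) = ((sz c j : ℝ) - 1) * (xt x - xc c x j) := by
  classical
  have hmem : v j ∈ univ.filter (fun u => c u = j) := by simp [hv]
  have e1 : xc c x j - x (some (v j))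
      = ∑ u ∈ (univ.filter (fun u => c u = j)).erase (v j), x (some u) := by
    unfold xc cs
    rw [← Finset.add_sum_erase _ _ hmem]
    ring
  have e2 : ∀ u ∈ (univ.filter (fun u => c u = j)).erase (v j),
      l * x (some u) = xt x - xc c x j := by
    intro u hu
    obtain ⟨h1, h2⟩ := Finset.mem_erase.mp hu
    have h3 := (Finset.mem_filter.mp h2).2
    have h4 := eig_typ hv hab h (u := u) (by rw [h3]; exact h1)
    rw [h3] at h4
    exact h4
  rw [e1, Finset.mul_sum, Finset.sum_congr rfl e2, Finset.sum_const, nsmul_eq_mul,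
    Finset.card_erase_of_mem hmem, sz_eq]
  have hpos : 1 ≤ (univ.filter (fun u => c u = j)).card := Finset.card_pos.mpr ⟨_, hmem⟩
  rw [Nat.cast_sub hpos]
  simp

/-- The value of the form of the graph with the missing edge moved from the class `a` to the
class `i`, at a modified vector. -/
theorem qf_move (hv : ∀ i, c (v i) = i) (hab : a ≠ b) {i : Fin r} (hia : i ≠ a) (hib : i ≠ b)
    (x : Option U → ℝ) (e : ℝ) :
    ∃ y : Option U → ℝ,
      ∑ u, y u ^ 2 = ∑ u, x u ^ 2 + 2 * e * (x (some (v a)) - x (some (v i)) + e) ∧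
      qf (DG c v i b) y = qf (DG c v a b) x + 2 * (x (some (v a)) * x (some (v b)))
        - 2 * ((x (some (v i)) - e) * x (some (v b))) + 2 * e * (xc c x i - xc c x a - e) := by
  classical
  have hvai : v a ≠ v i := fun h => hia (v_inj hv h).symm
  have hvab : v a ≠ v b := fun h => hab (v_inj hv h)
  have hvib : v i ≠ v b := fun h => hib (v_inj hv h)
  set y : Option U → ℝ := fun z => match z with
    | none => x none
    | some w => x (some w) + ((if w = v a then e else 0) - (if w = v i then e else 0)) with hy
  have y0 : y none = x none := rfl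
  have y1 : ∀ w, y (some w) = x (some w) + ((if w = v a then e else 0)
      - (if w = v i then e else 0)) := fun w => rfl
  have ya : y (some (v a)) = x (some (v a)) + e := by rw [y1, if_pos rfl, if_neg hvai]; ring
  have yi : y (some (v i)) = x (some (v i)) - e := by
    rw [y1, if_pos rfl, if_neg (Ne.symm hvai)]; ring
  have yb : y (some (v b)) = x (some (v b)) := by
    rw [y1, if_neg (Ne.symm hvab), if_neg (Ne.symm hvib)]; ring
  have hcs : ∀ j, cs c (fun w => y (some w)) j
      = xc c x j + ((if j = a then e else 0) - (if j = i then e else 0)) := by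
    intro j
    unfold xc cs
    simp only [y1, Finset.sum_add_distrib, Finset.sum_sub_distrib]
    congr 1
    congr 1
    · rw [Finset.sum_filter]
      have : ∀ w, (if c w = j then (if w = v a then e else 0) else 0)
          = (if w = v a then (if j = a then e else 0) else 0) := by
        intro w
        by_cases h1 : w = v a
        · subst h1
          rw [hv]
          by_cases h2 : a = j
          · simp [h2]
          · simp [h2, Ne.symm h2]
        · simp [h1]
      simp only [this, Finset.sum_ite_eq', Finset.mem_univ, if_true]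
    · rw [Finset.sum_filter]
      have : ∀ w, (if c w = j then (if w = v i then e else 0) else 0)
          = (if w = v i then (if j = i then e else 0) else 0) := by
        intro w
        by_cases h1 : w = v i
        · subst h1
          rw [hv]
          by_cases h2 : i = j
          · simp [h2]
          · simp [h2, Ne.symm h2]
        · simp [h1]
      simp only [this, Finset.sum_ite_eq', Finset.mem_univ, if_true]
  have htot : ∑ w, y (some w) = xt x := by
    unfold xt
    simp only [y1, Finset.sum_add_distrib, Finset.sum_sub_distrib, Finset.sum_ite_eq',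
      Finset.mem_univ, if_true]
    ring
  have hvsum : ∑ j, y (some (v j)) = ∑ j, x (some (v j)) := by
    simp only [y1, Finset.sum_add_distrib, Finset.sum_sub_distrib]
    have e1 : ∀ j, (if v j = v a then e else 0) = (if j = a then e else 0) := by
      intro j
      by_cases h : j = a
      · simp [h]
      · rw [if_neg h, if_neg (fun h' => h (v_inj hv h'))]
    have e2 : ∀ j, (if v j = v i then e else 0) = (if j = i then e else 0) := by
      intro j
      by_cases h : j = i
      · simp [h]
      · rw [if_neg h, if_neg (fun h' => h (v_inj hv h'))]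
    simp only [e1, e2, Finset.sum_ite_eq', Finset.mem_univ, if_true]
    ring
  refine ⟨y, ?_, ?_⟩
  · rw [Fintype.sum_option, Fintype.sum_option, y0]
    have e1 : ∀ w, y (some w) ^ 2 = x (some w) ^ 2
        + ((if w = v a then 2 * x (some (v a)) * e + e ^ 2 else 0)
          + (if w = v i then -(2 * x (some (v i)) * e) + e ^ 2 else 0)) := by
      intro w
      rw [y1]
      by_cases h1 : w = v a
      · subst h1
        rw [if_pos rfl, if_neg hvai, if_pos rfl, if_neg hvai]; ring
      · by_cases h2 : w = v i
        · subst h2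
          rw [if_pos rfl, if_neg h1, if_pos rfl, if_neg h1]; ring
        · rw [if_neg h1, if_neg h2, if_neg h1, if_neg h2]; ring
    simp only [e1, Finset.sum_add_distrib, Finset.sum_ite_eq', Finset.mem_univ, if_true]
    ring
  · rw [qf_DG hv hib, qf_DG hv hab, htot, hvsum, yi, yb, y0]
    have e1 : ∑ j, cs c (fun w => y (some w)) j ^ 2
        = ∑ j, cs c (fun w => x (some w)) j ^ 2
          + (2 * xc c x a * e + e ^ 2) + (-(2 * xc c x i * e) + e ^ 2) := by
      have e2 : ∀ j, cs c (fun w => y (some w)) j ^ 2
          = cs c (fun w => x (some w)) j ^ 2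
            + (if j = a then 2 * xc c x a * e + e ^ 2 else 0)
            + (if j = i then -(2 * xc c x i * e) + e ^ 2 else 0) := by
        intro j
        rw [hcs]
        have e3 : xc c x j = cs c (fun w => x (some w)) j := rfl
        by_cases h1 : j = a
        · subst h1
          rw [if_pos rfl, if_neg (Ne.symm hia), if_pos rfl, if_neg (Ne.symm hia), e3]; ring
        · by_cases h2 : j = i
          · subst h2
            rw [if_pos rfl, if_neg h1, if_pos rfl, if_neg h1, e3]; ring
          · rw [if_neg h1, if_neg h2, if_neg h1, if_neg h2, e3]; ring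
      simp only [e2, Finset.sum_add_distrib, Finset.sum_ite_eq', Finset.mem_univ, if_true]
    rw [e1]
    have : xt x = ∑ w, x (some w) := rfl
    rw [this]
    ring

end

/-- threshold for the step -/
noncomputable def kS (r B : ℕ) : ℝ :=
  4 * (B : ℝ) + 8 * (r * (B : ℝ) ^ 2) + 2 * C1 r B + r * (20 + 2 * B) + 100 + 50 * B

theorem step_move {U : Type*} [Fintype U] {r : ℕ} (hr : 3 ≤ r) {c : U → Fin r}
    {v : Fin r → U} {a b i : Fin r} (hv : ∀ i, c (v i) = i) (hab : a ≠ b) (hia : i ≠ a)
    (hib : i ≠ b) {B : ℕ} (hB : ∀ j k, sz c j ≤ sz c k + B) (hlt : sz c a < sz c i)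
    (hbig : kS r B ≤ (Fintype.card U : ℝ)) :
    specRad (DG c v a b) < specRad (DG c v i b) := by
  classical
  have : Nonempty (Option U) := ⟨none⟩
  obtain ⟨x, hx0, hx1, heig, _⟩ := perron (DG c v a b)
  have hE : IsEig c v a b x (specRad (DG c v a b)) := heig
  have hqx : qf (DG c v a b) x = specRad (DG c v a b) := by
    rw [qf_eq_of_eig heig, hx1, mul_one]
  have hr1 : 1 ≤ r := by omega
  have hrr : (3:ℝ) ≤ r := by exact_mod_cast hr
  have hdv : ∀ j, |dv (rsz c) j| ≤ (B : ℝ) := fun j => dv_le hr1 hB j
  have hB0 : (0:ℝ) ≤ B := Nat.cast_nonneg _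
  have hC1 := C1_nonneg (r := r) hB0
  have hrB : 0 ≤ (r : ℝ) * (B : ℝ) ^ 2 := by positivity
  have hrb2 : 0 ≤ (r : ℝ) * (20 + 2 * B) := by positivity
  have hkS : 4 * (B : ℝ) + 8 * (r * (B : ℝ) ^ 2) + 2 * C1 r B + r * (20 + 2 * B) + 100 + 50 * B
    ≤ (Fintype.card U : ℝ) := hbig
  have hlow := specRad_DG_ge (c := c) (v := v) (a := a) (b := b) (by omega) hv hab hB0 hdv
    (by linarith)
  generalize hl : specRad (DG c v a b) = l at *
  generalize hNn : (Fintype.card U : ℝ) = n at *
  have hn0 : 0 < n := by linarith
  -- lower bound for l : l ≥ α n - 1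
  have halp : alp r = 1 - 1 / (r : ℝ) := rfl
  have hal0 := alp_nonneg hr1
  have hal1 : alp r ≤ 1 := alp_le
  have hI0 : 0 ≤ imb (rsz c) := imb_nonneg
  have hIle := imb_le hdv
  have hl1 : alp r * n - 1 ≤ l := by
    have h1 : (alp r * imb (rsz c) + 2) / n ≤ 1 / 2 := by
      rw [div_le_iff₀ hn0]
      have : alp r * imb (rsz c) ≤ 1 * imb (rsz c) := mul_le_mul_of_nonneg_right hal1 hI0
      linarith
    have h2 : C1 r B / n ^ 2 ≤ 1 / 2 := by
      rw [div_le_iff₀ (by positivity)]
      nlinarith
    linarith
  -- sizes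
  have hmean : ∀ j, rsz c j = n / r + dv (rsz c) j := by
    intro j
    unfold dv
    rw [sum_rsz, hNn]
    ring
  have hnr : n / r ≤ (l + 1) / 2 := by
    have h1 : alp r * n = n - n / r := by rw [halp]; ring
    have h2 : 2 * (n / r) ≤ n - n / r := by
      have : n / r ≤ n / 3 := div_le_div_of_nonneg_left hn0.le (by norm_num) hrr
      linarith
    linarith
  have hnr2 : 20 + 2 * (B : ℝ) ≤ n / r := by
    rw [le_div_iff₀ (by linarith)]
    linarith
  have hl2 : 40 + 20 * (B : ℝ) ≤ l := by
    have h1 : 2 / 3 ≤ alp r := by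
      rw [halp]
      have : 1 / (r : ℝ) ≤ 1 / 3 := one_div_le_one_div_of_le (by norm_num) hrr
      linarith
    have h2 : 2 / 3 * n ≤ alp r * n := mul_le_mul_of_nonneg_right h1 hn0.le
    linarith
  have hsz : ∀ j, n / r - B ≤ rsz c j ∧ rsz c j ≤ n / r + B := by
    intro j
    have := abs_le.mp (hdv j)
    rw [hmean j]
    constructor <;> linarith [this.1, this.2]
  have hszl : ∀ j, rsz c j ≤ 3 / 5 * l := by
    intro j
    have := (hsz j).2
    linarith
  have hsz1 : ∀ j, 20 + B ≤ rsz c j := by
    intro j
    have := (hsz j).1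
    linarith
  -- relations
  have hla := eig_a hv hab hE
  have hlb := eig_b hv hab hE
  have hli := eig_v hv hab hE hia hib
  have hls := eig_none hv hE
  have hca := eig_cls hv hab hE a
  have hci := eig_cls hv hab hE i
  have hcb := eig_cls hv hab hE b
  have hXc0 : ∀ j, 0 ≤ xc c x j := fun j => Finset.sum_nonneg fun u _ => hx0 _
  have hX0 : 0 ≤ xt x := Finset.sum_nonneg fun u _ => hx0 _
  have hvs : ∑ j, x (some (v j)) ≤ xt x := by
    unfold xt
    rw [← Finset.sum_image (f := fun w => x (some w)) (g := v) (s := univ)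
      (fun j _ k _ h => v_inj hv h)]
    exact Finset.sum_le_sum_of_subset_of_nonneg (Finset.subset_univ _) fun u _ _ => hx0 _
  have hl0 : 0 < l := by linarith
  have hlx : l * x none ≤ xt x := by rw [hls]; exact hvs
  -- total positive
  have hXpos : 0 < xt x := by
    rcases hX0.lt_or_eq with h | h
    · exact h
    · exfalso
      have h1 : ∀ w, x (some w) = 0 := by
        intro w
        have := (Finset.sum_eq_zero_iff_of_nonneg (fun i _ => hx0 (some i))).mp h.symm w
          (Finset.mem_univ w)
        exact this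
      have h2 : x none = 0 := by
        have h3 : l * x none = 0 := by
          rw [hls]; exact Finset.sum_eq_zero fun j _ => h1 _
        rcases mul_eq_zero.mp h3 with h4 | h4
        · linarith
        · exact h4
      rw [Fintype.sum_option] at hx1
      simp [h1, h2] at hx1
  have hXle : ∀ j, xt x - xc c x j ≤ xt x := fun j => by have := hXc0 j; linarith
  have hui : l * x (some (v i)) ≤ 2 * xt x :=
    sw_ui (by linarith) hli (hXle i) hlx hX0
  have hua : l * x (some (v a)) ≤ 2 * xt x := by
    have h1 : l * x (some (v a)) ≤ xt x - xc c x a + x none := by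
      have := hx0 (some (v b)); linarith
    have h2 : x none ≤ xt x := by
      have := hx0 none
      nlinarith
    have := hXle a
    linarith
  have hlb' : l * x (some (v b)) = xt x - xc c x b - x (some (v a)) + x none := hlb
  have hubeq := sw_ub hl0 hcb hlb'
  have hub := sw_ub_bounds (by linarith) (by have := hsz1 b; unfold rsz at this; linarith)
    (by have := hszl b; unfold rsz at this; linarith) hubeq (hx0 _) (hx0 _) hua hlx hX0
  have hubpos : 0 < x (some (v b)) := by
    have h1 : 0 < l * xt x - 4 * xt x := by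
      have : 0 < (l - 4) * xt x := mul_pos (by linarith) hXpos
      linarith
    have h2 : 0 < l * (x (some (v b)) * (l + (sz c b : ℝ))) := lt_of_lt_of_le h1 hub.1
    have h3 : 0 < x (some (v b)) * (l + (sz c b : ℝ)) := (mul_pos_iff_of_pos_left hl0).mp h2
    have h4 : 0 < l + (sz c b : ℝ) := by positivity
    exact (mul_pos_iff_of_pos_right h4).mp h3
  have hza := hsz1 a
  have hzb := hsz1 b
  have hzal := hszl a
  unfold rsz at hza hzb hzal
  have hBb : (sz c b : ℝ) ≤ (sz c a : ℝ) + B := by exact_mod_cast hB b a
  have hBa : (sz c a : ℝ) ≤ (sz c b : ℝ) + B := by exact_mod_cast hB a b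
  have hBi : (sz c i : ℝ) ≤ (sz c a : ℝ) + B := by exact_mod_cast hB i a
  rcases Nat.lt_or_ge (sz c a + 1) (sz c i) with hcase | hcase
  · -- difference at least two
    have hd2 : (sz c a : ℝ) + 2 ≤ (sz c i : ℝ) := by exact_mod_cast hcase
    have hneg := sw_sign2 (nb := (sz c b : ℝ)) (B := (B : ℝ)) hl2 hB0 hXpos hca hci hli hla hub
      (hx0 _) hui (hx0 _) (by linarith) (by linarith) hBa (by linarith) hd2 hBi
    obtain ⟨y, hy1, hy2⟩ := qf_move (a := a) (b := b) hv hab hia hib x 0
    have hray := qf_le (DG c v i b) y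
    rw [hy2, hy1, hx1, hqx] at hray
    have : 0 < (x (some (v a)) - x (some (v i))) * x (some (v b)) :=
      mul_pos (by linarith) hubpos
    nlinarith
  · have hd1 : sz c i = sz c a + 1 := by omega
    have hd1' : (sz c i : ℝ) = (sz c a : ℝ) + 1 := by rw [hd1]; push_cast; ring
    obtain ⟨he, hw⟩ := sw_sign1 (nb := (sz c b : ℝ)) (B := (B : ℝ)) (by linarith) hB0 hXpos hca
      hci hli hla hub (hx0 _) hui (hx0 _) (by linarith) (by linarith) (by linarith) hBb hd1'
    obtain ⟨y, hy1, hy2⟩ := qf_move (a := a) (b := b) hv hab hia hib x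
      (x (some (v i)) - x (some (v a)))
    have hray := qf_le (DG c v i b) y
    rw [hy2, hy1, hx1, hqx] at hray
    have h1 := mul_pos he hw
    nlinarith

end MP5532fa
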