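import Pool.Agent.Work.MP_5532fa_co.Compare
import Pool.Agent.Work.MP_5532fa_co.Swap
import Pool.Agent.Work.MP_5532fa_co.Iso

/-!
# MP_5532fa_co : structure of the graphs with large spectral radius
-/

open Finset

namespace MP5532fa

namespace Ctx

variable {V : Type*} [Fintype V] {C : Ctx V}

theorem Gadget.upTo (g : C.Gadget) (hQ : C.Qo.card = 2 * (C.q + 1)) (hM : C.Mo.card = 2) :
    UpToIsolated C.G (DG (U := {u // C.Heavy u}) (fun u => C.c u) (fun i => ⟨g.v i, g.hv i⟩)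
      g.a g.b) := by
  classical
  have hQs : C.Qo = g.Qs := (Finset.eq_of_subset_of_card_le g.Qs_sub
    (by rw [g.card_Qs, hQ])).symm
  have hMs : C.Mo = g.Ms := (Finset.eq_of_subset_of_card_le g.Ms_sub
    (by rw [g.card_Ms, hM])).symm
  have hs1 : ∀ w, C.G.Adj g.s w ↔ ∃ i, g.v i = w := by
    intro w
    constructor
    · intro h
      have : (g.s, w) ∈ C.Qo := C.mem_Qo.mpr ⟨h, fun h' => g.hs h'.1⟩
      rw [hQs] at this
      unfold Gadget.Qs at this
      rcases Finset.mem_union.mp this with h1 | h1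
      · obtain ⟨i, _, hi⟩ := Finset.mem_image.mp h1
        exact ⟨i, (Prod.mk.inj hi).2⟩
      · obtain ⟨i, _, hi⟩ := Finset.mem_image.mp h1
        exact absurd ((Prod.mk.inj hi).1 ▸ g.hv i) g.hs
    · rintro ⟨i, rfl⟩
      exact g.hadj i
  have hlight : ∀ u, ¬ C.Heavy u → u ≠ g.s → ∀ w, ¬ C.G.Adj u w := by
    intro u hu hus w h
    have : (u, w) ∈ C.Qo := C.mem_Qo.mpr ⟨h, fun h' => hu h'.1⟩
    rw [hQs] at this
    unfold Gadget.Qs at this
    rcases Finset.mem_union.mp this with h1 | h1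
    · obtain ⟨i, _, hi⟩ := Finset.mem_image.mp h1
      exact hus (Prod.mk.inj hi).1.symm
    · obtain ⟨i, _, hi⟩ := Finset.mem_image.mp h1
      exact hu ((Prod.mk.inj hi).1 ▸ g.hv i)
  have hheavy : ∀ u w, C.Heavy u → C.Heavy w → (C.G.Adj u w ↔
      C.c u ≠ C.c w ∧ ¬ (u = g.v g.a ∧ w = g.v g.b) ∧ ¬ (u = g.v g.b ∧ w = g.v g.a)) := by
    intro u w hu hw
    constructor
    · intro h
      refine ⟨fun h' => C.indep hu hw h' h, ?_, ?_⟩
      · rintro ⟨rfl, rfl⟩
        exact g.hmiss h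
      · rintro ⟨rfl, rfl⟩
        exact g.hmiss h.symm
    · rintro ⟨h1, h2, h3⟩
      by_contra h
      have : (u, w) ∈ C.Mo := C.mem_Mo.mpr ⟨hu, hw, h1, h⟩
      rw [hMs] at this
      unfold Gadget.Ms at this
      rcases Finset.mem_insert.mp this with h4 | h4
      · exact h2 ⟨(Prod.mk.inj h4).1, (Prod.mk.inj h4).2⟩
      · rw [Finset.mem_singleton] at h4
        exact h3 ⟨(Prod.mk.inj h4).1, (Prod.mk.inj h4).2⟩
  refine ⟨{ toFun := fun x => match x with
              | none => g.s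
              | some u => u.1
            inj' := ?_
            map_rel_iff' := ?_ }, ?_⟩
  · intro x y h
    match x, y, h with
    | none, none, _ => rfl
    | none, some w, h =>
      have h' : g.s = w.1 := h
      exact absurd (h' ▸ w.2 : C.Heavy g.s) g.hs
    | some w, none, h =>
      have h' : w.1 = g.s := h
      exact absurd (h' ▸ w.2 : C.Heavy g.s) g.hs
    | some u, some w, h => exact congrArg some (Subtype.ext h)
  · intro x y
    match x, y with
    | none, none =>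
      constructor
      · intro h; exact absurd h (C.G.irrefl)
      · intro h; exact absurd h (DG _ _ _ _).irrefl
    | none, some w =>
      show C.G.Adj g.s w.1 ↔ ∃ i, (⟨g.v i, g.hv i⟩ : {u // C.Heavy u}) = w
      rw [hs1]
      constructor
      · rintro ⟨i, hi⟩; exact ⟨i, Subtype.ext hi⟩
      · rintro ⟨i, hi⟩; exact ⟨i, congrArg Subtype.val hi⟩
    | some w, none =>
      show C.G.Adj w.1 g.s ↔ ∃ i, (⟨g.v i, g.hv i⟩ : {u // C.Heavy u}) = w
      rw [C.G.adj_comm, hs1]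
      constructor
      · rintro ⟨i, hi⟩; exact ⟨i, Subtype.ext hi⟩
      · rintro ⟨i, hi⟩; exact ⟨i, congrArg Subtype.val hi⟩
    | some u, some w =>
      show C.G.Adj u.1 w.1 ↔ C.c u.1 ≠ C.c w.1 ∧
        ¬ (u = (⟨g.v g.a, g.hv _⟩ : {u // C.Heavy u}) ∧ w = ⟨g.v g.b, g.hv _⟩) ∧
        ¬ (u = (⟨g.v g.b, g.hv _⟩ : {u // C.Heavy u}) ∧ w = ⟨g.v g.a, g.hv _⟩)
      rw [hheavy u.1 w.1 u.2 w.2]
      simp only [Subtype.ext_iff]
  · intro u hu w
    have hu1 : u ≠ g.s := fun h => hu ⟨none, h.symm⟩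
    have hu2 : ¬ C.Heavy u := fun h => hu ⟨some ⟨u, h⟩, rfl⟩
    exact hlight u hu2 hu1 w

theorem sz_T (i : Fin (C.q + 1)) :
    sz (fun u : {u // C.Heavy u} => C.c u) i = (C.T i).card := by
  classical
  unfold sz
  rw [Nat.card_eq_fintype_card, ← Fintype.card_coe]
  refine Fintype.card_congr ?_
  exact
    { toFun := fun u => ⟨u.1.1, C.mem_T.mpr ⟨u.1.2, u.2⟩⟩
      invFun := fun u => ⟨⟨u.1, (C.mem_T.mp u.2).1⟩, (C.mem_T.mp u.2).2⟩
      left_inv := fun u => rfl
      right_inv := fun u => rfl }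

end Ctx

theorem exists_top {U : Type*} [Fintype U] {r : ℕ} (hr : 3 ≤ r) {c : U → Fin r}
    {v : Fin r → U} {a b : Fin r} (hv : ∀ i, c (v i) = i) (hab : a ≠ b) {B : ℕ}
    (hB : ∀ j k, sz c j ≤ sz c k + B) (hbig : kS r B ≤ (Fintype.card U : ℝ)) :
    TopPair c a b ∨ ∃ a' b', a' ≠ b' ∧ TopPair c a' b' ∧
      specRad (DG c v a b) < specRad (DG c v a' b') := by
  classical
  -- choose a maximising pair
  set S : Finset (Fin r × Fin r) := univ.filter (fun e => e.1 ≠ e.2) with hS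
  have hne : S.Nonempty := ⟨(a, b), Finset.mem_filter.mpr ⟨Finset.mem_univ _, hab⟩⟩
  have htop : ∀ e ∈ S, (∀ e' ∈ S, specRad (DG c v e'.1 e'.2) ≤ specRad (DG c v e.1 e.2)) →
      TopPair c e.1 e.2 := by
    intro e he hmax i hi1 hi2
    have hne' : e.1 ≠ e.2 := (Finset.mem_filter.mp he).2
    constructor
    · by_contra hlt
      push Not at hlt
      have h1 := step_move hr hv hne' hi1 hi2 hB hlt hbig
      have h2 := hmax (i, e.2) (Finset.mem_filter.mpr ⟨Finset.mem_univ _, hi2⟩)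
      exact absurd h1 (not_lt.mpr h2)
    · by_contra hlt
      push Not at hlt
      have h1 := step_move (v := v) hr hv hne'.symm hi2 hi1 hB hlt hbig
      have h2 := hmax (i, e.1) (Finset.mem_filter.mpr ⟨Finset.mem_univ _, hi1⟩)
      rw [DG_comm (a := e.2)] at h1
      exact absurd h1 (not_lt.mpr h2)
  obtain ⟨e, he, hmax⟩ := Finset.exists_max_image S (fun e => specRad (DG c v e.1 e.2)) hne
  have hle := hmax (a, b) (Finset.mem_filter.mpr ⟨Finset.mem_univ _, hab⟩)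
  rcases hle.lt_or_eq with h | h
  · right
    exact ⟨e.1, e.2, (Finset.mem_filter.mp he).2, htop e he hmax, h⟩
  · left
    refine htop (a, b) (Finset.mem_filter.mpr ⟨Finset.mem_univ _, hab⟩) ?_
    intro e' he'
    rw [h]
    exact hmax e' he'

/-- the constant `D0` for the reference graphs -/
noncomputable def kD (q : ℕ) (B : ℝ) : ℝ :=
  2 * q + 4 + 2 * (((q : ℝ) + 1) * B ^ 2) + 2 * C1 (q + 1) B

theorem def_real {al n I q c rB p lam : ℝ} (hal0 : 2 / 3 ≤ al) (hal1 : al ≤ 1) (hn : 1 ≤ n)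
    (hI0 : 0 ≤ I) (hI : I ≤ rB) (hc : 0 ≤ c) (hp : p = al * n ^ 2 - I + 2 * q) (hq : 0 ≤ q)
    (hbig : 2 * (rB + 2 + c) ≤ n)
    (hlam : al * n - (al * I + 2) / n - c / n ^ 2 ≤ lam) :
    al * p - lam ^ 2 ≤ 2 * q + 4 + 2 * rB + 2 * c := by
  have hn0 : 0 < n := by linarith
  have h1 : (al * I + 2) / n + c / n ^ 2 ≤ (rB + 2 + c) / n := by
    have e1 : c / n ^ 2 ≤ c / n := by
      apply div_le_div_of_nonneg_left hc hn0
      nlinarith
    have e2 : (al * I + 2) / n ≤ (rB + 2) / n := by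
      apply div_le_div_of_nonneg_right _ hn0.le
      nlinarith
    have e3 : (rB + 2 + c) / n = (rB + 2) / n + c / n := by ring
    linarith
  have h2 : al * n - (rB + 2 + c) / n ≤ lam := by linarith
  have h3 : (rB + 2 + c) / n ≤ 1 / 2 := by
    rw [div_le_iff₀ hn0]; linarith
  have h4 : 0 ≤ al * n - (rB + 2 + c) / n := by nlinarith
  have h5 : (al * n - (rB + 2 + c) / n) ^ 2 ≤ lam ^ 2 := pow_le_pow_left₀ h4 h2 2
  have h6 : (al * n - (rB + 2 + c) / n) ^ 2
      = al ^ 2 * n ^ 2 - 2 * al * (rB + 2 + c) + ((rB + 2 + c) / n) ^ 2 := by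
    field_simp
    ring
  have h7 : 0 ≤ ((rB + 2 + c) / n) ^ 2 := sq_nonneg _
  rw [hp]
  have hrB : 0 ≤ rB := by linarith
  have h8 : 2 * al * (rB + 2 + c) ≤ 2 * (rB + 2 + c) := by nlinarith
  have h9 : al * (al * n ^ 2 - I + 2 * q) ≤ al ^ 2 * n ^ 2 + 2 * q := by nlinarith
  nlinarith

/-- The structure theorem: a graph whose spectral radius is at least that of a reference defect
graph with the same number of edges is a defect graph. -/
theorem structure_thm.{u} (q : ℕ) (hq : 2 ≤ q) (B : ℕ) : ∃ N0 : ℕ, ∀ N ≥ N0,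
    ∀ (c : Fin N → Fin (q + 1)) (v : Fin (q + 1) → Fin N) (a b : Fin (q + 1)),
    (∀ i, c (v i) = i) → a ≠ b → (∀ i j, sz c i ≤ sz c j + B) →
    ∀ {V : Type u} [Fintype V] (G : SimpleGraph V), G.CliqueFree (q + 2) →
      ¬ G.Colorable (q + 1) → pE G = pE (DG c v a b) →
      specRad (DG c v a b) ≤ specRad G →
      ∃ (c' : Fin N → Fin (q + 1)) (v' : Fin (q + 1) → Fin N) (a' b' : Fin (q + 1)),
        (∀ i, c' (v' i) = i) ∧ a' ≠ b' ∧ (∑ i, sz c' i ^ 2 = ∑ i, sz c i ^ 2) ∧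
        UpToIsolated G (DG c' v' a' b') := by
  classical
  have hB0 : (0:ℝ) ≤ B := Nat.cast_nonneg _
  have hqr : (2:ℝ) ≤ q := by exact_mod_cast hq
  set D0 := kD q (B : ℝ) with hD0
  have hC1 := C1_nonneg (r := q + 1) hB0
  have hrB : 0 ≤ ((q : ℝ) + 1) * (B : ℝ) ^ 2 := by positivity
  have hD01 : 1 ≤ D0 := by rw [hD0]; unfold kD; linarith
  have hP0 : 0 ≤ P0 q D0 := by
    unfold P0
    have := sq_nonneg (Kc q D0)
    linarith
  obtain ⟨N0, hN0⟩ := exists_nat_gt (|kN q D0 B| + P0 q D0 + 4 * (((q : ℝ) + 1) * (B : ℝ) ^ 2)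
    + 2 * B + 2 * C1 (q + 1) B + 10)
  refine ⟨N0, ?_⟩
  intro N hN c v a b hv hab hB V _ G hfree hcol hedge hge
  have hNr : |kN q D0 B| + P0 q D0 + 4 * (((q : ℝ) + 1) * (B : ℝ) ^ 2)
    + 2 * B + 2 * C1 (q + 1) B + 10 < (N : ℝ) := lt_of_lt_of_le hN0 (by exact_mod_cast hN)
  have hkN : kN q D0 B < (N : ℝ) := by
    have := le_abs_self (kN q D0 B)
    linarith
  have habs := abs_nonneg (kN q D0 B)
  have hcard : Fintype.card (Fin N) = N := Fintype.card_fin N
  have hdv : ∀ j, |dv (rsz c) j| ≤ (B : ℝ) := fun j => dv_le (by omega) hB j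
  have hlow := specRad_DG_ge (c := c) (v := v) (a := a) (b := b) (r := q + 1) (by omega) hv hab
    hB0 hdv (by rw [hcard]; push_cast; linarith)
  rw [hcard] at hlow
  have halp : alp (q + 1) = 1 - 1 / ((q : ℝ) + 1) := by unfold alp; push_cast; rfl
  have hI0 : 0 ≤ imb (rsz c) := imb_nonneg
  have hIle : imb (rsz c) ≤ ((q : ℝ) + 1) * (B : ℝ) ^ 2 := by
    have := imb_le hdv
    push_cast at this
    exact this
  have hpD : pE (DG c v a b) = alp (q + 1) * (N : ℝ) ^ 2 - imb (rsz c) + 2 * q := by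
    rw [pE_DG hv hab, hcard]
    have h1 := imb_eq (n := rsz c) (r := q + 1) (by omega)
    rw [sum_rsz, hcard] at h1
    have h2 : ∑ i, (sz c i : ℝ) ^ 2 = imb (rsz c) + (N : ℝ) ^ 2 / ((q + 1 : ℕ) : ℝ) := by
      have : ∑ i, (sz c i : ℝ) ^ 2 = ∑ i, rsz c i ^ 2 := rfl
      rw [this]; linarith
    rw [h2]
    unfold alp
    push_cast
    ring
  have hal0 : 2 / 3 ≤ alp (q + 1) := by
    rw [halp]
    have : 1 / ((q : ℝ) + 1) ≤ 1 / 3 := by
      apply one_div_le_one_div_of_le <;> linarith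
    linarith
  have hal1 : alp (q + 1) ≤ 1 := alp_le
  have hne : Nonempty V := by
    by_contra h
    rw [not_nonempty_iff] at h
    exact hcol (SimpleGraph.Colorable.of_isEmpty _)
  have hlamG := hlow.trans hge
  have hD : (1 - 1 / ((q : ℝ) + 1)) * pE G - specRad G ^ 2 ≤ D0 := by
    rw [hedge, ← halp, hD0]
    exact def_real hal0 hal1 (by linarith) hI0 hIle hC1 hpD (Nat.cast_nonneg _)
      (by linarith) hlamG
  have hpbig : P0 q D0 ≤ pE G := by
    rw [hedge, hpD]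
    have h1 : 2 / 3 * (N : ℝ) ^ 2 ≤ alp (q + 1) * (N : ℝ) ^ 2 :=
      mul_le_mul_of_nonneg_right hal0 (sq_nonneg _)
    have h2 : (10:ℝ) * N ≤ (N : ℝ) ^ 2 := by nlinarith
    have h3 : (0:ℝ) ≤ q := Nat.cast_nonneg _
    linarith
  obtain ⟨C, rfl, rfl, hlam, hCD, hCp, _⟩ := exists_ctx G q hq hfree D0 hD01 hpbig hD
  have hal : C.al = alp (C.q + 1) := C.al_eq
  obtain ⟨hsum, himb, hint⟩ := C.key (N := N) (I := imb (rsz c)) (B := (B : ℝ)) hI0 hIle hB0
    (by rw [hCp, hedge, hpD, hal]) (by rw [hal, hlam]; exact hlamG) (by rw [hCD]; exact hkN)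
  -- the counts
  have hgad : Nonempty C.Gadget := by
    rcases C.gadget_or hcol with h | h
    · exact h
    · exfalso
      have h1 : C.q * (4 * C.q + 2) ≤ C.q * C.Qo.card := Nat.mul_le_mul_left _ h
      nlinarith
  obtain ⟨g⟩ := hgad
  have hQ1 := g.card_Qo_ge
  have hM1 := g.card_Mo_ge
  have hQ : C.Qo.card = 2 * (C.q + 1) := by
    by_contra hne'
    have h1 : 2 * (C.q + 1) + 1 ≤ C.Qo.card := by omega
    have h2 : C.q * (2 * (C.q + 1) + 1) ≤ C.q * C.Qo.card := Nat.mul_le_mul_left _ h1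
    nlinarith
  have hM : C.Mo.card = 2 := by
    rw [hQ] at hint
    have : C.q * (2 * (C.q + 1)) = 2 * C.q * (C.q + 1) := by ring
    omega
  have hup := g.upTo hQ hM
  -- transfer to `Fin N`
  have hcardU : Fintype.card {u // C.Heavy u} = N := by
    rw [← sum_sz (fun u : {u // C.Heavy u} => C.c u), ← hsum]
    exact Finset.sum_congr rfl fun i _ => Ctx.sz_T i
  set e : Fin N ≃ {u // C.Heavy u} := (Fintype.equivFinOfCardEq hcardU).symm with he
  set c' : Fin N → Fin (C.q + 1) := fun k => C.c (e k).1 with hc'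
  set v' : Fin (C.q + 1) → Fin N := fun i => e.symm ⟨g.v i, g.hv i⟩ with hv'
  have hiso : DG c' v' g.a g.b ≃g DG (U := {u // C.Heavy u}) (fun u => C.c u)
      (fun i => ⟨g.v i, g.hv i⟩) g.a g.b :=
    DG_iso_of (Equiv.refl _) e (fun u => rfl) (fun i => by simp [hv']) g.a g.b
  have hszc : ∀ i, sz c' i = (C.T i).card := by
    intro i
    rw [← Ctx.sz_T i]
    unfold sz
    refine Nat.card_congr ?_
    exact e.subtypeEquiv (fun k => Iff.rfl)
  refine ⟨c', v', g.a, g.b, ?_, g.hab, ?_, hup.trans_iso hiso⟩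
  · intro i
    simp [hc', hv', g.hvc]
  · -- sums of squares
    have h1 : imb C.nT = imb (rsz c) := by
      rw [himb, hQ, hM]; push_cast; ring
    have h2 := imb_eq (n := C.nT) (r := C.q + 1) (by omega)
    have h3 := imb_eq (n := rsz c) (r := C.q + 1) (by omega)
    rw [sum_rsz, hcard] at h3
    rw [C.sum_nT, hsum] at h2
    have h4 : ∑ i, C.nT i ^ 2 = ∑ i, rsz c i ^ 2 := by linarith
    have h5 : ((∑ i, sz c' i ^ 2 : ℕ) : ℝ) = ((∑ i, sz c i ^ 2 : ℕ) : ℝ) := by
      push_cast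
      simp only [hszc]
      exact h4
    exact_mod_cast h5

end MP5532fa
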