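import Mathlib

/-!
# MP_5532fa_co : spectral radius and Perron vector of a finite graph
-/

open Finset

namespace MP5532fa

open Classical in
/-- The spectral radius of a finite graph: the largest (real) eigenvalue of its
adjacency matrix. -/
noncomputable def specRad {V : Type*} [Fintype V] (G : SimpleGraph V) : ℝ :=
  sSup (spectrum ℝ (G.adjMatrix ℝ))

variable {V : Type*} [Fintype V]

open Classical in
/-- The quadratic form of the adjacency matrix. -/
noncomputable def qf (G : SimpleGraph V) (x : V → ℝ) : ℝ :=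
  ∑ u, ∑ v, if G.Adj u v then x u * x v else 0

open Classical in
theorem mulVec_adj (G : SimpleGraph V) (x : V → ℝ) (u : V) :
    (G.adjMatrix ℝ).mulVec x u = ∑ v, if G.Adj u v then x v else 0 := by
  simp [Matrix.mulVec, dotProduct, SimpleGraph.adjMatrix_apply, ite_mul]

open Classical in
theorem mem_spectrum_iff (G : SimpleGraph V) (μ : ℝ) :
    μ ∈ spectrum ℝ (G.adjMatrix ℝ) ↔
      ∃ x : V → ℝ, x ≠ 0 ∧ ∀ u, (∑ v, if G.Adj u v then x v else 0) = μ * x u := by
  rw [spectrum.mem_iff, Matrix.isUnit_iff_isUnit_det, isUnit_iff_ne_zero, not_not,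
    ← Matrix.exists_mulVec_eq_zero_iff]
  constructor
  · rintro ⟨x, hx, h⟩
    refine ⟨x, hx, fun u => ?_⟩
    have h1 := congrFun h u
    rw [Matrix.sub_mulVec, Pi.sub_apply, Pi.zero_apply, mulVec_adj] at h1
    have h2 : ((algebraMap ℝ (Matrix V V ℝ)) μ).mulVec x u = μ * x u := by
      rw [Algebra.algebraMap_eq_smul_one, Matrix.smul_mulVec, Matrix.one_mulVec]
      rfl
    rw [h2] at h1
    linarith
  · rintro ⟨x, hx, h⟩
    refine ⟨x, hx, ?_⟩
    funext u
    rw [Matrix.sub_mulVec, Pi.sub_apply, Pi.zero_apply, mulVec_adj, h u]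
    have h2 : ((algebraMap ℝ (Matrix V V ℝ)) μ).mulVec x u = μ * x u := by
      rw [Algebra.algebraMap_eq_smul_one, Matrix.smul_mulVec, Matrix.one_mulVec]
      rfl
    rw [h2, sub_self]

open Classical in
theorem qf_eq_of_eig {G : SimpleGraph V} {x : V → ℝ} {μ : ℝ}
    (h : ∀ u, (∑ v, if G.Adj u v then x v else 0) = μ * x u) :
    qf G x = μ * ∑ u, x u ^ 2 := by
  unfold qf
  rw [Finset.mul_sum]
  refine Finset.sum_congr rfl fun u _ => ?_
  have : (∑ v, if G.Adj u v then x u * x v else 0)
      = x u * ∑ v, if G.Adj u v then x v else 0 := by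
    rw [Finset.mul_sum]
    refine Finset.sum_congr rfl fun v _ => ?_
    split_ifs <;> ring
  rw [this, h u]; ring

theorem qf_smul (G : SimpleGraph V) (x : V → ℝ) (c : ℝ) :
    qf G (fun v => c * x v) = c ^ 2 * qf G x := by
  classical
  unfold qf
  rw [Finset.mul_sum]
  refine Finset.sum_congr rfl fun u _ => ?_
  rw [Finset.mul_sum]
  refine Finset.sum_congr rfl fun v _ => ?_
  split_ifs <;> ring

theorem qf_abs (G : SimpleGraph V) (x : V → ℝ) : qf G x ≤ qf G (fun v => |x v|) := by
  classical
  unfold qf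
  refine Finset.sum_le_sum fun u _ => Finset.sum_le_sum fun v _ => ?_
  split_ifs
  · rw [← abs_mul]; exact le_abs_self _
  · exact le_rfl

theorem continuous_qf (G : SimpleGraph V) : Continuous (qf G) := by
  classical
  unfold qf
  refine continuous_finsetSum _ fun u _ => continuous_finsetSum _ fun v _ => ?_
  split_ifs
  · exact (continuous_apply u).mul (continuous_apply v)
  · exact continuous_const

theorem exists_maximizer [Nonempty V] (G : SimpleGraph V) :
    ∃ x : V → ℝ, (∀ v, 0 ≤ x v) ∧ ∑ v, x v ^ 2 = 1 ∧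
      ∀ z : V → ℝ, qf G z ≤ qf G x * ∑ v, z v ^ 2 := by
  classical
  set S : Set (V → ℝ) := {x | ∑ v, x v ^ 2 = 1} with hS
  have hclosed : IsClosed S := by
    have : Continuous (fun x : V → ℝ => ∑ v, x v ^ 2) :=
      continuous_finsetSum _ fun v _ => (continuous_apply v).pow 2
    exact isClosed_singleton.preimage this
  have hbdd : Bornology.IsBounded S := by
    rw [isBounded_iff_forall_norm_le]
    refine ⟨1, fun x hx => ?_⟩
    rw [pi_norm_le_iff_of_nonneg zero_le_one]
    intro v
    have h1 : x v ^ 2 ≤ ∑ v, x v ^ 2 :=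
      Finset.single_le_sum (f := fun v => x v ^ 2) (fun i _ => sq_nonneg _) (Finset.mem_univ v)
    rw [hx] at h1
    rw [Real.norm_eq_abs]
    exact abs_le_one_iff_mul_self_le_one.mpr (by nlinarith)
  have hcomp : IsCompact S := Metric.isCompact_of_isClosed_isBounded hclosed hbdd
  have hne : S.Nonempty := by
    obtain ⟨v0⟩ := ‹Nonempty V›
    refine ⟨Pi.single v0 1, ?_⟩
    show ∑ v, (Pi.single v0 (1:ℝ) : V → ℝ) v ^ 2 = 1
    rw [Finset.sum_eq_single v0]
    · simp
    · intro b _ hb; simp [Pi.single_eq_of_ne hb]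
    · simp
  obtain ⟨x0, hx0, hmax⟩ := hcomp.exists_isMaxOn hne (continuous_qf G).continuousOn
  have habs : (fun v => |x0 v|) ∈ S := by
    show ∑ v, |x0 v| ^ 2 = 1
    simp only [sq_abs]; exact hx0
  have hmax' : ∀ z ∈ S, qf G z ≤ qf G (fun v => |x0 v|) := fun z hz =>
    (hmax hz).trans (qf_abs G x0)
  refine ⟨fun v => |x0 v|, fun v => abs_nonneg _, habs, fun z => ?_⟩
  by_cases hz : ∑ v, z v ^ 2 = 0
  · have hz0 : ∀ v, z v = 0 := by
      intro v
      have := (Finset.sum_eq_zero_iff_of_nonneg (fun i _ => sq_nonneg (z i))).mp hz v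
        (Finset.mem_univ v)
      exact pow_eq_zero_iff (two_ne_zero) |>.mp this
    have : qf G z = 0 := by
      unfold qf
      refine Finset.sum_eq_zero fun u _ => Finset.sum_eq_zero fun v _ => ?_
      simp [hz0 u]
    rw [this, hz, mul_zero]
  · have hpos : 0 < ∑ v, z v ^ 2 :=
      lt_of_le_of_ne (Finset.sum_nonneg fun i _ => sq_nonneg _) (Ne.symm hz)
    set c := Real.sqrt (∑ v, z v ^ 2) with hc
    have hcpos : 0 < c := Real.sqrt_pos.mpr hpos
    have hc2 : c ^ 2 = ∑ v, z v ^ 2 := Real.sq_sqrt hpos.le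
    have hzS : (fun v => c⁻¹ * z v) ∈ S := by
      show ∑ v, (c⁻¹ * z v) ^ 2 = 1
      have : ∑ v, (c⁻¹ * z v) ^ 2 = (c⁻¹) ^ 2 * ∑ v, z v ^ 2 := by
        rw [Finset.mul_sum]; exact Finset.sum_congr rfl fun v _ => by ring
      rw [this, ← hc2]
      field_simp
    have h1 := hmax' _ hzS
    rw [qf_smul] at h1
    have h2 : qf G z = c ^ 2 * (c⁻¹ ^ 2 * qf G z) := by
      field_simp
    rw [h2, ← hc2, mul_comm (qf G _)]
    exact mul_le_mul_of_nonneg_left h1 (sq_nonneg c)

/-- variation -/
theorem eig_of_max {G : SimpleGraph V} {x : V → ℝ} {μ : ℝ} [DecidableRel G.Adj]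
    (h1 : qf G x = μ * ∑ v, x v ^ 2)
    (h2 : ∀ z : V → ℝ, qf G z ≤ μ * ∑ v, z v ^ 2) (u : V) :
    (∑ v, if G.Adj u v then x v else 0) = μ * x u := by
  classical
  -- consider z = x + t e_u
  set e : V → ℝ := Pi.single u 1 with he
  set s : ℝ := ∑ v, if G.Adj u v then x v else 0 with hs
  have key : ∀ t : ℝ, 2 * t * (s - μ * x u) ≤ μ * t ^ 2 := by
    intro t
    have hz := h2 (fun v => x v + t * e v)
    have e1 : qf G (fun v => x v + t * e v) = qf G x + 2 * t * s := by
      have hexp : qf G (fun v => x v + t * e v) =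
          qf G x + t * (∑ a, ∑ b, if G.Adj a b then x a * e b else 0)
            + t * (∑ a, ∑ b, if G.Adj a b then e a * x b else 0)
            + t ^ 2 * (∑ a, ∑ b, if G.Adj a b then e a * e b else 0) := by
        unfold qf
        simp only [Finset.mul_sum, ← Finset.sum_add_distrib]
        refine Finset.sum_congr rfl fun a _ => Finset.sum_congr rfl fun b _ => ?_
        by_cases h : G.Adj a b
        · simp only [h, if_true]; ring
        · simp [h]
      have A1 : (∑ a, ∑ b, if G.Adj a b then x a * e b else 0) = s := by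
        rw [Finset.sum_comm, Finset.sum_eq_single u]
        · rw [hs]
          refine Finset.sum_congr rfl fun a _ => ?_
          have hsym := G.adj_comm a u
          by_cases h : G.Adj u a
          · simp [he, h, hsym.mpr h]
          · simp [h, mt hsym.mp h]
        · intro b _ hb
          refine Finset.sum_eq_zero fun a _ => ?_
          simp [he, Pi.single_eq_of_ne hb]
        · simp
      have A2 : (∑ a, ∑ b, if G.Adj a b then e a * x b else 0) = s := by
        rw [Finset.sum_eq_single u]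
        · rw [hs]
          refine Finset.sum_congr rfl fun a _ => ?_
          simp [he]
        · intro b _ hb
          refine Finset.sum_eq_zero fun a _ => ?_
          simp [he, Pi.single_eq_of_ne hb]
        · simp
      have A3 : (∑ a, ∑ b, if G.Adj a b then e a * e b else 0) = 0 := by
        refine Finset.sum_eq_zero fun a _ => Finset.sum_eq_zero fun b _ => ?_
        split_ifs with h
        · by_cases ha : a = u
          · have hb : b ≠ u := fun hb => by subst ha; subst hb; exact G.irrefl h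
            simp [he, Pi.single_eq_of_ne hb]
          · simp [he, Pi.single_eq_of_ne ha]
        · rfl
      rw [hexp, A1, A2, A3]; ring
    have e2 : ∑ v, (x v + t * e v) ^ 2 = ∑ v, x v ^ 2 + 2 * t * x u + t ^ 2 := by
      have : ∀ v, (x v + t * e v) ^ 2 = x v ^ 2 + (if v = u then 2 * t * x u + t ^ 2 else 0) := by
        intro v
        by_cases hv : v = u
        · subst hv; simp [he]; ring
        · simp [he, hv]
      simp only [this, Finset.sum_add_distrib, Finset.sum_ite_eq', Finset.mem_univ, if_true]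
      ring
    rw [e1, e2, h1] at hz
    nlinarith
  by_contra hne
  set d := s - μ * x u with hd
  have hd0 : d ≠ 0 := sub_ne_zero.mpr hne
  -- choose t
  by_cases hμ : μ ≤ 0
  · have := key d
    have hdd : 0 < d ^ 2 := by positivity
    nlinarith
  · push Not at hμ
    have := key (d / μ)
    have hdd : 0 < d ^ 2 := by positivity
    have e3 : μ * (d / μ) ^ 2 = d ^ 2 / μ := by field_simp
    have e4 : 2 * (d / μ) * d = 2 * (d ^ 2 / μ) := by ring
    rw [e3, e4] at this
    have : 0 < d ^ 2 / μ := by positivity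
    linarith

open Classical in
/-- Perron vector. -/
theorem perron [Nonempty V] (G : SimpleGraph V) :
    ∃ x : V → ℝ, (∀ v, 0 ≤ x v) ∧ ∑ v, x v ^ 2 = 1 ∧
      (∀ u, (∑ v, if G.Adj u v then x v else 0) = specRad G * x u) ∧
      ∀ z : V → ℝ, qf G z ≤ specRad G * ∑ v, z v ^ 2 := by
  obtain ⟨x, hx0, hx1, hmax⟩ := exists_maximizer G
  have heig := eig_of_max (G := G) (x := x) (μ := qf G x) (by rw [hx1, mul_one]) hmax
  have hxne : x ≠ 0 := by
    rintro rfl
    simp at hx1
  have hmem : qf G x ∈ spectrum ℝ (G.adjMatrix ℝ) :=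
    (mem_spectrum_iff G _).mpr ⟨x, hxne, heig⟩
  have hub : ∀ μ ∈ spectrum ℝ (G.adjMatrix ℝ), μ ≤ qf G x := by
    intro μ hμ
    obtain ⟨z, hz, hez⟩ := (mem_spectrum_iff G _).mp hμ
    have h1 := qf_eq_of_eig hez
    have h2 := hmax z
    rw [h1] at h2
    have hpos : 0 < ∑ v, z v ^ 2 := by
      obtain ⟨v, hv⟩ := Function.ne_iff.mp hz
      have hv' : z v ≠ 0 := hv
      exact Finset.sum_pos' (fun i _ => sq_nonneg _) ⟨v, Finset.mem_univ v, by positivity⟩
    exact le_of_mul_le_mul_right h2 hpos
  have hsup : specRad G = qf G x := by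
    unfold specRad
    apply le_antisymm
    · exact csSup_le ⟨_, hmem⟩ hub
    · exact le_csSup ⟨qf G x, hub⟩ hmem
  refine ⟨x, hx0, hx1, ?_, ?_⟩
  · rw [hsup]; exact heig
  · rw [hsup]; exact hmax

theorem qf_le [Nonempty V] (G : SimpleGraph V) (z : V → ℝ) :
    qf G z ≤ specRad G * ∑ v, z v ^ 2 := by
  obtain ⟨x, _, _, _, h⟩ := perron G
  exact h z

/-- Schur test: if `A z ≤ μ z` for a positive vector `z`, then `λ ≤ μ` as a bound for the form. -/
theorem qf_le_of_schur {G : SimpleGraph V} [DecidableRel G.Adj] {z : V → ℝ} {μ : ℝ}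
    (hz : ∀ v, 0 < z v) (h : ∀ u, (∑ v, if G.Adj u v then z v else 0) ≤ μ * z u) (x : V → ℝ) :
    qf G x ≤ μ * ∑ v, x v ^ 2 := by
  classical
  -- 2 x_u x_v ≤ (z_v / z_u) x_u^2 + (z_u/z_v) x_v^2
  have h1 : qf G x ≤ ∑ u, ∑ v, if G.Adj u v then (z v / z u) * x u ^ 2 else 0 := by
    have hsym : (∑ u, ∑ v, if G.Adj u v then (z v / z u) * x u ^ 2 else 0)
        = ∑ u, ∑ v, if G.Adj u v then (z u / z v) * x v ^ 2 else 0 := by
      rw [Finset.sum_comm]
      refine Finset.sum_congr rfl fun a _ => Finset.sum_congr rfl fun b _ => ?_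
      simp only [G.adj_comm b a]
    have h2 : 2 * qf G x ≤ (∑ u, ∑ v, if G.Adj u v then (z v / z u) * x u ^ 2 else 0)
        + ∑ u, ∑ v, if G.Adj u v then (z u / z v) * x v ^ 2 else 0 := by
      unfold qf
      rw [Finset.mul_sum, ← Finset.sum_add_distrib]
      refine Finset.sum_le_sum fun u _ => ?_
      rw [Finset.mul_sum, ← Finset.sum_add_distrib]
      refine Finset.sum_le_sum fun v _ => ?_
      split_ifs
      · have hu := hz u
        have hv := hz v
        have e1 : z v / z u * x u ^ 2 + z u / z v * x v ^ 2 - 2 * (x u * x v)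
            = (z v * x u - z u * x v) ^ 2 / (z u * z v) := by
          field_simp
          ring
        have e2 : 0 ≤ (z v * x u - z u * x v) ^ 2 / (z u * z v) := by positivity
        linarith
      · simp
    rw [← hsym] at h2
    linarith
  refine h1.trans ?_
  rw [Finset.mul_sum]
  refine Finset.sum_le_sum fun u _ => ?_
  have : (∑ v, if G.Adj u v then (z v / z u) * x u ^ 2 else 0)
      = (∑ v, if G.Adj u v then z v else 0) * (x u ^ 2 / z u) := by
    rw [Finset.sum_mul]
    refine Finset.sum_congr rfl fun v _ => ?_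
    split_ifs
    · ring
    · ring
  rw [this]
  have hu := hz u
  calc (∑ v, if G.Adj u v then z v else 0) * (x u ^ 2 / z u)
      ≤ (μ * z u) * (x u ^ 2 / z u) := mul_le_mul_of_nonneg_right (h u) (by positivity)
    _ = μ * x u ^ 2 := by field_simp

theorem specRad_nonneg [Nonempty V] (G : SimpleGraph V) : 0 ≤ specRad G := by
  classical
  obtain ⟨v0⟩ := ‹Nonempty V›
  have h := qf_le G (fun v => if v = v0 then 1 else 0)
  have h0 : qf G (fun v => if v = v0 then (1:ℝ) else 0) = 0 := by
    unfold qf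
    refine Finset.sum_eq_zero fun a _ => Finset.sum_eq_zero fun b _ => ?_
    by_cases hab : G.Adj a b
    · by_cases h1 : a = v0
      · by_cases h2 : b = v0
        · subst h1; subst h2; exact absurd hab (G.irrefl)
        · simp [h2]
      · simp [h1]
    · simp [hab]
  rw [h0] at h
  have h1 : ∑ v, (if v = v0 then (1:ℝ) else 0) ^ 2 = 1 := by
    simp [ite_pow]
  rw [h1, mul_one] at h
  exact h

end MP5532fa
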