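import Pool.Agent.Work.MP_5532fa_co.Spec
import Pool.Agent.Work.MP_5532fa_co.MS

/-!
# MP_5532fa_co : stability analysis, part 1 (heavy/light dichotomy)
-/

open Finset

namespace MP5532fa

/-- The size constant. -/
noncomputable def Kc (q : ℕ) (D0 : ℝ) : ℝ := 10 ^ 8 * ((q : ℝ) + 1) ^ 2 * D0 ^ 6

open Classical in
/-- The context of the stability analysis. Number of parts is `q + 1`. -/
structure Ctx (V : Type*) [Fintype V] where
  G : SimpleGraph V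
  q : ℕ
  hq : 2 ≤ q
  free : G.CliqueFree (q + 2)
  x : V → ℝ
  lam : ℝ
  D0 : ℝ
  hx0 : ∀ v, 0 ≤ x v
  hx1 : ∑ v, x v ^ 2 = 1
  heig : ∀ u, (∑ v, if G.Adj u v then x v else 0) = lam * x u
  hD0 : 1 ≤ D0
  hlam : 0 < lam
  c : V → Fin (q + 1)
  hc : LW G (fun v => x v ^ 2) univ + IW G (fun v => x v ^ 2) c univ ≤ 1 - 1 / ((q : ℝ) + 1)
  p : ℝ
  hp : p = ((univ : Finset (V × V)).filter (fun e => G.Adj e.1 e.2)).card
  hD : (1 - 1 / ((q : ℝ) + 1)) * p - lam ^ 2 ≤ D0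
  hp6 : 6 * D0 ≤ p
  hth : Kc q D0 * (lam / p) ≤ 1

namespace Ctx

variable {V : Type*} [Fintype V] (C : Ctx V)

/-- the typical value of `x_u x_v` -/
noncomputable def t : ℝ := C.lam / C.p

open Classical in
/-- ordered edges -/
noncomputable def E : Finset (V × V) := univ.filter (fun e => C.G.Adj e.1 e.2)

theorem mem_E {e : V × V} : e ∈ C.E ↔ C.G.Adj e.1 e.2 := by
  simp [E]

theorem p_pos : 0 < C.p := by
  have := C.hp6; have := C.hD0; linarith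

theorem t_pos : 0 < C.t := div_pos C.hlam C.p_pos

theorem lam_eq : C.lam = C.p * C.t := by
  unfold t; field_simp [C.p_pos.ne']

theorem card_E : (C.E.card : ℝ) = C.p := C.hp.symm

theorem sum_E (f : V → V → ℝ) : ∑ e ∈ C.E, f e.1 e.2
    = ∑ u, ∑ v, open Classical in if C.G.Adj u v then f u v else 0 := by
  classical
  unfold E
  rw [Finset.sum_filter, ← Finset.univ_product_univ, Finset.sum_product]

theorem sum_xx : ∑ e ∈ C.E, C.x e.1 * C.x e.2 = C.lam := by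
  classical
  rw [C.sum_E (fun u v => C.x u * C.x v)]
  have : ∀ u, (∑ v, if C.G.Adj u v then C.x u * C.x v else 0) = C.lam * C.x u ^ 2 := by
    intro u
    have h := C.heig u
    calc (∑ v, if C.G.Adj u v then C.x u * C.x v else 0)
        = C.x u * ∑ v, (if C.G.Adj u v then C.x v else 0) := by
          rw [Finset.mul_sum]
          exact Finset.sum_congr rfl fun v _ => by split_ifs <;> ring
      _ = C.lam * C.x u ^ 2 := by rw [h]; ring
  simp only [this]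
  rw [← Finset.mul_sum, C.hx1, mul_one]

/-- `L = ∑_E y_u y_v` -/
noncomputable def L : ℝ := ∑ e ∈ C.E, C.x e.1 ^ 2 * C.x e.2 ^ 2

open Classical in
noncomputable def Inn : ℝ := ∑ e ∈ C.E.filter (fun e => C.c e.1 = C.c e.2), C.x e.1 ^ 2 * C.x e.2 ^ 2

/-- alpha = 1 - 1/r -/
noncomputable def al : ℝ := 1 - 1 / ((C.q : ℝ) + 1)

theorem q_real : (2 : ℝ) ≤ C.q := by exact_mod_cast C.hq

theorem al_ge : 2 / 3 ≤ C.al := by
  unfold al
  have h := C.q_real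
  have : 1 / ((C.q : ℝ) + 1) ≤ 1 / 3 := by
    apply one_div_le_one_div_of_le <;> linarith
  linarith

theorem al_lt : C.al < 1 := by
  unfold al
  have h := C.q_real
  have : 0 < 1 / ((C.q : ℝ) + 1) := by positivity
  linarith

theorem L_add_Inn : C.L + C.Inn ≤ C.al := by
  classical
  have h := C.hc
  have h1 : LW C.G (fun v => C.x v ^ 2) univ = C.L := by
    unfold LW L
    rw [C.sum_E (fun u v => C.x u ^ 2 * C.x v ^ 2)]
  have h2 : IW C.G (fun v => C.x v ^ 2) C.c univ = C.Inn := by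
    unfold IW Inn
    rw [Finset.sum_filter, C.sum_E (fun u v => if C.c u = C.c v then C.x u ^ 2 * C.x v ^ 2 else 0)]
    refine Finset.sum_congr rfl fun u _ => Finset.sum_congr rfl fun v _ => ?_
    by_cases h : C.G.Adj u v <;> by_cases h' : C.c u = C.c v <;> simp [h, h']
  rw [h1, h2] at h
  exact h

theorem Inn_nonneg : 0 ≤ C.Inn := by
  unfold Inn
  exact Finset.sum_nonneg fun e _ => by positivity

theorem var_eq : ∑ e ∈ C.E, (C.x e.1 * C.x e.2 - C.t) ^ 2 = C.L - C.lam ^ 2 / C.p := by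
  have h1 : ∑ e ∈ C.E, (C.x e.1 * C.x e.2 - C.t) ^ 2
      = ∑ e ∈ C.E, (C.x e.1 ^ 2 * C.x e.2 ^ 2) - 2 * C.t * ∑ e ∈ C.E, C.x e.1 * C.x e.2
        + C.E.card * C.t ^ 2 := by
    rw [Finset.mul_sum, ← Finset.sum_sub_distrib]
    have : (C.E.card : ℝ) * C.t ^ 2 = ∑ e ∈ C.E, C.t ^ 2 := by simp
    rw [this, ← Finset.sum_add_distrib]
    exact Finset.sum_congr rfl fun e _ => by ring
  rw [h1, C.sum_xx, C.card_E]
  unfold L t
  have := C.p_pos
  field_simp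
  ring

/-- The exact identity for the deficiency. -/
theorem deficiency : (C.al - C.L) + ∑ e ∈ C.E, (C.x e.1 * C.x e.2 - C.t) ^ 2
    = C.al - C.lam ^ 2 / C.p := by
  rw [C.var_eq]; ring

theorem lam_sq_div : C.lam ^ 2 / C.p = C.p * C.t ^ 2 := by
  unfold t
  have := C.p_pos
  field_simp

theorem def_le : C.al - C.p * C.t ^ 2 ≤ C.D0 / C.p := by
  have h := C.hD
  have hp := C.p_pos
  rw [← C.lam_sq_div]
  rw [le_div_iff₀ hp]
  have : (C.al - C.lam ^ 2 / C.p) * C.p = C.al * C.p - C.lam ^ 2 := by field_simp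
  rw [this]
  exact h

theorem L_le : C.L ≤ C.al := by
  have := C.L_add_Inn; have := C.Inn_nonneg; linarith

theorem pt2_le : C.p * C.t ^ 2 ≤ C.al := by
  have h := C.var_eq
  have h2 : 0 ≤ ∑ e ∈ C.E, (C.x e.1 * C.x e.2 - C.t) ^ 2 :=
    Finset.sum_nonneg fun e _ => sq_nonneg _
  rw [h, C.lam_sq_div] at h2
  have := C.L_le
  linarith

theorem pt2_ge : 1 / 2 ≤ C.p * C.t ^ 2 := by
  have h := C.def_le
  have h6 := C.hp6
  have hp := C.p_pos
  have : C.D0 / C.p ≤ 1 / 6 := by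
    rw [div_le_iff₀ hp]; linarith
  have := C.al_ge
  linarith

theorem D0p_le : C.D0 / C.p ≤ 2 * C.D0 * C.t ^ 2 := by
  have hp := C.p_pos
  rw [div_le_iff₀ hp]
  have h := C.pt2_ge
  have hD := C.hD0
  nlinarith

theorem F1 : ∑ e ∈ C.E, (C.x e.1 * C.x e.2 - C.t) ^ 2 ≤ 2 * C.D0 * C.t ^ 2 := by
  have h := C.deficiency
  rw [C.lam_sq_div] at h
  have := C.L_le
  have := C.def_le
  have := C.D0p_le
  linarith

theorem F2 : C.Inn ≤ 2 * C.D0 * C.t ^ 2 := by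
  have h := C.var_eq
  rw [C.lam_sq_div] at h
  have h2 : 0 ≤ ∑ e ∈ C.E, (C.x e.1 * C.x e.2 - C.t) ^ 2 :=
    Finset.sum_nonneg fun e _ => sq_nonneg _
  have := C.L_add_Inn
  have := C.def_le
  have := C.D0p_le
  linarith

open Classical in
/-- ordered missing cross pairs -/
noncomputable def Mall : Finset (V × V) :=
  univ.filter (fun e => C.c e.1 ≠ C.c e.2 ∧ ¬ C.G.Adj e.1 e.2)

theorem mem_Mall {e : V × V} : e ∈ C.Mall ↔ C.c e.1 ≠ C.c e.2 ∧ ¬ C.G.Adj e.1 e.2 := by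
  simp [Mall]

noncomputable def Ms : ℝ := ∑ e ∈ C.Mall, C.x e.1 ^ 2 * C.x e.2 ^ 2

open Classical in
/-- weight of a class -/
noncomputable def yV (i : Fin (C.q + 1)) : ℝ := ∑ v ∈ univ.filter (fun v => C.c v = i), C.x v ^ 2

theorem sum_yV : ∑ i, C.yV i = 1 := by
  classical
  unfold yV
  rw [← C.hx1]
  exact Finset.sum_fiberwise univ C.c (fun v => C.x v ^ 2)

theorem F3_eq : ∑ i, C.yV i ^ 2 + C.Ms = 1 - C.L + C.Inn := by
  classical
  have h1 : ∑ e : V × V, C.x e.1 ^ 2 * C.x e.2 ^ 2 = 1 := by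
    rw [← Finset.univ_product_univ, Finset.sum_product]
    simp only [← Finset.mul_sum, ← Finset.sum_mul, C.hx1]
    norm_num
  have h2 : ∑ i, C.yV i ^ 2 = ∑ e ∈ univ.filter (fun e : V × V => C.c e.1 = C.c e.2),
      C.x e.1 ^ 2 * C.x e.2 ^ 2 := by
    have e1 : ∑ e ∈ univ.filter (fun e : V × V => C.c e.1 = C.c e.2), C.x e.1 ^ 2 * C.x e.2 ^ 2
        = ∑ u, ∑ v, if C.c u = C.c v then C.x u ^ 2 * C.x v ^ 2 else 0 := by
      rw [Finset.sum_filter, ← Finset.univ_product_univ, Finset.sum_product]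
    rw [e1]
    have e2 : ∀ u, (∑ v, if C.c u = C.c v then C.x u ^ 2 * C.x v ^ 2 else 0)
        = C.x u ^ 2 * C.yV (C.c u) := by
      intro u
      unfold yV
      rw [Finset.sum_filter, Finset.mul_sum]
      refine Finset.sum_congr rfl fun v _ => ?_
      by_cases h : C.c u = C.c v
      · rw [if_pos h, if_pos h.symm]
      · rw [if_neg h, if_neg (fun h' => h (Eq.symm h')), mul_zero]
    simp only [e2]
    have e3 : ∑ u, C.x u ^ 2 * C.yV (C.c u)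
        = ∑ i, ∑ u ∈ univ.filter (fun u => C.c u = i), C.x u ^ 2 * C.yV (C.c u) :=
      (Finset.sum_fiberwise univ C.c (fun u => C.x u ^ 2 * C.yV (C.c u))).symm
    rw [e3]
    refine Finset.sum_congr rfl fun i _ => ?_
    have : ∑ u ∈ univ.filter (fun u => C.c u = i), C.x u ^ 2 * C.yV (C.c u)
        = ∑ u ∈ univ.filter (fun u => C.c u = i), C.x u ^ 2 * C.yV i :=
      Finset.sum_congr rfl fun u hu => by rw [(Finset.mem_filter.mp hu).2]
    rw [this, ← Finset.sum_mul, sq]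
    rfl
  have h3 : ∑ e ∈ univ.filter (fun e : V × V => ¬ C.c e.1 = C.c e.2), C.x e.1 ^ 2 * C.x e.2 ^ 2
      = (C.L - C.Inn) + C.Ms := by
    have e1 : univ.filter (fun e : V × V => ¬ C.c e.1 = C.c e.2)
        = (C.E.filter (fun e => ¬ C.c e.1 = C.c e.2)) ∪ C.Mall := by
      ext e
      simp only [Finset.mem_filter, Finset.mem_univ, true_and, Finset.mem_union, C.mem_E,
        C.mem_Mall]
      tauto
    have e2 : Disjoint (C.E.filter (fun e => ¬ C.c e.1 = C.c e.2)) C.Mall := by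
      rw [Finset.disjoint_left]
      intro e he he'
      exact (C.mem_Mall.mp he').2 (C.mem_E.mp (Finset.mem_filter.mp he).1)
    rw [e1, Finset.sum_union e2]
    have e3 : C.L = C.Inn + ∑ e ∈ C.E.filter (fun e => ¬ C.c e.1 = C.c e.2),
        C.x e.1 ^ 2 * C.x e.2 ^ 2 := by
      unfold L Inn
      rw [Finset.sum_filter_add_sum_filter_not]
    unfold Ms
    linarith
  have h4 := Finset.sum_filter_add_sum_filter_not univ (fun e : V × V => C.c e.1 = C.c e.2)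
    (fun e => C.x e.1 ^ 2 * C.x e.2 ^ 2)
  rw [h1, ← h2, h3] at h4
  linarith

theorem Ms_nonneg : 0 ≤ C.Ms := by
  unfold Ms
  exact Finset.sum_nonneg fun e _ => by positivity

theorem F3_eq' : ∑ i, (C.yV i - 1 / ((C.q : ℝ) + 1)) ^ 2 + C.Ms = C.al - C.L + C.Inn := by
  have h := C.F3_eq
  have h1 : ∑ i, (C.yV i - 1 / ((C.q : ℝ) + 1)) ^ 2
      = ∑ i, C.yV i ^ 2 - 1 / ((C.q : ℝ) + 1) := by
    have e1 : ∑ i, (C.yV i - 1 / ((C.q : ℝ) + 1)) ^ 2
        = ∑ i, C.yV i ^ 2 - 2 * (1 / ((C.q : ℝ) + 1)) * ∑ i, C.yV i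
          + ∑ i : Fin (C.q + 1), (1 / ((C.q : ℝ) + 1)) ^ 2 := by
      rw [Finset.mul_sum, ← Finset.sum_sub_distrib, ← Finset.sum_add_distrib]
      exact Finset.sum_congr rfl fun i _ => by ring
    rw [e1, C.sum_yV]
    simp only [Finset.sum_const, Finset.card_univ, Fintype.card_fin, nsmul_eq_mul]
    push_cast
    have : (0:ℝ) < (C.q : ℝ) + 1 := by positivity
    field_simp
    ring
  rw [h1]
  unfold al
  linarith

theorem F3 : ∑ i, (C.yV i - 1 / ((C.q : ℝ) + 1)) ^ 2 + C.Ms ≤ 4 * C.D0 * C.t ^ 2 := by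
  have h := C.F3_eq'
  have h1 := C.var_eq
  rw [C.lam_sq_div] at h1
  have h2 : 0 ≤ ∑ e ∈ C.E, (C.x e.1 * C.x e.2 - C.t) ^ 2 :=
    Finset.sum_nonneg fun e _ => sq_nonneg _
  have := C.F2
  have := C.def_le
  have := C.D0p_le
  linarith

theorem Ms_le : C.Ms ≤ 4 * C.D0 * C.t ^ 2 := by
  have h := C.F3
  have : 0 ≤ ∑ i, (C.yV i - 1 / ((C.q : ℝ) + 1)) ^ 2 :=
    Finset.sum_nonneg fun e _ => sq_nonneg _
  linarith

theorem F7 (i : Fin (C.q + 1)) : |C.yV i - 1 / ((C.q : ℝ) + 1)| ≤ 2 * C.D0 * C.t := by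
  have h := C.F3
  have h1 : (C.yV i - 1 / ((C.q : ℝ) + 1)) ^ 2 ≤ ∑ i, (C.yV i - 1 / ((C.q : ℝ) + 1)) ^ 2 :=
    Finset.single_le_sum (f := fun i => (C.yV i - 1 / ((C.q : ℝ) + 1)) ^ 2)
      (fun i _ => sq_nonneg _) (Finset.mem_univ i)
  have h2 := C.Ms_nonneg
  have hD := C.hD0
  have ht := C.t_pos
  apply abs_le_of_sq_le_sq _ (by positivity)
  have : 4 * C.D0 * C.t ^ 2 ≤ (2 * C.D0 * C.t) ^ 2 := by
    have : C.D0 ≤ C.D0 ^ 2 := by nlinarith
    nlinarith [sq_nonneg C.t]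
  linarith

theorem F4 {u v : V} (h : C.G.Adj u v) : C.x u * C.x v ≤ 3 * C.D0 * C.t := by
  have h1 : (C.x u * C.x v - C.t) ^ 2 ≤ ∑ e ∈ C.E, (C.x e.1 * C.x e.2 - C.t) ^ 2 :=
    Finset.single_le_sum (f := fun e : V × V => (C.x e.1 * C.x e.2 - C.t) ^ 2)
      (fun i _ => sq_nonneg _) (C.mem_E.mpr (show C.G.Adj (u, v).1 (u, v).2 from h))
  have h2 := C.F1
  have hD := C.hD0
  have ht := C.t_pos
  have h3 : |C.x u * C.x v - C.t| ≤ 2 * C.D0 * C.t := by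
    apply abs_le_of_sq_le_sq _ (by positivity)
    have : 2 * C.D0 * C.t ^ 2 ≤ (2 * C.D0 * C.t) ^ 2 := by
      have : C.D0 ≤ C.D0 ^ 2 := by nlinarith
      nlinarith [sq_nonneg C.t]
    linarith
  have h4 := (abs_le.mp h3).2
  nlinarith

open Classical in
/-- exceptional ordered edges -/
noncomputable def F : Finset (V × V) :=
  C.E.filter (fun e => C.t ^ 2 / 100 < (C.x e.1 * C.x e.2 - C.t) ^ 2)

theorem F_sub : C.F ⊆ C.E := Finset.filter_subset _ _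

theorem card_F : (C.F.card : ℝ) ≤ 200 * C.D0 := by
  have h1 : (C.F.card : ℝ) * (C.t ^ 2 / 100) ≤ ∑ e ∈ C.F, (C.x e.1 * C.x e.2 - C.t) ^ 2 := by
    have : (C.F.card : ℝ) * (C.t ^ 2 / 100) = ∑ e ∈ C.F, (C.t ^ 2 / 100) := by simp
    rw [this]
    exact Finset.sum_le_sum fun e he => (Finset.mem_filter.mp he).2.le
  have h2 : ∑ e ∈ C.F, (C.x e.1 * C.x e.2 - C.t) ^ 2 ≤ ∑ e ∈ C.E, (C.x e.1 * C.x e.2 - C.t) ^ 2 :=
    Finset.sum_le_sum_of_subset_of_nonneg C.F_sub fun e _ _ => sq_nonneg _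
  have h3 := C.F1
  have ht : 0 < C.t ^ 2 := by have := C.t_pos; positivity
  have h4 : (C.F.card : ℝ) * (C.t ^ 2 / 100) ≤ (200 * C.D0) * (C.t ^ 2 / 100) := by linarith
  exact le_of_mul_le_mul_right h4 (by positivity)

theorem nonexc {u v : V} (h : C.G.Adj u v) (hF : (u, v) ∉ C.F) :
    9 / 10 * C.t ≤ C.x u * C.x v ∧ C.x u * C.x v ≤ 11 / 10 * C.t := by
  have h1 : (C.x u * C.x v - C.t) ^ 2 ≤ C.t ^ 2 / 100 := by
    by_contra h2
    push Not at h2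
    exact hF (Finset.mem_filter.mpr ⟨C.mem_E.mpr h, h2⟩)
  have ht := C.t_pos
  have h2 : |C.x u * C.x v - C.t| ≤ C.t / 10 := by
    apply abs_le_of_sq_le_sq _ (by positivity)
    nlinarith
  rw [abs_le] at h2
  constructor <;> linarith [h2.1, h2.2]

open Classical in
noncomputable def miss (v : V) : ℝ :=
  ∑ u ∈ univ.filter (fun u => C.c u ≠ C.c v ∧ ¬ C.G.Adj v u), C.x u ^ 2

theorem y_mul_miss (v : V) : C.x v ^ 2 * C.miss v ≤ C.Ms := by
  classical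
  unfold miss Ms
  rw [Finset.mul_sum]
  have : ∑ u ∈ univ.filter (fun u => C.c u ≠ C.c v ∧ ¬ C.G.Adj v u), C.x v ^ 2 * C.x u ^ 2
      = ∑ e ∈ (univ.filter (fun u => C.c u ≠ C.c v ∧ ¬ C.G.Adj v u)).image (fun u => (v, u)),
        C.x e.1 ^ 2 * C.x e.2 ^ 2 := by
    rw [Finset.sum_image]
    intro a _ b _ h
    exact (Prod.mk.inj h).2
  rw [this]
  refine Finset.sum_le_sum_of_subset_of_nonneg ?_ fun e _ _ => by positivity
  intro e he
  obtain ⟨u, hu, rfl⟩ := Finset.mem_image.mp he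
  have := (Finset.mem_filter.mp hu).2
  exact C.mem_Mall.mpr ⟨fun h => this.1 h.symm, this.2⟩

theorem small {K : ℝ} (hK : K ≤ Kc C.q C.D0) : K * C.t ≤ 1 := by
  have h := C.hth
  have ht := C.t_pos
  calc K * C.t ≤ Kc C.q C.D0 * C.t := mul_le_mul_of_nonneg_right hK ht.le
    _ ≤ 1 := h

theorem Kc_ge {a : ℝ} {k : ℕ} (ha : a ≤ 10 ^ 8) (hk : k ≤ 6) :
    a * ((C.q : ℝ) + 1) ^ 2 * C.D0 ^ k ≤ Kc C.q C.D0 := by
  unfold Kc
  have h1 : C.D0 ^ k ≤ C.D0 ^ 6 := pow_le_pow_right₀ C.hD0 hk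
  have hD : 0 ≤ C.D0 := by have := C.hD0; linarith
  gcongr

/-- Heavy vertices. -/
def Heavy (v : V) : Prop := C.t / 4 ≤ C.x v ^ 2

theorem miss_le {v : V} (hv : C.Heavy v) : C.miss v ≤ 16 * C.D0 * C.t := by
  have h1 := C.y_mul_miss v
  have h2 := C.Ms_le
  have ht := C.t_pos
  have hm : 0 ≤ C.miss v := Finset.sum_nonneg fun u _ => sq_nonneg _
  have h3 : C.t / 4 * C.miss v ≤ C.x v ^ 2 * C.miss v := mul_le_mul_of_nonneg_right hv hm
  have h4 : C.t / 4 * C.miss v ≤ C.t / 4 * (16 * C.D0 * C.t) := by nlinarith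
  exact le_of_mul_le_mul_left h4 (by positivity)

theorem nbr_le {u v : V} (hv : C.Heavy v) (h : C.G.Adj v u) : C.x u ^ 2 ≤ 36 * C.D0 ^ 2 * C.t := by
  have h1 := C.F4 h
  have ht := C.t_pos
  have hD := C.hD0
  have h0 : 0 ≤ C.x v * C.x u := mul_nonneg (C.hx0 v) (C.hx0 u)
  have h2 : (C.x v * C.x u) ^ 2 ≤ (3 * C.D0 * C.t) ^ 2 := pow_le_pow_left₀ h0 h1 2
  have h3 : C.t / 4 * C.x u ^ 2 ≤ C.x v ^ 2 * C.x u ^ 2 :=
    mul_le_mul_of_nonneg_right hv (sq_nonneg _)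
  have h4 : C.t / 4 * C.x u ^ 2 ≤ C.t / 4 * (36 * C.D0 ^ 2 * C.t) := by nlinarith
  exact le_of_mul_le_mul_left h4 (by positivity)

omit [Fintype V] in
theorem sum_union_le {f : V → ℝ} (hf : ∀ v, 0 ≤ f v) (A B : Finset V) [DecidableEq V] :
    ∑ u ∈ A ∪ B, f u ≤ ∑ u ∈ A, f u + ∑ u ∈ B, f u := by
  have h := Finset.sum_union_inter (s₁ := A) (s₂ := B) (f := f)
  have h2 : 0 ≤ ∑ u ∈ A ∩ B, f u := Finset.sum_nonneg fun u _ => hf u
  linarith

open Classical in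
/-- non-exceptional neighbours of `v` in the class `j` -/
noncomputable def A (v : V) (j : Fin (C.q + 1)) : Finset V :=
  univ.filter (fun u => C.c u = j ∧ C.G.Adj v u ∧ (v, u) ∉ C.F)

theorem mem_A {v u : V} {j : Fin (C.q + 1)} :
    u ∈ C.A v j ↔ C.c u = j ∧ C.G.Adj v u ∧ (v, u) ∉ C.F := by
  simp [A]

theorem A_ge {v : V} (hv : C.Heavy v) {j : Fin (C.q + 1)} (hj : j ≠ C.c v) :
    1 / (2 * ((C.q : ℝ) + 1)) ≤ ∑ u ∈ C.A v j, C.x u ^ 2 := by
  classical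
  have ht := C.t_pos
  have hD := C.hD0
  have hq := C.q_real
  have h1 : C.yV j ≤ ∑ u ∈ C.A v j, C.x u ^ 2 + C.miss v
      + ∑ u ∈ univ.filter (fun u => (v, u) ∈ C.F), C.x u ^ 2 := by
    unfold yV A miss
    have hsub : univ.filter (fun u => C.c u = j)
        ⊆ (univ.filter (fun u => C.c u = j ∧ C.G.Adj v u ∧ (v, u) ∉ C.F)
          ∪ univ.filter (fun u => C.c u ≠ C.c v ∧ ¬ C.G.Adj v u))
          ∪ univ.filter (fun u => (v, u) ∈ C.F) := by
      intro u hu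
      have hu' := (Finset.mem_filter.mp hu).2
      simp only [Finset.mem_union, Finset.mem_filter, Finset.mem_univ, true_and]
      by_cases h1 : C.G.Adj v u
      · by_cases h2 : (v, u) ∈ C.F
        · exact Or.inr h2
        · exact Or.inl (Or.inl ⟨hu', h1, h2⟩)
      · exact Or.inl (Or.inr ⟨by rw [hu']; exact hj, h1⟩)
    refine (Finset.sum_le_sum_of_subset_of_nonneg hsub fun _ _ _ => sq_nonneg _).trans ?_
    refine (sum_union_le (fun v => sq_nonneg (C.x v)) _ _).trans ?_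
    exact add_le_add_left (sum_union_le (fun v => sq_nonneg (C.x v)) _ _) _
  have h2 : ∑ u ∈ univ.filter (fun u => (v, u) ∈ C.F), C.x u ^ 2
      ≤ 200 * C.D0 * (36 * C.D0 ^ 2 * C.t) := by
    have e1 : ∑ u ∈ univ.filter (fun u => (v, u) ∈ C.F), C.x u ^ 2
        ≤ ((univ.filter (fun u => (v, u) ∈ C.F)).card : ℝ) * (36 * C.D0 ^ 2 * C.t) := by
      rw [← nsmul_eq_mul]
      refine Finset.sum_le_card_nsmul _ _ _ fun u hu => ?_
      have := (Finset.mem_filter.mp hu).2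
      exact C.nbr_le hv (C.mem_E.mp (C.F_sub this))
    have e2 : ((univ.filter (fun u => (v, u) ∈ C.F)).card : ℝ) ≤ 200 * C.D0 := by
      refine le_trans ?_ C.card_F
      have : (univ.filter (fun u => (v, u) ∈ C.F)).card ≤ C.F.card := by
        refine Finset.card_le_card_of_injOn (fun u => (v, u)) ?_ ?_
        · intro u hu
          exact (Finset.mem_filter.mp hu).2
        · intro a _ b _ h
          exact (Prod.mk.inj h).2
      exact_mod_cast this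
    exact e1.trans (mul_le_mul_of_nonneg_right e2 (by positivity))
  have h3 := C.miss_le hv
  have h4 := (abs_le.mp (C.F7 j)).1
  have hK : (20000 * ((C.q : ℝ) + 1) ^ 2 * C.D0 ^ 3) * C.t ≤ 1 :=
    C.small (C.Kc_ge (by norm_num) (by norm_num))
  have h5 : (7218 * C.D0 ^ 3) * C.t ≤ 1 / (2 * ((C.q : ℝ) + 1)) := by
    rw [le_div_iff₀ (by positivity)]
    have hq1 : ((C.q : ℝ) + 1) ≤ ((C.q : ℝ) + 1) ^ 2 := by nlinarith
    have hpos : 0 ≤ C.D0 ^ 3 * C.t := by positivity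
    nlinarith
  have h6 : 2 * C.D0 * C.t + 16 * C.D0 * C.t + 200 * C.D0 * (36 * C.D0 ^ 2 * C.t)
      ≤ (7218 * C.D0 ^ 3) * C.t := by
    have : C.D0 ≤ C.D0 ^ 3 := by nlinarith [sq_nonneg (C.D0 - 1)]
    nlinarith
  have h7 : 1 / ((C.q : ℝ) + 1) = 1 / (2 * ((C.q : ℝ) + 1)) + 1 / (2 * ((C.q : ℝ) + 1)) := by
    field_simp; ring
  linarith

/-- a non-exceptional edge between the neighbourhoods in two other classes -/
theorem exists_pair {v : V} (hv : C.Heavy v) {j l : Fin (C.q + 1)} (hj : j ≠ C.c v)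
    (hl : l ≠ C.c v) (hjl : j ≠ l) :
    ∃ u ∈ C.A v j, ∃ w ∈ C.A v l, C.G.Adj u w ∧ (u, w) ∉ C.F := by
  classical
  by_contra hno
  push Not at hno
  have ht := C.t_pos
  have hD := C.hD0
  have hq := C.q_real
  have h1 := C.A_ge hv hj
  have h2 := C.A_ge hv hl
  have hprod : (∑ u ∈ C.A v j, C.x u ^ 2) * (∑ w ∈ C.A v l, C.x w ^ 2)
      = ∑ e ∈ C.A v j ×ˢ C.A v l, C.x e.1 ^ 2 * C.x e.2 ^ 2 := by
    rw [Finset.sum_product, Finset.sum_mul_sum]
  have hsub : C.A v j ×ˢ C.A v l ⊆ C.Mall ∪ (C.F.filter (fun e => e ∈ C.A v j ×ˢ C.A v l)) := by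
    intro e he
    obtain ⟨he1, he2⟩ := Finset.mem_product.mp he
    have c1 : C.c e.1 = j := (Finset.mem_filter.mp he1).2.1
    have c2 : C.c e.2 = l := (Finset.mem_filter.mp he2).2.1
    by_cases hadj : C.G.Adj e.1 e.2
    · have := hno e.1 he1 e.2 he2 hadj
      exact Finset.mem_union_right _ (Finset.mem_filter.mpr ⟨this, he⟩)
    · refine Finset.mem_union_left _ (C.mem_Mall.mpr ⟨?_, hadj⟩)
      rw [c1, c2]; exact hjl
  have hle : ∑ e ∈ C.A v j ×ˢ C.A v l, C.x e.1 ^ 2 * C.x e.2 ^ 2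
      ≤ C.Ms + 200 * C.D0 * (36 * C.D0 ^ 2 * C.t) ^ 2 := by
    refine (Finset.sum_le_sum_of_subset_of_nonneg hsub fun _ _ _ => by positivity).trans ?_
    have e0 := Finset.sum_union_inter (s₁ := C.Mall)
      (s₂ := C.F.filter (fun e => e ∈ C.A v j ×ˢ C.A v l))
      (f := fun e : V × V => C.x e.1 ^ 2 * C.x e.2 ^ 2)
    have e1 : 0 ≤ ∑ e ∈ C.Mall ∩ C.F.filter (fun e => e ∈ C.A v j ×ˢ C.A v l),
      C.x e.1 ^ 2 * C.x e.2 ^ 2 := Finset.sum_nonneg fun e _ => by positivity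
    have e2 : ∑ e ∈ C.F.filter (fun e => e ∈ C.A v j ×ˢ C.A v l), C.x e.1 ^ 2 * C.x e.2 ^ 2
        ≤ 200 * C.D0 * (36 * C.D0 ^ 2 * C.t) ^ 2 := by
      have e3 : ∑ e ∈ C.F.filter (fun e => e ∈ C.A v j ×ˢ C.A v l), C.x e.1 ^ 2 * C.x e.2 ^ 2
          ≤ ((C.F.filter (fun e => e ∈ C.A v j ×ˢ C.A v l)).card : ℝ)
            * (36 * C.D0 ^ 2 * C.t) ^ 2 := by
        rw [← nsmul_eq_mul]
        refine Finset.sum_le_card_nsmul _ _ _ fun e he => ?_
        obtain ⟨he1, he2⟩ := Finset.mem_product.mp (Finset.mem_filter.mp he).2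
        have a1 := C.nbr_le hv (Finset.mem_filter.mp he1).2.2.1
        have a2 := C.nbr_le hv (Finset.mem_filter.mp he2).2.2.1
        calc C.x e.1 ^ 2 * C.x e.2 ^ 2
            ≤ (36 * C.D0 ^ 2 * C.t) * (36 * C.D0 ^ 2 * C.t) :=
              mul_le_mul a1 a2 (sq_nonneg _) (by positivity)
          _ = (36 * C.D0 ^ 2 * C.t) ^ 2 := by ring
      refine e3.trans (mul_le_mul_of_nonneg_right ?_ (sq_nonneg _))
      refine le_trans ?_ C.card_F
      exact_mod_cast Finset.card_le_card (Finset.filter_subset _ _)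
    unfold Ms
    linarith
  have hlow : 1 / (2 * ((C.q : ℝ) + 1)) * (1 / (2 * ((C.q : ℝ) + 1)))
      ≤ (∑ u ∈ C.A v j, C.x u ^ 2) * (∑ w ∈ C.A v l, C.x w ^ 2) :=
    mul_le_mul h1 h2 (by positivity) (le_trans (by positivity) h1)
  have hMs := C.Ms_le
  rw [hprod] at hlow
  have hK : (2000 * ((C.q : ℝ) + 1) ^ 2 * C.D0 ^ 3) * C.t ≤ 1 :=
    C.small (C.Kc_ge (by norm_num) (by norm_num))
  have hfin : 1 / (2 * ((C.q : ℝ) + 1)) * (1 / (2 * ((C.q : ℝ) + 1)))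
      ≤ 4 * C.D0 * C.t ^ 2 + 200 * C.D0 * (36 * C.D0 ^ 2 * C.t) ^ 2 := by linarith
  have hq1 : ((C.q : ℝ) + 1) ≤ ((C.q : ℝ) + 1) ^ 2 := by nlinarith
  -- (2000 (q+1) D0^3 t) ≤ 1
  have hK1 : 2000 * ((C.q : ℝ) + 1) * C.D0 ^ 3 * C.t ≤ 1 := by
    have hpos : 0 ≤ C.D0 ^ 3 * C.t := by positivity
    nlinarith
  have hK2 : (2000 * ((C.q : ℝ) + 1) * C.D0 ^ 3 * C.t) ^ 2 ≤ 1 := by
    have : 0 ≤ 2000 * ((C.q : ℝ) + 1) * C.D0 ^ 3 * C.t := by positivity
    nlinarith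
  have hmul : 1 ≤ 4 * ((C.q : ℝ) + 1) ^ 2
      * (4 * C.D0 * C.t ^ 2 + 200 * C.D0 * (36 * C.D0 ^ 2 * C.t) ^ 2) := by
    have e : 1 / (2 * ((C.q : ℝ) + 1)) * (1 / (2 * ((C.q : ℝ) + 1))) * (4 * ((C.q : ℝ) + 1) ^ 2)
        = 1 := by field_simp; norm_num
    have hp4 : 0 < 4 * ((C.q : ℝ) + 1) ^ 2 := by positivity
    calc (1:ℝ) = 1 / (2 * ((C.q : ℝ) + 1)) * (1 / (2 * ((C.q : ℝ) + 1)))
          * (4 * ((C.q : ℝ) + 1) ^ 2) := e.symm
      _ ≤ (4 * C.D0 * C.t ^ 2 + 200 * C.D0 * (36 * C.D0 ^ 2 * C.t) ^ 2)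
          * (4 * ((C.q : ℝ) + 1) ^ 2) := mul_le_mul_of_nonneg_right hfin hp4.le
      _ = _ := by ring
  have hD5 : C.D0 ≤ C.D0 ^ 6 := by
    calc C.D0 = C.D0 ^ 1 := (pow_one _).symm
      _ ≤ C.D0 ^ 6 := pow_le_pow_right₀ hD (by norm_num)
  have hD6 : C.D0 ^ 5 ≤ C.D0 ^ 6 := pow_le_pow_right₀ hD (by norm_num)
  have e1 : 4 * ((C.q : ℝ) + 1) ^ 2
      * (4 * C.D0 * C.t ^ 2 + 200 * C.D0 * (36 * C.D0 ^ 2 * C.t) ^ 2)
      = (((C.q : ℝ) + 1) ^ 2 * C.t ^ 2) * (16 * C.D0 + 1036800 * C.D0 ^ 5) := by ring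
  have e2 : (2000 * ((C.q : ℝ) + 1) * C.D0 ^ 3 * C.t) ^ 2
      = (((C.q : ℝ) + 1) ^ 2 * C.t ^ 2) * (4000000 * C.D0 ^ 6) := by ring
  rw [e1] at hmul
  rw [e2] at hK2
  have hpos : 0 < ((C.q : ℝ) + 1) ^ 2 * C.t ^ 2 := by positivity
  have h16 : 16 * C.D0 + 1036800 * C.D0 ^ 5 ≤ 1036816 * C.D0 ^ 6 := by linarith
  have hD60 : 0 < C.D0 ^ 6 := by positivity
  nlinarith

/-- two classes different from a given one and from each other -/
theorem exists_two (i : Fin (C.q + 1)) : ∃ j l : Fin (C.q + 1), j ≠ i ∧ l ≠ i ∧ j ≠ l := by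
  classical
  have hq := C.hq
  have h1 : 1 < (univ.erase i : Finset (Fin (C.q + 1))).card := by
    rw [Finset.card_erase_of_mem (Finset.mem_univ _), Finset.card_univ, Fintype.card_fin]
    omega
  obtain ⟨j, hj, l, hl, hjl⟩ := Finset.one_lt_card.mp h1
  exact ⟨j, l, (Finset.mem_erase.mp hj).1, (Finset.mem_erase.mp hl).1, hjl⟩

theorem heavy_bounds {v : V} (hv : C.Heavy v) :
    7 / 10 * C.t ≤ C.x v ^ 2 ∧ C.x v ^ 2 ≤ 14 / 10 * C.t := by
  obtain ⟨j, l, hj, hl, hjl⟩ := C.exists_two (C.c v)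
  obtain ⟨u, hu, w, hw, huw, hF⟩ := C.exists_pair hv hj hl hjl
  have hu' := C.mem_A.mp hu
  have hw' := C.mem_A.mp hw
  have ht := C.t_pos
  obtain ⟨a1, a2⟩ := C.nonexc hu'.2.1 hu'.2.2
  obtain ⟨b1, b2⟩ := C.nonexc hw'.2.1 hw'.2.2
  obtain ⟨d1, d2⟩ := C.nonexc huw hF
  set a := C.x v * C.x u with ha
  set b := C.x v * C.x w with hb
  set d := C.x u * C.x w with hd
  have hab : C.x v ^ 2 * d = a * b := by rw [ha, hb, hd]; ring
  have hdpos : 0 < d := by linarith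
  constructor
  · have h1 : (9 / 10 * C.t) * (9 / 10 * C.t) ≤ a * b :=
      mul_le_mul a1 b1 (by positivity) (by linarith)
    by_contra hlt
    push Not at hlt
    have h2 : C.x v ^ 2 * d < 7 / 10 * C.t * d := mul_lt_mul_of_pos_right hlt hdpos
    have h3 : 7 / 10 * C.t * d ≤ 7 / 10 * C.t * (11 / 10 * C.t) :=
      mul_le_mul_of_nonneg_left d2 (by positivity)
    nlinarith
  · have h1 : a * b ≤ (11 / 10 * C.t) * (11 / 10 * C.t) :=
      mul_le_mul a2 b2 (by linarith) (by positivity)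
    by_contra hlt
    push Not at hlt
    have h2 : 14 / 10 * C.t * d < C.x v ^ 2 * d := mul_lt_mul_of_pos_right hlt hdpos
    have h3 : 14 / 10 * C.t * (9 / 10 * C.t) ≤ 14 / 10 * C.t * d :=
      mul_le_mul_of_nonneg_left d1 (by positivity)
    nlinarith

/-- edges at a light vertex are exceptional -/
theorem light_exc {u v : V} (hu : ¬ C.Heavy u) (h : C.G.Adj u v) : (u, v) ∈ C.F := by
  by_contra hF
  obtain ⟨a1, a2⟩ := C.nonexc h hF
  have ht := C.t_pos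
  unfold Heavy at hu
  push Not at hu
  have h0 : 0 ≤ C.x u * C.x v := mul_nonneg (C.hx0 u) (C.hx0 v)
  have h1 : (9 / 10 * C.t) ^ 2 ≤ C.x u ^ 2 * C.x v ^ 2 := by
    have := pow_le_pow_left₀ (by positivity) a1 2
    rwa [mul_pow (C.x u)] at this
  have hxv : 0 < C.x v ^ 2 := by
    rcases (sq_nonneg (C.x v)).lt_or_eq with h | h
    · exact h
    · rw [← h, mul_zero] at h1
      have : 0 < (9 / 10 * C.t) ^ 2 := by positivity
      linarith
  have h2 : C.x u ^ 2 * C.x v ^ 2 < C.t / 4 * C.x v ^ 2 := mul_lt_mul_of_pos_right hu hxv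
  have h3 : C.t * (81 / 25 * C.t) < C.t * C.x v ^ 2 := by nlinarith
  have h4 : 81 / 25 * C.t < C.x v ^ 2 := lt_of_mul_lt_mul_left h3 ht.le
  have hheavy : C.Heavy v := by
    unfold Heavy; linarith
  have := (C.heavy_bounds hheavy).2
  linarith

theorem light_exc' {u v : V} (hv : ¬ C.Heavy v) (h : C.G.Adj u v) : (u, v) ∈ C.F := by
  have h1 := C.light_exc hv h.symm
  have h2 := (Finset.mem_filter.mp h1).2
  refine Finset.mem_filter.mpr ⟨C.mem_E.mpr h, ?_⟩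
  rw [mul_comm] at h2
  exact h2

end Ctx

end MP5532fa
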