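import Pool.Agent.Work.MP_5532fa_co.Struct1

/-!
# MP_5532fa_co : stability analysis, part 2 (structure)
-/

open Finset

namespace MP5532fa

namespace Ctx

variable {V : Type*} [Fintype V] (C : Ctx V)

open Classical in
/-- heavy vertices of class `i` -/
noncomputable def T (i : Fin (C.q + 1)) : Finset V := univ.filter (fun v => C.Heavy v ∧ C.c v = i)

theorem mem_T {v : V} {i : Fin (C.q + 1)} : v ∈ C.T i ↔ C.Heavy v ∧ C.c v = i := by simp [T]

open Classical in
/-- ordered missing pairs of heavy vertices -/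
noncomputable def Mo : Finset (V × V) :=
  univ.filter (fun e => C.Heavy e.1 ∧ C.Heavy e.2 ∧ C.c e.1 ≠ C.c e.2 ∧ ¬ C.G.Adj e.1 e.2)

theorem mem_Mo {e : V × V} : e ∈ C.Mo ↔
    C.Heavy e.1 ∧ C.Heavy e.2 ∧ C.c e.1 ≠ C.c e.2 ∧ ¬ C.G.Adj e.1 e.2 := by simp [Mo]

open Classical in
/-- ordered edges with a light end -/
noncomputable def Qo : Finset (V × V) :=
  univ.filter (fun e => C.G.Adj e.1 e.2 ∧ ¬ (C.Heavy e.1 ∧ C.Heavy e.2))

theorem mem_Qo {e : V × V} : e ∈ C.Qo ↔ C.G.Adj e.1 e.2 ∧ ¬ (C.Heavy e.1 ∧ C.Heavy e.2) := by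
  simp [Qo]

theorem Mo_symm {u v : V} (h : (u, v) ∈ C.Mo) : (v, u) ∈ C.Mo := by
  obtain ⟨h1, h2, h3, h4⟩ := C.mem_Mo.mp h
  exact C.mem_Mo.mpr ⟨h2, h1, fun h => h3 h.symm, fun h => h4 h.symm⟩

theorem Qo_symm {u v : V} (h : (u, v) ∈ C.Qo) : (v, u) ∈ C.Qo := by
  obtain ⟨h1, h2⟩ := C.mem_Qo.mp h
  exact C.mem_Qo.mpr ⟨h1.symm, fun h => h2 ⟨h.2, h.1⟩⟩

theorem Qo_sub_F : C.Qo ⊆ C.F := by
  intro e he
  obtain ⟨h1, h2⟩ := C.mem_Qo.mp he
  by_cases h : C.Heavy e.1
  · exact C.light_exc' (fun h' => h2 ⟨h, h'⟩) h1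
  · exact C.light_exc h h1

theorem card_Qo : (C.Qo.card : ℝ) ≤ 200 * C.D0 :=
  le_trans (by exact_mod_cast Finset.card_le_card C.Qo_sub_F) C.card_F

theorem Mo_sub : C.Mo ⊆ C.Mall := by
  intro e he
  obtain ⟨_, _, h3, h4⟩ := C.mem_Mo.mp he
  exact C.mem_Mall.mpr ⟨h3, h4⟩

theorem card_Mo : (C.Mo.card : ℝ) ≤ 9 * C.D0 := by
  have ht := C.t_pos
  have h1 : (C.Mo.card : ℝ) * (49 / 100 * C.t ^ 2) ≤ C.Ms := by
    have e1 : (C.Mo.card : ℝ) * (49 / 100 * C.t ^ 2) = ∑ e ∈ C.Mo, (49 / 100 * C.t ^ 2) := by simp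
    rw [e1]
    refine le_trans (Finset.sum_le_sum fun e he => ?_)
      (Finset.sum_le_sum_of_subset_of_nonneg C.Mo_sub fun e _ _ => by positivity)
    obtain ⟨a1, a2, _, _⟩ := C.mem_Mo.mp he
    have b1 := (C.heavy_bounds a1).1
    have b2 := (C.heavy_bounds a2).1
    have := mul_le_mul b1 b2 (by positivity) (sq_nonneg _)
    nlinarith
  have h2 := C.Ms_le
  have hD := C.hD0
  have ht2 : 0 < C.t ^ 2 := by positivity
  have h3 : (C.Mo.card : ℝ) * (49 / 100 * C.t ^ 2) ≤ (9 * C.D0) * (49 / 100 * C.t ^ 2) := by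
    nlinarith
  exact le_of_mul_le_mul_right h3 (by positivity)

theorem card_MQ : (C.Mo.card : ℝ) + C.Qo.card ≤ 209 * C.D0 := by
  have := C.card_Mo; have := C.card_Qo; linarith

open Classical in
theorem light_weight : ∑ v ∈ univ.filter (fun v => ¬ C.Heavy v), C.x v ^ 2 ≤ 50 * C.D0 * C.t := by
  have ht := C.t_pos
  -- vertices with a nonzero entry have a neighbour
  set S := (univ.filter (fun v => ¬ C.Heavy v)).filter (fun v => C.x v ≠ 0) with hS
  have h1 : ∑ v ∈ univ.filter (fun v => ¬ C.Heavy v), C.x v ^ 2 = ∑ v ∈ S, C.x v ^ 2 := by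
    rw [hS]
    symm
    apply Finset.sum_filter_of_ne
    intro v _ h
    intro h0
    rw [h0] at h
    simp at h
  have hS' : ∀ v ∈ S, ¬ C.Heavy v ∧ C.x v ≠ 0 := by
    intro v hv
    have := Finset.mem_filter.mp hv
    exact ⟨(Finset.mem_filter.mp this.1).2, this.2⟩
  have h2 : S.card ≤ C.Qo.card := by
    have hex : ∀ v ∈ S, ∃ u, C.G.Adj v u := by
      intro v hv
      by_contra hno
      push Not at hno
      have h := C.heig v
      have h0 : (∑ u, if C.G.Adj v u then C.x u else 0) = 0 :=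
        Finset.sum_eq_zero fun u _ => by rw [if_neg (hno u)]
      rw [h0] at h
      have hl := C.hlam
      rcases mul_eq_zero.mp h.symm with h | h
      · linarith
      · exact (hS' v hv).2 h
    choose! g hg using hex
    refine Finset.card_le_card_of_injOn (fun v => (v, g v)) ?_ ?_
    · intro v hv
      exact C.mem_Qo.mpr ⟨hg v hv, fun h => (hS' v hv).1 h.1⟩
    · intro a _ b _ h
      exact (Prod.mk.inj h).1
  rw [h1]
  have h3 : ∑ v ∈ S, C.x v ^ 2 ≤ (S.card : ℝ) * (C.t / 4) := by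
    rw [← nsmul_eq_mul]
    refine Finset.sum_le_card_nsmul _ _ _ fun v hv => ?_
    have := (hS' v hv).1
    unfold Heavy at this
    push Not at this
    exact this.le
  have h4 : (S.card : ℝ) ≤ 200 * C.D0 := le_trans (by exact_mod_cast h2) C.card_Qo
  have := mul_le_mul_of_nonneg_right h4 (show 0 ≤ C.t / 4 by positivity)
  linarith

theorem T_weight (i : Fin (C.q + 1)) :
    |∑ v ∈ C.T i, C.x v ^ 2 - 1 / ((C.q : ℝ) + 1)| ≤ 52 * C.D0 * C.t := by
  classical
  have h1 : C.yV i = ∑ v ∈ C.T i, C.x v ^ 2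
      + ∑ v ∈ (univ.filter (fun v => C.c v = i)).filter (fun v => ¬ C.Heavy v), C.x v ^ 2 := by
    unfold yV T
    rw [← Finset.sum_filter_add_sum_filter_not (univ.filter (fun v => C.c v = i)) C.Heavy]
    congr 1
    rw [Finset.filter_filter]
    refine Finset.sum_congr (Finset.filter_congr fun v _ => ?_) fun _ _ => rfl
    exact and_comm
  have h2 : ∑ v ∈ (univ.filter (fun v => C.c v = i)).filter (fun v => ¬ C.Heavy v), C.x v ^ 2
      ≤ 50 * C.D0 * C.t := by
    refine le_trans (Finset.sum_le_sum_of_subset_of_nonneg ?_ fun _ _ _ => sq_nonneg _)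
      C.light_weight
    intro v hv
    exact Finset.mem_filter.mpr ⟨Finset.mem_univ _, (Finset.mem_filter.mp hv).2⟩
  have h3 : 0 ≤ ∑ v ∈ (univ.filter (fun v => C.c v = i)).filter (fun v => ¬ C.Heavy v),
      C.x v ^ 2 := Finset.sum_nonneg fun _ _ => sq_nonneg _
  have h4 := C.F7 i
  rw [abs_le] at h4 ⊢
  constructor <;> linarith [h4.1, h4.2]

theorem card_T_le (i : Fin (C.q + 1)) : ((C.T i).card : ℝ) * C.t ≤ 10 / 7 := by
  classical
  have h1 : ((C.T i).card : ℝ) * (7 / 10 * C.t) ≤ ∑ v ∈ C.T i, C.x v ^ 2 := by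
    have : ((C.T i).card : ℝ) * (7 / 10 * C.t) = ∑ v ∈ C.T i, (7 / 10 * C.t) := by simp
    rw [this]
    exact Finset.sum_le_sum fun v hv => (C.heavy_bounds (C.mem_T.mp hv).1).1
  have h2 : ∑ v ∈ C.T i, C.x v ^ 2 ≤ 1 := by
    rw [← C.hx1]
    exact Finset.sum_le_sum_of_subset_of_nonneg (Finset.subset_univ _) fun _ _ _ => sq_nonneg _
  linarith

theorem card_T_ge (i : Fin (C.q + 1)) :
    1 / (3 * ((C.q : ℝ) + 1)) ≤ ((C.T i).card : ℝ) * C.t := by
  classical
  have ht := C.t_pos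
  have hD := C.hD0
  have hq := C.q_real
  have h1 : ∑ v ∈ C.T i, C.x v ^ 2 ≤ ((C.T i).card : ℝ) * (14 / 10 * C.t) := by
    rw [← nsmul_eq_mul]
    exact Finset.sum_le_card_nsmul _ _ _ fun v hv => (C.heavy_bounds (C.mem_T.mp hv).1).2
  have h2 := (abs_le.mp (C.T_weight i)).1
  have hK : (1000 * ((C.q : ℝ) + 1) ^ 2 * C.D0 ^ 1) * C.t ≤ 1 :=
    C.small (C.Kc_ge (by norm_num) (by norm_num))
  have h5 : 52 * C.D0 * C.t ≤ 1 / (2 * ((C.q : ℝ) + 1)) - 1 / (100 * ((C.q : ℝ) + 1)) := by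
    have e : 1 / (2 * ((C.q : ℝ) + 1)) - 1 / (100 * ((C.q : ℝ) + 1))
        = (49 / 100) / ((C.q : ℝ) + 1) := by field_simp; norm_num
    rw [e, le_div_iff₀ (by positivity)]
    have hq1 : ((C.q : ℝ) + 1) ≤ ((C.q : ℝ) + 1) ^ 2 := by nlinarith
    have hpos : 0 ≤ C.D0 * C.t := by positivity
    nlinarith
  have e : 1 / ((C.q : ℝ) + 1) = 1 / (2 * ((C.q : ℝ) + 1)) + 1 / (2 * ((C.q : ℝ) + 1)) := by
    field_simp; ring
  have e2 : 1 / (3 * ((C.q : ℝ) + 1)) * (14 / 10) = 1 / (2 * ((C.q : ℝ) + 1))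
      - (1 / 30) / ((C.q : ℝ) + 1) := by field_simp; norm_num
  have e3 : 0 ≤ (1 / 30) / ((C.q : ℝ) + 1) := by positivity
  have e4 : 0 ≤ 1 / (100 * ((C.q : ℝ) + 1)) := by positivity
  linarith

open Classical in
/-- typical vertices of class `i` -/
noncomputable def Ty (i : Fin (C.q + 1)) : Finset V :=
  (C.T i).filter (fun v => ∀ u, (v, u) ∉ C.Mo ∧ (v, u) ∉ C.Qo)

theorem mem_Ty {v : V} {i : Fin (C.q + 1)} :
    v ∈ C.Ty i ↔ (C.Heavy v ∧ C.c v = i) ∧ ∀ u, (v, u) ∉ C.Mo ∧ (v, u) ∉ C.Qo := by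
  simp [Ty, mem_T]

theorem card_Ty_ge (i : Fin (C.q + 1)) :
    1 / (4 * ((C.q : ℝ) + 1)) ≤ ((C.Ty i).card : ℝ) * C.t := by
  classical
  have ht := C.t_pos
  have hD := C.hD0
  have hq := C.q_real
  have h1 : (C.T i).card ≤ (C.Ty i).card + (C.Mo.card + C.Qo.card) := by
    have e0 : (C.T i).card = (C.Ty i).card
        + ((C.T i).filter (fun v => ¬ ∀ u, (v, u) ∉ C.Mo ∧ (v, u) ∉ C.Qo)).card := by
      unfold Ty
      exact (Finset.card_filter_add_card_filter_not _).symm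
    have e1 : ((C.T i).filter (fun v => ¬ ∀ u, (v, u) ∉ C.Mo ∧ (v, u) ∉ C.Qo)).card
        ≤ (C.Mo ∪ C.Qo).card := by
      have hex : ∀ v ∈ (C.T i).filter (fun v => ¬ ∀ u, (v, u) ∉ C.Mo ∧ (v, u) ∉ C.Qo),
          ∃ u, (v, u) ∈ C.Mo ∪ C.Qo := by
        intro v hv
        have := (Finset.mem_filter.mp hv).2
        push Not at this
        obtain ⟨u, hu⟩ := this
        refine ⟨u, Finset.mem_union.mpr ?_⟩
        by_cases h : (v, u) ∈ C.Mo
        · exact Or.inl h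
        · exact Or.inr (hu h)
      choose! g hg using hex
      refine Finset.card_le_card_of_injOn (fun v => (v, g v)) ?_ ?_
      · intro v hv
        exact hg v hv
      · intro a _ b _ h
        exact (Prod.mk.inj h).1
    have e2 := Finset.card_union_le C.Mo C.Qo
    omega
  have h2 : ((C.T i).card : ℝ) ≤ (C.Ty i).card + (C.Mo.card + C.Qo.card) := by exact_mod_cast h1
  have h3 := C.card_MQ
  have h4 := C.card_T_ge i
  have hK : (10000 * ((C.q : ℝ) + 1) ^ 2 * C.D0 ^ 1) * C.t ≤ 1 :=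
    C.small (C.Kc_ge (by norm_num) (by norm_num))
  have h5 : 209 * C.D0 * C.t ≤ 1 / (3 * ((C.q : ℝ) + 1)) - 1 / (4 * ((C.q : ℝ) + 1)) := by
    have e : 1 / (3 * ((C.q : ℝ) + 1)) - 1 / (4 * ((C.q : ℝ) + 1))
        = (1 / 12) / ((C.q : ℝ) + 1) := by field_simp; norm_num
    rw [e, le_div_iff₀ (by positivity)]
    have hq1 : ((C.q : ℝ) + 1) ≤ ((C.q : ℝ) + 1) ^ 2 := by nlinarith
    have hpos : 0 ≤ C.D0 * C.t := by positivity
    nlinarith
  have h6 : ((C.T i).card : ℝ) * C.t ≤ (C.Ty i).card * C.t + 209 * C.D0 * C.t := by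
    have : (C.T i).card ≤ (C.Ty i).card + 209 * C.D0 := by linarith
    nlinarith
  linarith

theorem Ty_nonempty (i : Fin (C.q + 1)) : (C.Ty i).Nonempty := by
  rw [Finset.nonempty_iff_ne_empty]
  intro h
  have := C.card_Ty_ge i
  rw [h, Finset.card_empty, Nat.cast_zero, zero_mul] at this
  have hq := C.q_real
  have h2 : 0 < 1 / (4 * ((C.q : ℝ) + 1)) := by positivity
  linarith

theorem typical_adj {v w : V} {i : Fin (C.q + 1)} (hv : v ∈ C.Ty i) (hw : C.Heavy w)
    (hc : C.c w ≠ i) : C.G.Adj v w := by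
  obtain ⟨⟨h1, h2⟩, h3⟩ := C.mem_Ty.mp hv
  by_contra h
  exact (h3 w).1 (C.mem_Mo.mpr ⟨h1, hw, by rw [h2]; exact fun h => hc h.symm, h⟩)

/-- heavy classes are independent -/
theorem indep {u v : V} (hu : C.Heavy u) (hv : C.Heavy v) (hc : C.c u = C.c v) :
    ¬ C.G.Adj u v := by
  classical
  intro hadj
  choose w hw using C.Ty_nonempty
  set g : Fin (C.q + 1) → V := fun j => if j = C.c u then u else w j with hg
  have hgc : ∀ j, C.c (g j) = j := by
    intro j
    by_cases h : j = C.c u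
    · simp only [hg, h, if_true]
    · simp only [hg, h, if_false]
      exact (C.mem_Ty.mp (hw j)).1.2
  have hgH : ∀ j, C.Heavy (g j) := by
    intro j
    by_cases h : j = C.c u
    · simp only [hg, h, if_true]; exact hu
    · simp only [hg, h, if_false]
      exact (C.mem_Ty.mp (hw j)).1.1
  have hginj : Function.Injective g := fun a b h => by
    rw [← hgc a, ← hgc b, h]
  have hgadj : ∀ j l, j ≠ l → C.G.Adj (g j) (g l) := by
    intro j l hjl
    by_cases h : j = C.c u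
    · have hl : l ≠ C.c u := fun h' => hjl (h.trans h'.symm)
      have : g l = w l := by simp only [hg, hl, if_false]
      rw [this]
      exact (C.typical_adj (hw l) (hgH j) (by rw [hgc]; exact hjl)).symm
    · have : g j = w j := by simp only [hg, h, if_false]
      rw [this]
      exact C.typical_adj (hw j) (hgH l) (by rw [hgc]; exact hjl.symm)
  have hvadj : ∀ j, C.G.Adj v (g j) := by
    intro j
    by_cases h : j = C.c u
    · simp only [hg, h, if_true]; exact hadj.symm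
    · simp only [hg, h, if_false]
      exact (C.typical_adj (hw j) hv (by rw [← hc]; exact fun h' => h h'.symm)).symm
  have hcl : C.G.IsNClique (C.q + 1) (univ.image g) := by
    rw [SimpleGraph.isNClique_iff, SimpleGraph.isClique_iff]
    constructor
    · intro a ha b hb hab
      obtain ⟨j, _, rfl⟩ := Finset.mem_image.mp (Finset.mem_coe.mp ha)
      obtain ⟨l, _, rfl⟩ := Finset.mem_image.mp (Finset.mem_coe.mp hb)
      exact hgadj j l (fun h => hab (by rw [h]))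
    · rw [Finset.card_image_of_injective _ hginj, Finset.card_univ, Fintype.card_fin]
  refine C.free (insert v (univ.image g)) (hcl.insert ?_)
  intro b hb
  obtain ⟨j, _, rfl⟩ := Finset.mem_image.mp hb
  exact hvadj j

end Ctx

end MP5532fa
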