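import Pool.Agent.Work.MP_5532fa_co.Struct2

/-!
# MP_5532fa_co : stability analysis, part 3 (precise estimates)
-/

open Finset

namespace MP5532fa

namespace Ctx

variable {V : Type*} [Fintype V] (C : Ctx V)

/-- square root of `t` -/
noncomputable def s : ℝ := Real.sqrt C.t

theorem s_pos : 0 < C.s := Real.sqrt_pos.mpr C.t_pos

theorem s_sq : C.s * C.s = C.t := Real.mul_self_sqrt C.t_pos.le

theorem x_le (v : V) : C.x v ≤ 12 / 10 * C.s := by
  have hs := C.s_pos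
  have hs2 := C.s_sq
  have ht := C.t_pos
  have h : C.x v ^ 2 ≤ 14 / 10 * C.t := by
    by_cases h : C.Heavy v
    · exact (C.heavy_bounds h).2
    · unfold Heavy at h
      push Not at h
      linarith
  apply le_of_sq_le_sq _ (by positivity)
  nlinarith
  

theorem one_le_lam : 1 ≤ 2 * C.t * C.lam := by
  have h := C.pt2_ge
  rw [C.lam_eq]
  nlinarith

theorem le_of_lam_mul {a b : ℝ} (hb : 0 ≤ b) (h : C.lam * a ≤ b) : a ≤ 2 * C.t * b := by
  have h1 := C.one_le_lam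
  have hl := C.hlam
  have ht := C.t_pos
  by_cases ha : a ≤ 0
  · have : 0 ≤ 2 * C.t * b := by positivity
    linarith
  · push Not at ha
    have h2 : a ≤ 2 * C.t * C.lam * a := by nlinarith
    have h3 : 2 * C.t * (C.lam * a) ≤ 2 * C.t * b := mul_le_mul_of_nonneg_left h (by positivity)
    linarith

open Classical in
/-- sum of the heavy entries outside the class `i` -/
noncomputable def S (i : Fin (C.q + 1)) : ℝ :=
  ∑ u ∈ univ.filter (fun u => C.Heavy u ∧ C.c u ≠ i), C.x u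

open Classical in
theorem heavy_eq {v : V} (hv : C.Heavy v) :
    C.lam * C.x v + ∑ u ∈ univ.filter (fun u => (v, u) ∈ C.Mo), C.x u
      = C.S (C.c v) + ∑ u ∈ univ.filter (fun u => (v, u) ∈ C.Qo), C.x u := by
  rw [← C.heig v, ← Finset.sum_filter]
  have h1 : ∑ u ∈ univ.filter (fun u => C.G.Adj v u), C.x u
      = ∑ u ∈ univ.filter (fun u => C.G.Adj v u ∧ C.Heavy u), C.x u
        + ∑ u ∈ univ.filter (fun u => (v, u) ∈ C.Qo), C.x u := by
    rw [← Finset.sum_filter_add_sum_filter_not (univ.filter (fun u => C.G.Adj v u)) C.Heavy,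
      Finset.filter_filter, Finset.filter_filter]
    congr 1
    refine Finset.sum_congr (Finset.filter_congr fun u _ => ?_) fun _ _ => rfl
    rw [C.mem_Qo]
    constructor
    · rintro ⟨a, b⟩; exact ⟨a, fun h => b h.2⟩
    · rintro ⟨a, b⟩; exact ⟨a, fun h => b ⟨hv, h⟩⟩
  have h2 : C.S (C.c v) = ∑ u ∈ univ.filter (fun u => C.G.Adj v u ∧ C.Heavy u), C.x u
      + ∑ u ∈ univ.filter (fun u => (v, u) ∈ C.Mo), C.x u := by
    unfold S
    rw [← Finset.sum_filter_add_sum_filter_not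
      (univ.filter (fun u => C.Heavy u ∧ C.c u ≠ C.c v)) (fun u => C.G.Adj v u),
      Finset.filter_filter, Finset.filter_filter]
    congr 1
    · refine Finset.sum_congr (Finset.filter_congr fun u _ => ?_) fun _ _ => rfl
      constructor
      · rintro ⟨⟨a, b⟩, c⟩; exact ⟨c, a⟩
      · rintro ⟨a, b⟩
        exact ⟨⟨b, fun h => C.indep hv b h.symm a⟩, a⟩
    · refine Finset.sum_congr (Finset.filter_congr fun u _ => ?_) fun _ _ => rfl
      rw [C.mem_Mo]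
      constructor
      · rintro ⟨⟨a, b⟩, c⟩; exact ⟨hv, a, fun h => b h.symm, c⟩
      · rintro ⟨_, b, c, d⟩; exact ⟨⟨b, fun h => c h.symm⟩, d⟩
  rw [h1, h2]; ring

open Classical in
theorem fib_le (W : Finset (V × V)) (v : V) :
    ∑ u ∈ univ.filter (fun u => (v, u) ∈ W), C.x u ≤ (W.card : ℝ) * (12 / 10 * C.s) := by
  have e1 : ∑ u ∈ univ.filter (fun u => (v, u) ∈ W), C.x u
      ≤ ((univ.filter (fun u => (v, u) ∈ W)).card : ℝ) * (12 / 10 * C.s) := by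
    rw [← nsmul_eq_mul]
    exact Finset.sum_le_card_nsmul _ _ _ fun u _ => C.x_le u
  have e2 : ((univ.filter (fun u => (v, u) ∈ W)).card : ℝ) ≤ W.card := by
    have : (univ.filter (fun u => (v, u) ∈ W)).card ≤ W.card := by
      refine Finset.card_le_card_of_injOn (fun u => (v, u)) ?_ ?_
      · intro u hu
        exact (Finset.mem_filter.mp hu).2
      · intro a _ b _ h
        exact (Prod.mk.inj h).2
    exact_mod_cast this
  have hs := C.s_pos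
  exact e1.trans (mul_le_mul_of_nonneg_right e2 (by positivity))

open Classical in
theorem fib_nonneg (W : Finset (V × V)) (v : V) :
    0 ≤ ∑ u ∈ univ.filter (fun u => (v, u) ∈ W), C.x u :=
  Finset.sum_nonneg fun u _ => C.hx0 u

/-- the typical entry in the class `i` -/
noncomputable def b (i : Fin (C.q + 1)) : ℝ := C.S i / C.lam

theorem typical_eq {v : V} {i : Fin (C.q + 1)} (hv : v ∈ C.Ty i) : C.x v = C.b i := by
  classical
  obtain ⟨⟨h1, h2⟩, h3⟩ := C.mem_Ty.mp hv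
  have h := C.heavy_eq h1
  have e1 : ∑ u ∈ univ.filter (fun u => (v, u) ∈ C.Mo), C.x u = 0 := by
    rw [Finset.filter_false_of_mem (fun u _ => (h3 u).1), Finset.sum_empty]
  have e2 : ∑ u ∈ univ.filter (fun u => (v, u) ∈ C.Qo), C.x u = 0 := by
    rw [Finset.filter_false_of_mem (fun u _ => (h3 u).2), Finset.sum_empty]
  rw [e1, e2, h2] at h
  unfold b
  have := C.hlam
  field_simp
  linarith

theorem b_nonneg (i : Fin (C.q + 1)) : 0 ≤ C.b i := by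
  obtain ⟨v, hv⟩ := C.Ty_nonempty i
  rw [← C.typical_eq hv]
  exact C.hx0 v

theorem b_le (i : Fin (C.q + 1)) : C.b i ≤ 12 / 10 * C.s := by
  obtain ⟨v, hv⟩ := C.Ty_nonempty i
  rw [← C.typical_eq hv]
  exact C.x_le v

theorem x_sub_b {v : V} (hv : C.Heavy v) : |C.x v - C.b (C.c v)| ≤ 502 * C.D0 * C.s * C.t := by
  classical
  have h := C.heavy_eq hv
  have hl := C.hlam
  have hs := C.s_pos
  have ht := C.t_pos
  have hD := C.hD0
  have hb : C.lam * C.b (C.c v) = C.S (C.c v) := by unfold b; field_simp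
  have m1 := C.fib_le C.Mo v
  have m2 := C.fib_nonneg C.Mo v
  have q1 := C.fib_le C.Qo v
  have q2 := C.fib_nonneg C.Qo v
  have cM := C.card_Mo
  have cQ := C.card_Qo
  have hM : (C.Mo.card : ℝ) * (12 / 10 * C.s) ≤ 209 * C.D0 * (12 / 10 * C.s) := by
    apply mul_le_mul_of_nonneg_right _ (by positivity); linarith
  have hQ : (C.Qo.card : ℝ) * (12 / 10 * C.s) ≤ 209 * C.D0 * (12 / 10 * C.s) := by
    apply mul_le_mul_of_nonneg_right _ (by positivity); linarith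
  have hpos : 0 ≤ 209 * C.D0 * (12 / 10 * C.s) := by positivity
  rw [abs_le]
  have u1 : C.x v - C.b (C.c v) ≤ 2 * C.t * (209 * C.D0 * (12 / 10 * C.s)) := by
    apply C.le_of_lam_mul hpos
    rw [mul_sub, hb]; linarith
  have u2 : C.b (C.c v) - C.x v ≤ 2 * C.t * (209 * C.D0 * (12 / 10 * C.s)) := by
    apply C.le_of_lam_mul hpos
    rw [mul_sub, hb]; linarith
  have hp2 : 0 ≤ C.D0 * C.s * C.t := by positivity
  constructor <;> nlinarith

theorem light_le {v : V} (hv : ¬ C.Heavy v) : C.x v ≤ 480 * C.D0 * C.s * C.t := by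
  classical
  have h := C.heig v
  have hs := C.s_pos
  have ht := C.t_pos
  have hD := C.hD0
  rw [← Finset.sum_filter] at h
  have e : univ.filter (fun u => C.G.Adj v u) = univ.filter (fun u => (v, u) ∈ C.Qo) := by
    refine Finset.filter_congr fun u _ => ?_
    rw [C.mem_Qo]
    exact ⟨fun h => ⟨h, fun h' => hv h'.1⟩, fun h => h.1⟩
  rw [e] at h
  have q1 := C.fib_le C.Qo v
  have hQ : (C.Qo.card : ℝ) * (12 / 10 * C.s) ≤ 200 * C.D0 * (12 / 10 * C.s) :=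
    mul_le_mul_of_nonneg_right C.card_Qo (by positivity)
  have := C.le_of_lam_mul (a := C.x v) (b := 200 * C.D0 * (12 / 10 * C.s)) (by positivity)
    (by linarith)
  nlinarith

theorem Q_prod {e : V × V} (he : e ∈ C.Qo) : C.x e.1 * C.x e.2 ≤ 576 * C.D0 * C.t ^ 2 := by
  obtain ⟨_, h2⟩ := C.mem_Qo.mp he
  have hs := C.s_pos
  have ht := C.t_pos
  have hD := C.hD0
  have hs2 := C.s_sq
  have key : ∀ u w : V, ¬ C.Heavy u → C.x u * C.x w ≤ 576 * C.D0 * C.t ^ 2 := by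
    intro u w hu
    calc C.x u * C.x w ≤ (480 * C.D0 * C.s * C.t) * (12 / 10 * C.s) :=
          mul_le_mul (C.light_le hu) (C.x_le w) (C.hx0 w) (by positivity)
      _ = 576 * C.D0 * C.t * (C.s * C.s) := by ring
      _ = 576 * C.D0 * C.t ^ 2 := by rw [hs2]; ring
  by_cases h : C.Heavy e.1
  · rw [mul_comm]
    exact key _ _ (fun h' => h2 ⟨h, h'⟩)
  · exact key _ _ h

theorem bb {i j : Fin (C.q + 1)} (hij : i ≠ j) :
    |C.b i * C.b j - C.t| ≤ 6 * ((C.q : ℝ) + 1) * C.D0 * C.t ^ 2 := by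
  classical
  have ht := C.t_pos
  have hD := C.hD0
  have hq := C.q_real
  have h1 : ((C.Ty i).card : ℝ) * (C.Ty j).card * (C.b i * C.b j - C.t) ^ 2
      ≤ 2 * C.D0 * C.t ^ 2 := by
    refine le_trans ?_ C.F1
    have e1 : ((C.Ty i).card : ℝ) * (C.Ty j).card * (C.b i * C.b j - C.t) ^ 2
        = ∑ e ∈ C.Ty i ×ˢ C.Ty j, (C.x e.1 * C.x e.2 - C.t) ^ 2 := by
      have : ∀ e ∈ C.Ty i ×ˢ C.Ty j, (C.x e.1 * C.x e.2 - C.t) ^ 2
          = (C.b i * C.b j - C.t) ^ 2 := by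
        intro e he
        obtain ⟨a1, a2⟩ := Finset.mem_product.mp he
        rw [C.typical_eq a1, C.typical_eq a2]
      rw [Finset.sum_congr rfl this, Finset.sum_const, Finset.card_product, nsmul_eq_mul]
      push_cast
      ring
    rw [e1]
    refine Finset.sum_le_sum_of_subset_of_nonneg ?_ fun _ _ _ => sq_nonneg _
    intro e he
    obtain ⟨a1, a2⟩ := Finset.mem_product.mp he
    have b2 := (C.mem_Ty.mp a2).1
    exact C.mem_E.mpr (C.typical_adj a1 b2.1 (by rw [b2.2]; exact hij.symm))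
  have g1 := C.card_Ty_ge i
  have g2 := C.card_Ty_ge j
  have hpos4 : 0 < 1 / (4 * ((C.q : ℝ) + 1)) := by positivity
  have g3 : 1 / (4 * ((C.q : ℝ) + 1)) * (1 / (4 * ((C.q : ℝ) + 1)))
      ≤ (((C.Ty i).card : ℝ) * C.t) * (((C.Ty j).card : ℝ) * C.t) :=
    mul_le_mul g1 g2 hpos4.le (by positivity)
  set n1 := ((C.Ty i).card : ℝ)
  set n2 := ((C.Ty j).card : ℝ)
  set δ := C.b i * C.b j - C.t with hδ
  have h2 : δ ^ 2 ≤ (6 * ((C.q : ℝ) + 1) * C.D0 * C.t ^ 2) ^ 2 := by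
    -- δ² · (1/16(q+1)²) ≤ δ² n1 n2 t² ≤ 2 D0 t⁴
    have s1 : δ ^ 2 * (1 / (4 * ((C.q : ℝ) + 1)) * (1 / (4 * ((C.q : ℝ) + 1))))
        ≤ δ ^ 2 * ((n1 * C.t) * (n2 * C.t)) := mul_le_mul_of_nonneg_left g3 (sq_nonneg _)
    have s2 : δ ^ 2 * ((n1 * C.t) * (n2 * C.t)) = (n1 * n2 * δ ^ 2) * C.t ^ 2 := by ring
    have s3 : (n1 * n2 * δ ^ 2) * C.t ^ 2 ≤ 2 * C.D0 * C.t ^ 2 * C.t ^ 2 :=
      mul_le_mul_of_nonneg_right h1 (by positivity)
    have s4 : δ ^ 2 * (1 / (4 * ((C.q : ℝ) + 1)) * (1 / (4 * ((C.q : ℝ) + 1))))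
        * (16 * ((C.q : ℝ) + 1) ^ 2) = δ ^ 2 := by field_simp; ring
    have s5 : δ ^ 2 ≤ 2 * C.D0 * C.t ^ 2 * C.t ^ 2 * (16 * ((C.q : ℝ) + 1) ^ 2) := by
      rw [← s4]
      exact mul_le_mul_of_nonneg_right (by linarith) (by positivity)
    refine s5.trans ?_
    have hpp : 0 ≤ ((C.q : ℝ) + 1) ^ 2 * C.t ^ 4 := by positivity
    have hDD : C.D0 ≤ C.D0 ^ 2 := by nlinarith
    have e1 : 2 * C.D0 * C.t ^ 2 * C.t ^ 2 * (16 * ((C.q : ℝ) + 1) ^ 2)
        = (((C.q : ℝ) + 1) ^ 2 * C.t ^ 4) * (32 * C.D0) := by ring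
    have e2 : (6 * ((C.q : ℝ) + 1) * C.D0 * C.t ^ 2) ^ 2
        = (((C.q : ℝ) + 1) ^ 2 * C.t ^ 4) * (36 * C.D0 ^ 2) := by ring
    rw [e1, e2]
    exact mul_le_mul_of_nonneg_left (by nlinarith) hpp
  exact abs_le_of_sq_le_sq h2 (by positivity)

theorem b_sq (i : Fin (C.q + 1)) :
    |C.b i ^ 2 - C.t| ≤ 24 * ((C.q : ℝ) + 1) * C.D0 * C.t ^ 2 := by
  obtain ⟨j, l, hj, hl, hjl⟩ := C.exists_two i
  have ht := C.t_pos
  have hD := C.hD0
  have hq := C.q_real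
  have h1 := abs_le.mp (C.bb hj.symm)
  have h2 := abs_le.mp (C.bb hl.symm)
  have h3 := abs_le.mp (C.bb hjl)
  set δ := 6 * ((C.q : ℝ) + 1) * C.D0 * C.t with hδ
  have hδ0 : 0 ≤ δ := by positivity
  have hδ1 : δ ≤ 1 / 10 := by
    have hK : (1000 * ((C.q : ℝ) + 1) ^ 2 * C.D0 ^ 1) * C.t ≤ 1 :=
      C.small (C.Kc_ge (by norm_num) (by norm_num))
    have hq1 : ((C.q : ℝ) + 1) ≤ ((C.q : ℝ) + 1) ^ 2 := by nlinarith
    have hpos : 0 ≤ C.D0 * C.t := by positivity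
    rw [hδ]
    nlinarith
  have e0 : 6 * ((C.q : ℝ) + 1) * C.D0 * C.t ^ 2 = δ * C.t := by rw [hδ]; ring
  rw [e0] at h1 h2 h3
  set A := C.b i * C.b j
  set B := C.b i * C.b l
  set D := C.b j * C.b l
  have hAB : C.b i ^ 2 * D = A * B := by simp only [A, B, D]; ring
  have eg : 24 * ((C.q : ℝ) + 1) * C.D0 * C.t ^ 2 = 4 * δ * C.t := by rw [hδ]; ring
  rw [eg, abs_le]
  have A1 : (1 - δ) * C.t ≤ A := by linarith [h1.1]
  have A2 : A ≤ (1 + δ) * C.t := by linarith [h1.2]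
  have B1 : (1 - δ) * C.t ≤ B := by linarith [h2.1]
  have B2 : B ≤ (1 + δ) * C.t := by linarith [h2.2]
  have D1 : (1 - δ) * C.t ≤ D := by linarith [h3.1]
  have D2 : D ≤ (1 + δ) * C.t := by linarith [h3.2]
  have hδt : 0 < (1 - δ) * C.t := mul_pos (by linarith) ht
  have hDpos : 0 < D := lt_of_lt_of_le hδt D1
  constructor
  · by_contra hlt
    push Not at hlt
    have l1 : C.b i ^ 2 < (1 - 4 * δ) * C.t := by linarith
    have l2 : ((1 - δ) * C.t) * ((1 - δ) * C.t) ≤ A * B :=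
      mul_le_mul A1 B1 hδt.le (le_trans hδt.le A1)
    have l3 : C.b i ^ 2 * D < (1 - 4 * δ) * C.t * D := mul_lt_mul_of_pos_right l1 hDpos
    have l4 : (1 - 4 * δ) * C.t * D ≤ (1 - 4 * δ) * C.t * ((1 + δ) * C.t) :=
      mul_le_mul_of_nonneg_left D2 (mul_nonneg (by linarith) ht.le)
    have l5 : (1 - 4 * δ) * C.t * ((1 + δ) * C.t) ≤ ((1 - δ) * C.t) * ((1 - δ) * C.t) := by
      have : (1 - 4 * δ) * (1 + δ) ≤ (1 - δ) * (1 - δ) := by nlinarith
      nlinarith [mul_pos ht ht]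
    linarith
  · by_contra hlt
    push Not at hlt
    have l1 : (1 + 4 * δ) * C.t < C.b i ^ 2 := by linarith
    have l2 : A * B ≤ ((1 + δ) * C.t) * ((1 + δ) * C.t) :=
      mul_le_mul A2 B2 (le_trans hδt.le B1) (by positivity)
    have l3 : (1 + 4 * δ) * C.t * D < C.b i ^ 2 * D := mul_lt_mul_of_pos_right l1 hDpos
    have l4 : (1 + 4 * δ) * C.t * ((1 - δ) * C.t) ≤ (1 + 4 * δ) * C.t * D :=
      mul_le_mul_of_nonneg_left D1 (by positivity)
    have l5 : ((1 + δ) * C.t) * ((1 + δ) * C.t) ≤ (1 + 4 * δ) * C.t * ((1 - δ) * C.t) := by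
      have : (1 + δ) * (1 + δ) ≤ (1 + 4 * δ) * (1 - δ) := by nlinarith
      nlinarith [mul_pos ht ht]
    linarith

theorem x_sq {v : V} (hv : C.Heavy v) :
    |C.x v ^ 2 - C.t| ≤ 1300 * ((C.q : ℝ) + 1) * C.D0 * C.t ^ 2 := by
  have h1 := C.x_sub_b hv
  have h2 := C.b_sq (C.c v)
  have hs := C.s_pos
  have ht := C.t_pos
  have hD := C.hD0
  have hq := C.q_real
  have hs2 := C.s_sq
  have h3 : |C.x v + C.b (C.c v)| ≤ 24 / 10 * C.s := by
    rw [abs_of_nonneg (add_nonneg (C.hx0 v) (C.b_nonneg _))]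
    have := C.x_le v; have := C.b_le (C.c v); linarith
  have h4 : |C.x v ^ 2 - C.b (C.c v) ^ 2| ≤ (502 * C.D0 * C.s * C.t) * (24 / 10 * C.s) := by
    have : C.x v ^ 2 - C.b (C.c v) ^ 2 = (C.x v - C.b (C.c v)) * (C.x v + C.b (C.c v)) := by ring
    rw [this, abs_mul]
    exact mul_le_mul h1 h3 (abs_nonneg _) (by positivity)
  have h5 : (502 * C.D0 * C.s * C.t) * (24 / 10 * C.s) = (502 * 24 / 10) * C.D0 * C.t ^ 2 := by
    calc (502 * C.D0 * C.s * C.t) * (24 / 10 * C.s)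
        = (502 * 24 / 10) * C.D0 * C.t * (C.s * C.s) := by ring
      _ = (502 * 24 / 10) * C.D0 * C.t ^ 2 := by rw [hs2]; ring
  rw [h5] at h4
  have h6 : |C.x v ^ 2 - C.t| ≤ |C.x v ^ 2 - C.b (C.c v) ^ 2| + |C.b (C.c v) ^ 2 - C.t| := by
    have : C.x v ^ 2 - C.t = (C.x v ^ 2 - C.b (C.c v) ^ 2) + (C.b (C.c v) ^ 2 - C.t) := by ring
    rw [this]; exact abs_add_le _ _
  have hpos : 0 ≤ C.D0 * C.t ^ 2 := by positivity
  nlinarith

/-- size of the heavy classes -/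
theorem card_T (i : Fin (C.q + 1)) :
    |((C.T i).card : ℝ) * C.t - 1 / ((C.q : ℝ) + 1)| ≤ 2000 * ((C.q : ℝ) + 1) * C.D0 * C.t := by
  classical
  have ht := C.t_pos
  have hD := C.hD0
  have hq := C.q_real
  have h1 := C.T_weight i
  have h2 : |∑ v ∈ C.T i, C.x v ^ 2 - ((C.T i).card : ℝ) * C.t|
      ≤ ((C.T i).card : ℝ) * (1300 * ((C.q : ℝ) + 1) * C.D0 * C.t ^ 2) := by
    have e1 : ∑ v ∈ C.T i, C.x v ^ 2 - ((C.T i).card : ℝ) * C.t
        = ∑ v ∈ C.T i, (C.x v ^ 2 - C.t) := by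
      rw [Finset.sum_sub_distrib]; simp
    rw [e1]
    refine (Finset.abs_sum_le_sum_abs _ _).trans ?_
    rw [← nsmul_eq_mul]
    exact Finset.sum_le_card_nsmul _ _ _ fun v hv => C.x_sq (C.mem_T.mp hv).1
  have h3 := C.card_T_le i
  have h4 : ((C.T i).card : ℝ) * (1300 * ((C.q : ℝ) + 1) * C.D0 * C.t ^ 2)
      ≤ 10 / 7 * (1300 * ((C.q : ℝ) + 1) * C.D0 * C.t) := by
    have : ((C.T i).card : ℝ) * (1300 * ((C.q : ℝ) + 1) * C.D0 * C.t ^ 2)
        = (((C.T i).card : ℝ) * C.t) * (1300 * ((C.q : ℝ) + 1) * C.D0 * C.t) := by ring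
    rw [this]
    exact mul_le_mul_of_nonneg_right h3 (by positivity)
  have h5 : |((C.T i).card : ℝ) * C.t - 1 / ((C.q : ℝ) + 1)|
      ≤ |∑ v ∈ C.T i, C.x v ^ 2 - ((C.T i).card : ℝ) * C.t|
        + |∑ v ∈ C.T i, C.x v ^ 2 - 1 / ((C.q : ℝ) + 1)| := by
    have : ((C.T i).card : ℝ) * C.t - 1 / ((C.q : ℝ) + 1)
        = -(∑ v ∈ C.T i, C.x v ^ 2 - ((C.T i).card : ℝ) * C.t)
          + (∑ v ∈ C.T i, C.x v ^ 2 - 1 / ((C.q : ℝ) + 1)) := by ring
    rw [this]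
    refine (abs_add_le _ _).trans ?_
    rw [abs_neg]
  have hpos : 0 ≤ C.D0 * C.t := by positivity
  nlinarith

/-- lower bound for the deficiency -/
theorem account :
    C.al * ((C.Mo.card : ℝ) + C.Qo.card)
      ≤ (C.al * C.p - C.lam ^ 2) + 10 ^ 6 * ((C.q : ℝ) + 1) * C.D0 ^ 2 * C.t := by
  classical
  have ht := C.t_pos
  have hD := C.hD0
  have hq := C.q_real
  have hal := C.al_ge
  have hal1 := C.al_lt
  set K6 := 1300 * ((C.q : ℝ) + 1) * C.D0 with hK6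
  have hsm : K6 * C.t ≤ 1 / 10 := by
    have hK : (100000 * ((C.q : ℝ) + 1) ^ 2 * C.D0 ^ 1) * C.t ≤ 1 :=
      C.small (C.Kc_ge (by norm_num) (by norm_num))
    have hq1 : ((C.q : ℝ) + 1) ≤ ((C.q : ℝ) + 1) ^ 2 := by nlinarith
    have hpos : 0 ≤ C.D0 * C.t := by positivity
    rw [hK6]; nlinarith
  -- Ms
  have hMs : (C.Mo.card : ℝ) * (C.t ^ 2 * (1 - 2 * (K6 * C.t))) ≤ C.Ms := by
    have e1 : (C.Mo.card : ℝ) * (C.t ^ 2 * (1 - 2 * (K6 * C.t)))
        = ∑ e ∈ C.Mo, (C.t ^ 2 * (1 - 2 * (K6 * C.t))) := by simp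
    rw [e1]
    refine le_trans (Finset.sum_le_sum fun e he => ?_)
      (Finset.sum_le_sum_of_subset_of_nonneg C.Mo_sub fun e _ _ => by positivity)
    obtain ⟨a1, a2, _, _⟩ := C.mem_Mo.mp he
    have b1 := (abs_le.mp (C.x_sq a1)).1
    have b2 := (abs_le.mp (C.x_sq a2)).1
    have c1 : C.t * (1 - K6 * C.t) ≤ C.x e.1 ^ 2 := by rw [hK6]; nlinarith
    have c2 : C.t * (1 - K6 * C.t) ≤ C.x e.2 ^ 2 := by rw [hK6]; nlinarith
    have hp : 0 ≤ C.t * (1 - K6 * C.t) := mul_nonneg ht.le (by linarith)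
    have := mul_le_mul c1 c2 hp (sq_nonneg _)
    nlinarith [sq_nonneg (C.t * (K6 * C.t))]
  -- Inn ≤ ∑_Qo
  have hInn : C.Inn ≤ ∑ e ∈ C.Qo, C.x e.1 ^ 2 * C.x e.2 ^ 2 := by
    unfold Inn
    refine Finset.sum_le_sum_of_subset_of_nonneg ?_ fun e _ _ => by positivity
    intro e he
    obtain ⟨h1, h2⟩ := Finset.mem_filter.mp he
    exact C.mem_Qo.mpr ⟨C.mem_E.mp h1, fun h => C.indep h.1 h.2 h2 (C.mem_E.mp h1)⟩
  have hVar : ∑ e ∈ C.Qo, (C.x e.1 * C.x e.2 - C.t) ^ 2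
      ≤ ∑ e ∈ C.E, (C.x e.1 * C.x e.2 - C.t) ^ 2 :=
    Finset.sum_le_sum_of_subset_of_nonneg (C.Qo_sub_F.trans C.F_sub) fun e _ _ => sq_nonneg _
  have hQ : (C.Qo.card : ℝ) * (C.t ^ 2 * (1 - 2 * (K6 * C.t)))
      ≤ ∑ e ∈ C.Qo, (C.x e.1 * C.x e.2 - C.t) ^ 2 - ∑ e ∈ C.Qo, C.x e.1 ^ 2 * C.x e.2 ^ 2 := by
    rw [← Finset.sum_sub_distrib]
    have e1 : (C.Qo.card : ℝ) * (C.t ^ 2 * (1 - 2 * (K6 * C.t)))
        = ∑ e ∈ C.Qo, (C.t ^ 2 * (1 - 2 * (K6 * C.t))) := by simp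
    rw [e1]
    refine Finset.sum_le_sum fun e he => ?_
    have h := C.Q_prod he
    have e2 : (C.x e.1 * C.x e.2 - C.t) ^ 2 - C.x e.1 ^ 2 * C.x e.2 ^ 2
        = C.t ^ 2 - 2 * C.t * (C.x e.1 * C.x e.2) := by ring
    rw [e2]
    have h2 : C.x e.1 * C.x e.2 ≤ K6 * C.t ^ 2 := by
      refine h.trans ?_
      rw [hK6]
      have : 0 ≤ C.D0 * C.t ^ 2 := by positivity
      nlinarith
    nlinarith
  have hdef := C.F3_eq'
  have hd2 := C.deficiency
  have hsq : 0 ≤ ∑ i, (C.yV i - 1 / ((C.q : ℝ) + 1)) ^ 2 :=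
    Finset.sum_nonneg fun e _ => sq_nonneg _
  rw [C.lam_sq_div] at hd2
  set N := (C.Mo.card : ℝ) + C.Qo.card with hN
  have hN0 : 0 ≤ N := by positivity
  have hN1 : N ≤ 209 * C.D0 := C.card_MQ
  have hmain : N * (C.t ^ 2 * (1 - 2 * (K6 * C.t))) ≤ C.al - C.p * C.t ^ 2 := by
    rw [hN, add_mul]
    linarith
  -- multiply by p
  have hp := C.p_pos
  have h3 : C.al * C.p - C.lam ^ 2 = C.p * (C.al - C.p * C.t ^ 2) := by
    rw [C.lam_eq]; ring
  have h4 : C.p * (N * (C.t ^ 2 * (1 - 2 * (K6 * C.t)))) ≤ C.al * C.p - C.lam ^ 2 := by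
    rw [h3]; exact mul_le_mul_of_nonneg_left hmain hp.le
  have h5 : C.al - 2 * C.D0 * C.t ≤ C.p * C.t ^ 2 := by
    have a1 := C.def_le
    have a2 := C.D0p_le
    have a3 : C.t ^ 2 ≤ C.t := by
      have : C.t ≤ 1 := by
        have hK : (1 * ((C.q : ℝ) + 1) ^ 2 * C.D0 ^ 1) * C.t ≤ 1 :=
          C.small (C.Kc_ge (by norm_num) (by norm_num))
        have : 1 ≤ ((C.q : ℝ) + 1) ^ 2 * C.D0 := by nlinarith
        nlinarith
      nlinarith
    nlinarith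
  have h6 : (C.al - 2 * C.D0 * C.t) * (N * (1 - 2 * (K6 * C.t)))
      ≤ C.p * (N * (C.t ^ 2 * (1 - 2 * (K6 * C.t)))) := by
    have : C.p * (N * (C.t ^ 2 * (1 - 2 * (K6 * C.t))))
        = (C.p * C.t ^ 2) * (N * (1 - 2 * (K6 * C.t))) := by ring
    rw [this]
    exact mul_le_mul_of_nonneg_right h5 (mul_nonneg hN0 (by linarith))
  have h7 : C.al * N - (2 * C.D0 * C.t + 2 * (K6 * C.t)) * N
      ≤ (C.al - 2 * C.D0 * C.t) * (N * (1 - 2 * (K6 * C.t))) := by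
    have e : (C.al - 2 * C.D0 * C.t) * (N * (1 - 2 * (K6 * C.t)))
        = N * (C.al - 2 * C.D0 * C.t - C.al * (2 * (K6 * C.t))
          + 4 * C.D0 * C.t * (K6 * C.t)) := by ring
    rw [e]
    have h8 : C.al * (2 * (K6 * C.t)) ≤ 2 * (K6 * C.t) := by
      have : 0 ≤ 2 * (K6 * C.t) := by positivity
      nlinarith
    have h9 : 0 ≤ 4 * C.D0 * C.t * (K6 * C.t) := by positivity
    nlinarith
  have h8 : (2 * C.D0 * C.t + 2 * (K6 * C.t)) * N
      ≤ 10 ^ 6 * ((C.q : ℝ) + 1) * C.D0 ^ 2 * C.t := by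
    have : (2 * C.D0 * C.t + 2 * (K6 * C.t)) * N ≤ (2 * C.D0 * C.t + 2 * (K6 * C.t))
        * (209 * C.D0) := mul_le_mul_of_nonneg_left hN1 (by positivity)
    refine this.trans ?_
    rw [hK6]
    have hpp : 0 ≤ C.D0 ^ 2 * C.t := by positivity
    have e : (2 * C.D0 * C.t + 2 * (1300 * ((C.q : ℝ) + 1) * C.D0 * C.t)) * (209 * C.D0)
        = (C.D0 ^ 2 * C.t) * (418 + 543400 * ((C.q : ℝ) + 1)) := by ring
    rw [e]
    have e2 : 10 ^ 6 * ((C.q : ℝ) + 1) * C.D0 ^ 2 * C.t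
        = (C.D0 ^ 2 * C.t) * (10 ^ 6 * ((C.q : ℝ) + 1)) := by ring
    rw [e2]
    exact mul_le_mul_of_nonneg_left (by nlinarith) hpp
  linarith

end Ctx

end MP5532fa
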