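import Pool.Agent.Work.MP_5532fa_co.Main

/-!
# MP_5532fa_co : Turán sizes
-/

open Finset

namespace MP5532fa

/-- residue class map -/
def cT (r N : ℕ) (hr : 0 < r) : Fin N → Fin r := fun k => ⟨k.val % r, Nat.mod_lt _ hr⟩

/-- representatives -/
def vT (r N : ℕ) (hN : r ≤ N) : Fin r → Fin N := fun i => ⟨i.val, lt_of_lt_of_le i.2 hN⟩

theorem cT_vT {r N : ℕ} (hr : 0 < r) (hN : r ≤ N) (i : Fin r) : cT r N hr (vT r N hN i) = i := by
  apply Fin.ext
  show i.val % r = i.val
  exact Nat.mod_eq_of_lt i.2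

theorem sz_cT {r N : ℕ} (hr : 0 < r) (i : Fin r) :
    sz (cT r N hr) i = N / r + if i.val < N % r then 1 else 0 := by
  classical
  have h1 := Nat.count_modEq_card N hr i.val
  rw [Nat.mod_eq_of_lt i.2, Nat.count_eq_card_filter_range] at h1
  rw [← h1, sz_eq]
  refine Finset.card_bij (fun k _ => k.val) ?_ ?_ ?_
  · intro k hk
    have hk' := congrArg Fin.val (Finset.mem_filter.mp hk).2
    refine Finset.mem_filter.mpr ⟨Finset.mem_range.mpr k.2, ?_⟩
    show k.val % r = i.val % r
    rw [Nat.mod_eq_of_lt i.2]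
    exact hk'
  · intro a _ b _ h
    exact Fin.ext h
  · intro k hk
    obtain ⟨hk1, hk2⟩ := Finset.mem_filter.mp hk
    refine ⟨⟨k, Finset.mem_range.mp hk1⟩, ?_, rfl⟩
    refine Finset.mem_filter.mpr ⟨Finset.mem_univ _, ?_⟩
    apply Fin.ext
    show k % r = i.val
    have : k % r = i.val % r := hk2
    rw [this, Nat.mod_eq_of_lt i.2]

theorem cT_bal {r N : ℕ} (hr : 0 < r) (i j : Fin r) :
    sz (cT r N hr) i ≤ sz (cT r N hr) j + 1 := by
  rw [sz_cT, sz_cT]
  split_ifs <;> omega

theorem cT_top {r N : ℕ} (hr : 0 < r) (z o : Fin r) (hz : z.val = 0) (ho : o.val = 1) :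
    TopPair (cT r N hr) z o := by
  intro i h1 h2
  have h1' : i.val ≠ 0 := fun h => h1 (Fin.ext (by rw [h, hz]))
  have h2' : i.val ≠ 1 := fun h => h2 (Fin.ext (by rw [h, ho]))
  rw [sz_cT, sz_cT, sz_cT, hz, ho]
  constructor <;> split_ifs <;> omega

/-- sizes with the same sum and the same sum of squares as balanced sizes -/
theorem balanced_of_sq {r N : ℕ} (hr : 0 < r) (f : Fin r → ℕ) (h1 : ∑ i, f i = N)
    (h2 : ∑ i, f i ^ 2 = ∑ i, sz (cT r N hr) i ^ 2) :
    ∃ π : Fin r ≃ Fin r, ∀ i, f i = sz (cT r N hr) (π i) := by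
  classical
  set g : Fin r → ℕ := fun i => sz (cT r N hr) i with hg
  set k := N / r with hk
  have hg1 : ∑ i, g i = N := by rw [hg, sum_sz, Fintype.card_fin]
  have hgv : ∀ i, g i = k ∨ g i = k + 1 := by
    intro i
    rw [hg]
    simp only [sz_cT]
    split_ifs
    · right; rfl
    · left; rfl
  -- integer identity
  have hint : ∀ (F : Fin r → ℕ), ∑ i, F i = N → ∑ i, F i ^ 2 = ∑ i, g i ^ 2 →
      ∑ i, ((F i : ℤ) - k) * ((F i : ℤ) - k - 1)
        = ∑ i, ((g i : ℤ)) ^ 2 - (2 * k + 1) * N + r * (k * (k + 1)) := by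
    intro F hF1 hF2
    have e : ∀ i, ((F i : ℤ) - k) * ((F i : ℤ) - k - 1)
        = (F i : ℤ) ^ 2 - (2 * k + 1) * F i + k * (k + 1) := by intro i; ring
    simp only [e, Finset.sum_add_distrib, Finset.sum_sub_distrib, ← Finset.mul_sum]
    have e1 : ∑ i, (F i : ℤ) = N := by exact_mod_cast hF1
    have e2 : ∑ i, (F i : ℤ) ^ 2 = ∑ i, (g i : ℤ) ^ 2 := by exact_mod_cast hF2
    rw [e1, e2]
    simp
    ring
  have hg0 : ∑ i, ((g i : ℤ) - k) * ((g i : ℤ) - k - 1) = 0 := by
    refine Finset.sum_eq_zero fun i _ => ?_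
    rcases hgv i with h | h
    · rw [h]; ring
    · rw [h]; push_cast; ring
  have hf0 : ∑ i, ((f i : ℤ) - k) * ((f i : ℤ) - k - 1) = 0 := by
    rw [hint f h1 h2, ← hint g hg1 rfl, hg0]
  have hnn : ∀ i, 0 ≤ ((f i : ℤ) - k) * ((f i : ℤ) - k - 1) := by
    intro i
    rcases le_or_gt (f i : ℤ) k with h | h
    · have : ((f i : ℤ) - k) ≤ 0 := by linarith
      exact mul_nonneg_of_nonpos_of_nonpos this (by linarith)
    · exact mul_nonneg (by linarith) (by linarith [Int.add_one_le_iff.mpr h])
  have hfv : ∀ i, f i = k ∨ f i = k + 1 := by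
    intro i
    have h := (Finset.sum_eq_zero_iff_of_nonneg (fun i _ => hnn i)).mp hf0 i (Finset.mem_univ i)
    rcases mul_eq_zero.mp h with h | h
    · left; omega
    · right; omega
  -- counts
  have hcount : ∀ (F : Fin r → ℕ), ∑ i, F i = N → (∀ i, F i = k ∨ F i = k + 1) →
      (univ.filter (fun i => F i = k + 1)).card + r * k = N := by
    intro F hF1 hFv
    have e : ∀ i, F i = k + (if F i = k + 1 then 1 else 0) := by
      intro i
      rcases hFv i with h | h
      · rw [h]; simp
      · rw [h]; simp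
    rw [← hF1, Finset.sum_congr rfl (fun i _ => e i), Finset.sum_add_distrib,
      Finset.card_filter]
    simp
    ring
  have hcf := hcount f h1 hfv
  have hcg := hcount g hg1 hgv
  have hc1 : (univ.filter (fun i => f i = k + 1)).card
      = (univ.filter (fun i => g i = k + 1)).card := by omega
  have hsplit : ∀ (F : Fin r → ℕ), (∀ i, F i = k ∨ F i = k + 1) →
      (univ.filter (fun i => F i = k)).card + (univ.filter (fun i => F i = k + 1)).card = r := by
    intro F hFv
    have h3 := Finset.card_filter_add_card_filter_not (s := (univ : Finset (Fin r)))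
      (fun i => F i = k)
    rw [Finset.card_univ, Fintype.card_fin] at h3
    have h4 : univ.filter (fun i => ¬ F i = k) = univ.filter (fun i => F i = k + 1) := by
      ext i
      simp only [Finset.mem_filter, Finset.mem_univ, true_and]
      rcases hFv i with h | h
      · rw [h]; simp
      · rw [h]; simp
    rw [h4] at h3
    exact h3
  have hc0 : (univ.filter (fun i => f i = k)).card = (univ.filter (fun i => g i = k)).card := by
    have := hsplit f hfv
    have := hsplit g hgv
    omega
  have hall : ∀ y, Fintype.card {i // f i = y} = Fintype.card {i // g i = y} := by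
    intro y
    rw [Fintype.card_subtype, Fintype.card_subtype]
    by_cases hy0 : y = k
    · rw [hy0]; exact hc0
    · by_cases hy1 : y = k + 1
      · rw [hy1]; exact hc1
      · have e1 : univ.filter (fun i => f i = y) = ∅ := by
          rw [Finset.filter_eq_empty_iff]
          intro i _ h
          rcases hfv i with h' | h' <;> omega
        have e2 : univ.filter (fun i => g i = y) = ∅ := by
          rw [Finset.filter_eq_empty_iff]
          intro i _ h
          rcases hgv i with h' | h' <;> omega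
        rw [e1, e2]
  refine ⟨Equiv.ofFiberEquiv (f := f) (g := g) (fun y => Fintype.equivOfCardEq (hall y)), ?_⟩
  intro i
  exact (Equiv.ofFiberEquiv_map _ i).symm

/-- edges of a complete multipartite graph -/
theorem pE_mult {U : Type*} [Fintype U] {r : ℕ} (c : U → Fin r) (T : SimpleGraph U)
    (hT : ∀ u w, T.Adj u w ↔ c u ≠ c w) :
    pE T = (Fintype.card U : ℝ) ^ 2 - ∑ i, (sz c i : ℝ) ^ 2 := by
  classical
  rw [pE_qf]
  unfold qf
  have e1 : ∀ u, (∑ w, if T.Adj u w then (1:ℝ) * 1 else 0)
      = (Fintype.card U : ℝ) - sz c (c u) := by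
    intro u
    have e2 : ∀ w, (if T.Adj u w then (1:ℝ) * 1 else 0) = 1 - (if c w = c u then 1 else 0) := by
      intro w
      by_cases h : c w = c u
      · rw [if_neg (fun h' => (hT u w).mp h' h.symm), if_pos h]; ring
      · rw [if_pos ((hT u w).mpr (fun h' => h h'.symm)), if_neg h]; ring
    simp only [e2, Finset.sum_sub_distrib]
    rw [sz_eq, Finset.card_filter]
    push_cast
    simp
  simp only [e1, Finset.sum_sub_distrib]
  have e3 : ∑ u, (sz c (c u) : ℝ) = ∑ i, (sz c i : ℝ) ^ 2 := by
    rw [← Finset.sum_fiberwise univ c]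
    refine Finset.sum_congr rfl fun i _ => ?_
    have : ∑ u ∈ univ.filter (fun u => c u = i), (sz c (c u) : ℝ)
        = ∑ u ∈ univ.filter (fun u => c u = i), (sz c i : ℝ) :=
      Finset.sum_congr rfl fun u hu => by rw [(Finset.mem_filter.mp hu).2]
    rw [this, Finset.sum_const, nsmul_eq_mul, ← sz_eq]
    ring
  rw [e3]
  simp
  ring

end MP5532fa
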