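import Pool.Agent.Work.MP_5532fa_co.Lower

/-!
# MP_5532fa_co : upper bound for the spectral radius in the context, and the comparison
-/

open Finset

namespace MP5532fa

theorem dv_le_real {r : ℕ} (hr : 1 ≤ r) {n : Fin r → ℝ} {B : ℝ}
    (h : ∀ i j, n i ≤ n j + B) (i : Fin r) : |dv n i| ≤ B := by
  have hr0 : (0 : ℝ) < (r : ℝ) := by positivity
  have e : (r : ℝ) * dv n i = ∑ j, (n i - n j) := by
    unfold dv
    rw [Finset.sum_sub_distrib]
    simp only [Finset.sum_const, Finset.card_univ, Fintype.card_fin, nsmul_eq_mul]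
    field_simp
  have h1 : |(r : ℝ) * dv n i| ≤ r * B := by
    rw [e]
    refine (Finset.abs_sum_le_sum_abs _ _).trans ?_
    have : ∑ j : Fin r, |n i - n j| ≤ ∑ j : Fin r, (B : ℝ) := by
      refine Finset.sum_le_sum fun j _ => ?_
      have h1 := h i j
      have h2 := h j i
      rw [abs_le]
      constructor <;> linarith
    simpa using this
  rw [abs_mul, abs_of_pos hr0] at h1
  exact le_of_mul_le_mul_left h1 hr0

namespace Ctx

variable {V : Type*} [Fintype V] (C : Ctx V)

/-- real class sizes -/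
noncomputable def nT (i : Fin (C.q + 1)) : ℝ := ((C.T i).card : ℝ)

theorem nT_dev (i j : Fin (C.q + 1)) : C.nT i ≤ C.nT j + 4000 * ((C.q : ℝ) + 1) * C.D0 := by
  have h1 := (abs_le.mp (C.card_T i)).2
  have h2 := (abs_le.mp (C.card_T j)).1
  have ht := C.t_pos
  have h3 : C.nT i * C.t ≤ (C.nT j + 4000 * ((C.q : ℝ) + 1) * C.D0) * C.t := by
    unfold nT; nlinarith
  exact le_of_mul_le_mul_right h3 ht

/-- the complete multipartite graph on the heavy vertices -/
def KG : SimpleGraph V where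
  Adj u w := C.Heavy u ∧ C.Heavy w ∧ C.c u ≠ C.c w
  symm := ⟨fun _ _ h => ⟨h.2.1, h.1, fun h' => h.2.2 h'.symm⟩⟩
  loopless := ⟨fun _ h => h.2.2 rfl⟩

theorem al_eq : C.al = alp (C.q + 1) := by
  unfold al alp
  push_cast
  rfl

/-- Schur bound for the multipartite graph. -/
theorem KG_le {N B : ℝ} (hN : ∑ i, C.nT i = N) (hB : ∀ i, |dv C.nT i| ≤ B) (hBN : B < N)
    (hB0 : 0 ≤ B) (hμ : 0 ≤ C.al * N - rho C.nT * ((N - B) / N)) :
    qf C.KG C.x ≤ C.al * N - rho C.nT * ((N - B) / N) := by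
  classical
  have hN0 : 0 < N := lt_of_le_of_lt hB0 hBN
  have hr : 1 ≤ C.q + 1 := by omega
  set z : V → ℝ := fun u => if C.Heavy u then zz C.nT (C.c u) else 1 with hz
  have hzpos : ∀ u, 0 < z u := by
    intro u
    by_cases h : C.Heavy u
    · simp only [hz, h, if_true]; exact zz_pos hN hB hBN _ hN0
    · simp only [hz, h, if_false]; norm_num
  have hρ0 := rho_nonneg hr hN hB hBN
  have hrow : ∀ u, (∑ w, if C.KG.Adj u w then z w else 0)
      ≤ (C.al * N - rho C.nT * ((N - B) / N)) * z u := by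
    intro u
    by_cases hu : C.Heavy u
    · -- heavy
      have e1 : (∑ w, if C.KG.Adj u w then z w else 0)
          = ∑ w ∈ univ.filter (fun w => C.Heavy w), (if C.c w = C.c u then 0 else zz C.nT (C.c w))
          := by
        rw [Finset.sum_filter]
        refine Finset.sum_congr rfl fun w _ => ?_
        by_cases hw : C.Heavy w
        · by_cases hc : C.c w = C.c u
          · have : ¬ C.KG.Adj u w := fun h => h.2.2 hc.symm
            rw [if_neg this, if_pos hw, if_pos hc]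
          · have : C.KG.Adj u w := ⟨hu, hw, fun h => hc h.symm⟩
            rw [if_pos this, if_pos hw, if_neg hc]
            simp only [hz, hw, if_true]
        · have : ¬ C.KG.Adj u w := fun h => hw h.2.1
          rw [if_neg this, if_neg hw]
      have e2 : ∑ w ∈ univ.filter (fun w => C.Heavy w),
          (if C.c w = C.c u then 0 else zz C.nT (C.c w))
          = ∑ i, C.nT i * (if i = C.c u then 0 else zz C.nT i) := by
        rw [← Finset.sum_fiberwise (univ.filter (fun w => C.Heavy w)) C.c]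
        refine Finset.sum_congr rfl fun i _ => ?_
        have e3 : (univ.filter (fun w => C.Heavy w)).filter (fun w => C.c w = i) = C.T i := by
          ext w
          simp [C.mem_T]
        rw [e3]
        have : ∀ w ∈ C.T i, (if C.c w = C.c u then 0 else zz C.nT (C.c w))
            = (if i = C.c u then 0 else zz C.nT i) := by
          intro w hw
          rw [(C.mem_T.mp hw).2]
        rw [Finset.sum_congr rfl this, Finset.sum_const, nsmul_eq_mul]
        rfl
      have e4 : ∑ i, C.nT i * (if i = C.c u then 0 else zz C.nT i)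
          = (N - rho C.nT) - C.nT (C.c u) * zz C.nT (C.c u) := by
        have e5 : ∀ i, C.nT i * (if i = C.c u then 0 else zz C.nT i)
            = C.nT i * zz C.nT i - (if i = C.c u then C.nT i * zz C.nT i else 0) := by
          intro i
          split_ifs <;> ring
        simp only [e5, Finset.sum_sub_distrib, Finset.sum_ite_eq', Finset.mem_univ, if_true]
        rw [sum_n_zz hr hN hB hBN hN0]
      have hzu : z u = zz C.nT (C.c u) := by simp only [hz, hu, if_true]
      rw [e1, e2, e4, n_zz hr hN hB hBN, hzu, C.al_eq]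
      have hzz : zz C.nT (C.c u) * ((N - B) / N) ≤ 1 := by
        unfold zz
        rw [hN]
        have h1 := nd_pos hN hB hBN (C.c u)
        have h2 := (abs_le.mp (hB (C.c u))).1
        rw [div_mul_div_comm, div_le_one (by positivity)]
        nlinarith
      have : rho C.nT * (zz C.nT (C.c u) * ((N - B) / N)) ≤ rho C.nT * 1 :=
        mul_le_mul_of_nonneg_left hzz hρ0
      have e6 : (alp (C.q + 1) * N - rho C.nT * ((N - B) / N)) * zz C.nT (C.c u)
          = alp (C.q + 1) * N * zz C.nT (C.c u)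
            - rho C.nT * (zz C.nT (C.c u) * ((N - B) / N)) := by ring
      rw [e6]
      linarith
    · have e1 : (∑ w, if C.KG.Adj u w then z w else 0) = 0 :=
        Finset.sum_eq_zero fun w _ => by rw [if_neg (fun h => hu h.1)]
      rw [e1]
      exact mul_nonneg hμ (hzpos u).le
  have := qf_le_of_schur (G := C.KG) hzpos hrow C.x
  rw [C.hx1, mul_one] at this
  exact this

/-- relation between the two quadratic forms -/
theorem lam_KG : C.lam + ∑ e ∈ C.Mo, C.x e.1 * C.x e.2
    = qf C.KG C.x + ∑ e ∈ C.Qo, C.x e.1 * C.x e.2 := by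
  classical
  have h1 : qf C.KG C.x = ∑ e ∈ univ.filter (fun e : V × V => C.KG.Adj e.1 e.2),
      C.x e.1 * C.x e.2 := by
    unfold qf
    rw [Finset.sum_filter, ← Finset.univ_product_univ, Finset.sum_product]
  have h2 : univ.filter (fun e : V × V => C.KG.Adj e.1 e.2)
      = C.Mo ∪ C.E.filter (fun e => C.Heavy e.1 ∧ C.Heavy e.2) := by
    ext e
    simp only [Finset.mem_filter, Finset.mem_univ, true_and, Finset.mem_union, C.mem_Mo, C.mem_E]
    constructor
    · rintro ⟨h1, h2, h3⟩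
      by_cases h : C.G.Adj e.1 e.2
      · exact Or.inr ⟨h, h1, h2⟩
      · exact Or.inl ⟨h1, h2, h3, h⟩
    · rintro (⟨h1, h2, h3, h4⟩ | ⟨h1, h2, h3⟩)
      · exact ⟨h1, h2, h3⟩
      · exact ⟨h2, h3, fun h => C.indep h2 h3 h h1⟩
  have h3 : Disjoint C.Mo (C.E.filter (fun e => C.Heavy e.1 ∧ C.Heavy e.2)) := by
    rw [Finset.disjoint_left]
    intro e he he'
    exact (C.mem_Mo.mp he).2.2.2 (C.mem_E.mp (Finset.mem_filter.mp he').1)
  have h4 : C.lam = ∑ e ∈ C.E.filter (fun e => C.Heavy e.1 ∧ C.Heavy e.2), C.x e.1 * C.x e.2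
      + ∑ e ∈ C.Qo, C.x e.1 * C.x e.2 := by
    rw [← C.sum_xx, ← Finset.sum_filter_add_sum_filter_not C.E
      (fun e : V × V => C.Heavy e.1 ∧ C.Heavy e.2)]
    congr 1
    refine Finset.sum_congr ?_ fun _ _ => rfl
    ext e
    simp only [Finset.mem_filter, C.mem_E, C.mem_Qo]
  rw [h1, h2, Finset.sum_union h3]
  linarith

/-- the constant `K6` -/
noncomputable def K6 : ℝ := 1300 * ((C.q : ℝ) + 1) * C.D0

theorem K6_t : C.K6 * C.t ≤ 1 / 10 := by
  have ht := C.t_pos
  have hD := C.hD0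
  have hq := C.q_real
  have hK : (100000 * ((C.q : ℝ) + 1) ^ 2 * C.D0 ^ 1) * C.t ≤ 1 :=
    C.small (C.Kc_ge (by norm_num) (by norm_num))
  have hq1 : ((C.q : ℝ) + 1) ≤ ((C.q : ℝ) + 1) ^ 2 := by nlinarith
  have hpos : 0 ≤ C.D0 * C.t := by positivity
  unfold K6; nlinarith

theorem upper {N B : ℝ} (hN : ∑ i, C.nT i = N) (hB : ∀ i, |dv C.nT i| ≤ B) (hBN : B < N)
    (hB0 : 0 ≤ B) (hμ : 0 ≤ C.al * N - rho C.nT * ((N - B) / N)) :
    C.lam ≤ C.al * N - rho C.nT * ((N - B) / N) - C.Mo.card * (C.t * (1 - C.K6 * C.t))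
      + 120384 * C.D0 ^ 2 * C.t ^ 2 := by
  have h1 := C.KG_le hN hB hBN hB0 hμ
  have h2 := C.lam_KG
  have ht := C.t_pos
  have hD := C.hD0
  have hq := C.q_real
  have hK6t := C.K6_t
  have h3 : (C.Mo.card : ℝ) * (C.t * (1 - C.K6 * C.t)) ≤ ∑ e ∈ C.Mo, C.x e.1 * C.x e.2 := by
    have e1 : (C.Mo.card : ℝ) * (C.t * (1 - C.K6 * C.t)) = ∑ e ∈ C.Mo, (C.t * (1 - C.K6 * C.t)) := by
      simp
    rw [e1]
    refine Finset.sum_le_sum fun e he => ?_
    obtain ⟨a1, a2, _, _⟩ := C.mem_Mo.mp he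
    have b1 := (abs_le.mp (C.x_sq a1)).1
    have b2 := (abs_le.mp (C.x_sq a2)).1
    have c1 : C.t * (1 - C.K6 * C.t) ≤ C.x e.1 ^ 2 := by unfold K6; nlinarith
    have c2 : C.t * (1 - C.K6 * C.t) ≤ C.x e.2 ^ 2 := by unfold K6; nlinarith
    have hp : 0 ≤ C.t * (1 - C.K6 * C.t) := mul_nonneg ht.le (by linarith)
    have hxx : 0 ≤ C.x e.1 * C.x e.2 := mul_nonneg (C.hx0 _) (C.hx0 _)
    have := mul_le_mul c1 c2 hp (sq_nonneg _)
    apply le_of_sq_le_sq _ hxx
    nlinarith
  have h4 : ∑ e ∈ C.Qo, C.x e.1 * C.x e.2 ≤ 120384 * C.D0 ^ 2 * C.t ^ 2 := by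
    have e1 : ∑ e ∈ C.Qo, C.x e.1 * C.x e.2 ≤ (C.Qo.card : ℝ) * (576 * C.D0 * C.t ^ 2) := by
      rw [← nsmul_eq_mul]
      exact Finset.sum_le_card_nsmul _ _ _ fun e he => C.Q_prod he
    have e2 : (C.Qo.card : ℝ) * (576 * C.D0 * C.t ^ 2) ≤ (209 * C.D0) * (576 * C.D0 * C.t ^ 2) := by
      apply mul_le_mul_of_nonneg_right _ (by positivity)
      have := C.card_Qo
      linarith
    have e3 : (209 * C.D0) * (576 * C.D0 * C.t ^ 2) = 120384 * C.D0 ^ 2 * C.t ^ 2 := by ring
    linarith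
  linarith

end Ctx

end MP5532fa
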